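import Mathlib

/-!
# MP_2696ff_co, almost all graphs: counting alternating matrices over the field with two elements

Lemma L: the number of alternating matrices with prescribed values at `D` independent vectors is at
most `2 ^ choose (n - D) 2`.
-/

set_option autoImplicit false
set_option linter.unusedSectionVars false

namespace Pool.Agent.MP2696.AA

open Matrix Finset

/-- Symmetric with zero diagonal. -/
def IsAlt {V : Type*} (A : Matrix V V (ZMod 2)) : Prop := (∀ i j, A i j = A j i) ∧ ∀ i, A i i = 0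

section

variable {V : Type*} [Fintype V] [DecidableEq V]

theorem IsAlt.add {A B : Matrix V V (ZMod 2)} (hA : IsAlt A) (hB : IsAlt B) : IsAlt (A + B) :=
  ⟨fun i j => by rw [Matrix.add_apply, Matrix.add_apply, hA.1 i j, hB.1 i j],
    fun i => by rw [Matrix.add_apply, hA.2, hB.2, add_zero]⟩

theorem IsAlt.sub {A B : Matrix V V (ZMod 2)} (hA : IsAlt A) (hB : IsAlt B) : IsAlt (A - B) :=
  ⟨fun i j => by rw [Matrix.sub_apply, Matrix.sub_apply, hA.1 i j, hB.1 i j],
    fun i => by rw [Matrix.sub_apply, hA.2, hB.2, sub_zero]⟩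

/-- The bilinear form of a matrix. -/
def bf (A : Matrix V V (ZMod 2)) (x y : V → ZMod 2) : ZMod 2 := x ⬝ᵥ A *ᵥ y

theorem bf_add_left (A : Matrix V V (ZMod 2)) (x x' y : V → ZMod 2) :
    bf A (x + x') y = bf A x y + bf A x' y := by
  rw [bf, add_dotProduct]; rfl

theorem bf_add_right (A : Matrix V V (ZMod 2)) (x y y' : V → ZMod 2) :
    bf A x (y + y') = bf A x y + bf A x y' := by
  rw [bf, mulVec_add, dotProduct_add]; rfl

theorem bf_smul_left (A : Matrix V V (ZMod 2)) (c : ZMod 2) (x y : V → ZMod 2) :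
    bf A (c • x) y = c * bf A x y := by
  rw [bf, smul_dotProduct]; rfl

theorem bf_smul_right (A : Matrix V V (ZMod 2)) (c : ZMod 2) (x y : V → ZMod 2) :
    bf A x (c • y) = c * bf A x y := by
  rw [bf, mulVec_smul, dotProduct_smul]; rfl

theorem IsAlt.bf_comm {A : Matrix V V (ZMod 2)} (hA : IsAlt A) (x y : V → ZMod 2) :
    bf A x y = bf A y x := by
  have hT : Aᵀ = A := by
    ext i j
    exact hA.1 j i
  rw [bf, bf, dotProduct_mulVec, ← mulVec_transpose, hT, dotProduct_comm]

theorem IsAlt.bf_self {A : Matrix V V (ZMod 2)} (hA : IsAlt A) (x : V → ZMod 2) :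
    bf A x x = 0 := by
  have h1 : bf A x x = ∑ p : V × V, x p.1 * (A p.1 p.2 * x p.2) := by
    rw [bf, dotProduct, Fintype.sum_prod_type]
    refine Finset.sum_congr rfl fun i _ => ?_
    rw [mulVec, dotProduct, Finset.mul_sum]
  rw [h1]
  refine Finset.sum_involution (fun p _ => (p.2, p.1)) ?_ ?_ ?_ ?_
  · rintro ⟨i, j⟩ _
    change x i * (A i j * x j) + x j * (A j i * x i) = 0
    rw [hA.1 j i, show x j * (A i j * x i) = x i * (A i j * x j) by ring]
    exact CharTwo.add_self_eq_zero _
  · rintro ⟨i, j⟩ _ h1 h2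
    have h3 : j = i := congrArg Prod.fst h2
    subst h3
    apply h1
    change x j * (A j j * x j) = 0
    rw [hA.2, zero_mul, mul_zero]
  · intro p _
    exact Finset.mem_univ _
  · rintro ⟨i, j⟩ _
    rfl

theorem card_pairs (m : ℕ) : Fintype.card (Σ i : Fin m, Fin i) = m.choose 2 := by
  rw [Fintype.card_sigma]
  simp only [Fintype.card_fin]
  rw [Fin.sum_univ_eq_sum_range (fun i => i), Finset.sum_range_id, Nat.choose_two_right]

/-- A complementary family. -/
theorem exists_compl {D : ℕ} (v : Fin D → V → ZMod 2) (hv : LinearIndependent (ZMod 2) v) :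
    ∃ u : Fin (Fintype.card V - D) → V → ZMod 2,
      Submodule.span (ZMod 2) (Set.range v) ⊔ Submodule.span (ZMod 2) (Set.range u) = ⊤ := by
  set C := Submodule.span (ZMod 2) (Set.range v) with hC
  obtain ⟨C', hC'⟩ := Submodule.exists_isCompl C
  have h1 : Module.finrank (ZMod 2) C = D := by
    rw [hC, finrank_span_eq_card hv, Fintype.card_fin]
  have h2 := Submodule.finrank_add_eq_of_isCompl hC'
  rw [h1, Module.finrank_fintype_fun_eq_card] at h2
  have h3 : Module.finrank (ZMod 2) C' = Fintype.card V - D := by omega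
  let b := Module.finBasisOfFinrankEq (ZMod 2) C' h3
  refine ⟨fun i => (b i : V → ZMod 2), ?_⟩
  have h4 : Submodule.span (ZMod 2) (Set.range fun i => (b i : V → ZMod 2)) = C' := by
    have h5 : (Set.range fun i => (b i : V → ZMod 2)) = C'.subtype '' (Set.range b) := by
      rw [← Set.range_comp]
      rfl
    rw [h5, Submodule.span_image, b.span_eq, Submodule.map_top, Submodule.range_subtype]
  rw [h4]
  exact hC'.sup_eq_top

/-- An alternating matrix which kills `v` and has `u i, u j` orthogonal for `j < i` is zero. -/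
theorem eq_zero_of_pairs {D m : ℕ} (v : Fin D → V → ZMod 2) (u : Fin m → V → ZMod 2)
    (hs : Submodule.span (ZMod 2) (Set.range v) ⊔ Submodule.span (ZMod 2) (Set.range u) = ⊤)
    (A : Matrix V V (ZMod 2)) (hA : IsAlt A) (h0 : ∀ j, A *ᵥ v j = 0)
    (h1 : ∀ i j : Fin m, j < i → bf A (u i) (u j) = 0) : A = 0 := by
  have h2 : ∀ i j : Fin m, bf A (u i) (u j) = 0 := by
    intro i j
    rcases lt_trichotomy i j with h | h | h
    · rw [hA.bf_comm]; exact h1 j i h
    · rw [h]; exact hA.bf_self _
    · exact h1 i j h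
  have h3 : ∀ y : V → ZMod 2, ∀ i, bf A (u i) y = 0 := by
    intro y i
    have hy : y ∈ Submodule.span (ZMod 2) (Set.range v) ⊔ Submodule.span (ZMod 2) (Set.range u) := by
      rw [hs]; trivial
    rw [← Submodule.span_union] at hy
    induction hy using Submodule.span_induction with
    | mem z hz =>
      rcases hz with ⟨j, rfl⟩ | ⟨j, rfl⟩
      · rw [bf, h0 j, dotProduct_zero]
      · exact h2 i j
    | zero => rw [bf, mulVec_zero, dotProduct_zero]
    | add a b _ _ ha hb => rw [bf_add_right, ha, hb, add_zero]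
    | smul c a _ ha => rw [bf_smul_right, ha, mul_zero]
  have h4 : ∀ x y : V → ZMod 2, bf A x y = 0 := by
    intro x y
    have hx : x ∈ Submodule.span (ZMod 2) (Set.range v) ⊔ Submodule.span (ZMod 2) (Set.range u) := by
      rw [hs]; trivial
    rw [← Submodule.span_union] at hx
    induction hx using Submodule.span_induction with
    | mem z hz =>
      rcases hz with ⟨j, rfl⟩ | ⟨j, rfl⟩
      · rw [hA.bf_comm, bf, h0 j, dotProduct_zero]
      · exact h3 y j
    | zero => rw [bf, zero_dotProduct]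
    | add a b _ _ ha hb => rw [bf_add_left, ha, hb, add_zero]
    | smul c a _ ha => rw [bf_smul_left, ha, mul_zero]
  ext i j
  have h5 := h4 (Pi.single i 1) (Pi.single j 1)
  rw [bf] at h5
  simpa using h5

/-- Lemma L, the homogeneous case. -/
theorem card_ker_le {D : ℕ} (v : Fin D → V → ZMod 2) (hv : LinearIndependent (ZMod 2) v) :
    Nat.card {A : Matrix V V (ZMod 2) // IsAlt A ∧ ∀ j, A *ᵥ v j = 0} ≤
      2 ^ ((Fintype.card V - D).choose 2) := by
  obtain ⟨u, hu⟩ := exists_compl v hv
  let f : {A : Matrix V V (ZMod 2) // IsAlt A ∧ ∀ j, A *ᵥ v j = 0} →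
      ((Σ i : Fin (Fintype.card V - D), Fin i) → ZMod 2) :=
    fun A p => bf A.1 (u p.1) (u ⟨p.2, p.2.2.trans p.1.2⟩)
  have hf : Function.Injective f := by
    rintro ⟨A, hA, hA0⟩ ⟨B, hB, hB0⟩ hAB
    apply Subtype.ext
    change A = B
    rw [← sub_eq_zero]
    refine eq_zero_of_pairs v u hu (A - B) (hA.sub hB) (fun j => ?_) (fun i j hij => ?_)
    · rw [sub_mulVec, hA0, hB0, sub_zero]
    · have h1 := congrFun hAB ⟨i, ⟨j, hij⟩⟩
      change bf A (u i) (u ⟨j, _⟩) = bf B (u i) (u ⟨j, _⟩) at h1
      rw [bf, sub_mulVec, dotProduct_sub, sub_eq_zero]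
      exact h1
  refine (Nat.card_le_card_of_injective f hf).trans ?_
  rw [Nat.card_eq_fintype_card, Fintype.card_fun, ZMod.card, card_pairs]

/-- Lemma L. -/
theorem card_sol_le {D : ℕ} (v w : Fin D → V → ZMod 2) (hv : LinearIndependent (ZMod 2) v) :
    Nat.card {A : Matrix V V (ZMod 2) // IsAlt A ∧ ∀ j, A *ᵥ v j = w j} ≤
      2 ^ ((Fintype.card V - D).choose 2) := by
  rcases isEmpty_or_nonempty {A : Matrix V V (ZMod 2) // IsAlt A ∧ ∀ j, A *ᵥ v j = w j} with h | h
  · rw [Nat.card_of_isEmpty]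
    exact Nat.zero_le _
  · obtain ⟨A0, hA0, hw⟩ := h
    refine le_trans ?_ (card_ker_le v hv)
    refine Nat.card_le_card_of_injective
      (fun A : {A : Matrix V V (ZMod 2) // IsAlt A ∧ ∀ j, A *ᵥ v j = w j} =>
        (⟨A.1 - A0, A.2.1.sub hA0, fun j => by rw [sub_mulVec, A.2.2, hw, sub_self]⟩ :
          {A : Matrix V V (ZMod 2) // IsAlt A ∧ ∀ j, A *ᵥ v j = 0})) ?_
    rintro ⟨A, hA⟩ ⟨B, hB⟩ hAB
    apply Subtype.ext
    have h1 := congrArg Subtype.val hAB
    exact sub_left_injective h1

/-- The exponents. -/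
theorem choose_two_split (n D : ℕ) (h : D ≤ n) :
    n.choose 2 + D * (D + 1) / 2 = (n - D).choose 2 + n * D := by
  obtain ⟨m, rfl⟩ := Nat.exists_eq_add_of_le h
  rw [Nat.add_sub_cancel_left]
  have h1 : (D + m).choose 2 = D.choose 2 + D * m + m.choose 2 := by
    induction D with
    | zero => simp
    | succ D ih =>
      rw [show D + 1 + m = (D + m) + 1 by ring, Nat.choose_succ_succ' (D + m) 1,
        Nat.choose_one_right, ih (by omega), Nat.choose_succ_succ' D 1, Nat.choose_one_right]
      ring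
  have h2 : D.choose 2 + D * (D + 1) / 2 = D * D := by
    rw [Nat.choose_two_right]
    have h3 : 2 ∣ D * (D + 1) := (Nat.even_mul_succ_self D).two_dvd
    have h4 : 2 ∣ D * (D - 1) := by
      rcases D with _ | D
      · simp
      · rw [Nat.add_sub_cancel, mul_comm]
        exact (Nat.even_mul_succ_self D).two_dvd
    have h5 : D * (D + 1) + D * (D - 1) = 2 * (D * D) := by
      rcases D with _ | D
      · simp
      · rw [Nat.add_sub_cancel]; ring
    omega
  rw [h1]
  have h3 : (D + m) * D = D * D + D * m := by ring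
  omega

end

end Pool.Agent.MP2696.AA
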