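import Pool.Agent.Lib.MP_2696ff_co.AA.Cnt

/-!
# MP_2696ff_co, almost all graphs: balanced bipartite parts
-/

set_option autoImplicit false
set_option linter.unusedSectionVars false

namespace Pool.Agent.MP2696.AA

open Matrix Finset

section

variable {n : ℕ}

/-- Every row in `S` has half of its entries in `T` equal to one. -/
def Bal (S T : Finset (Fin n)) (A : Matrix (Fin n) (Fin n) (ZMod 2)) : Prop :=
  ∀ i ∈ S, 2 * (T.filter fun j => A i j ≠ 0).card = T.card

theorem sum_cn_le' {T : Type*} [Fintype T]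
    (R : Matrix (Fin n) (Fin n) (ZMod 2) → T → Prop) (B : ℕ)
    (h : ∀ A, IsAlt A → Nat.card {t : T // R A t} ≤ B) :
    ∑ t, cn n (fun A => R A t) ≤ 2 ^ (n.choose 2) * B := by
  classical
  have h1 : ∀ t, cn n (fun A => R A t) =
      ∑ A : Matrix (Fin n) (Fin n) (ZMod 2), if IsAlt A ∧ R A t then 1 else 0 := by
    intro t
    rw [cn_eq, card_filter]
  simp only [h1]
  rw [sum_comm]
  have h2 : ∀ A : Matrix (Fin n) (Fin n) (ZMod 2),
      (∑ t, if IsAlt A ∧ R A t then 1 else 0) ≤ if IsAlt A then B else 0 := by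
    intro A
    by_cases hA : IsAlt A
    · rw [if_pos hA]
      refine le_trans (le_of_eq ?_) (h A hA)
      rw [Nat.card_eq_fintype_card, Fintype.card_subtype, card_filter]
      refine sum_congr rfl fun t _ => ?_
      by_cases ht : R A t
      · rw [if_pos ht, if_pos ⟨hA, ht⟩]
      · rw [if_neg ht, if_neg fun h => ht h.2]
    · rw [if_neg hA]
      refine le_of_eq (sum_eq_zero fun t _ => ?_)
      rw [if_neg fun h => hA h.1]
  refine (sum_le_sum fun A _ => h2 A).trans ?_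
  rw [← sum_filter, sum_const, smul_eq_mul]
  refine Nat.mul_le_mul_right _ ?_
  have h3 := cn_total n
  rw [cn_eq] at h3
  refine le_trans (card_le_card fun A hA => ?_) h3
  rw [mem_filter] at hA ⊢
  exact ⟨hA.1, hA.2, trivial⟩

/-- The matrix of a bipartite block. -/
def blk (S T : Finset (Fin n)) (f : S → T → ZMod 2) : Matrix (Fin n) (Fin n) (ZMod 2) := fun i j =>
  if h : i ∈ S ∧ j ∈ T then f ⟨i, h.1⟩ ⟨j, h.2⟩
  else if h : i ∈ T ∧ j ∈ S then f ⟨j, h.2⟩ ⟨i, h.1⟩ else 0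

theorem blk_alt (S T : Finset (Fin n)) (hST : Disjoint S T) (f : S → T → ZMod 2) :
    IsAlt (blk S T f) := by
  rw [Finset.disjoint_left] at hST
  refine ⟨fun i j => ?_, fun i => ?_⟩
  · unfold blk
    by_cases h1 : i ∈ S ∧ j ∈ T
    · have h2 : ¬ (j ∈ S ∧ i ∈ T) := fun h => hST h.1 h1.2
      rw [dif_pos h1, dif_neg h2, dif_pos ⟨h1.2, h1.1⟩]
    · rw [dif_neg h1]
      by_cases h2 : i ∈ T ∧ j ∈ S
      · rw [dif_pos h2, dif_pos ⟨h2.2, h2.1⟩]
      · rw [dif_neg h2, dif_neg (fun h => h2 ⟨h.2, h.1⟩), dif_neg (fun h => h1 ⟨h.2, h.1⟩)]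
  · unfold blk
    rw [dif_neg (fun h => hST h.1 h.2), dif_neg (fun h => hST h.2 h.1)]

theorem cn_shift (P : Matrix (Fin n) (Fin n) (ZMod 2) → Prop) (E : Matrix (Fin n) (Fin n) (ZMod 2))
    (hE : IsAlt E) : cn n P ≤ cn n (fun A => P (A + E)) := by
  have h1 : ∀ A : Matrix (Fin n) (Fin n) (ZMod 2), A + E + E = A := by
    intro A
    ext i j
    rw [Matrix.add_apply, Matrix.add_apply, add_assoc, CharTwo.add_self_eq_zero, add_zero]
  refine Nat.card_le_card_of_injective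
    (fun A : {A : Matrix (Fin n) (Fin n) (ZMod 2) // IsAlt A ∧ P A} =>
      (⟨A.1 + E, A.2.1.add hE, by rw [h1]; exact A.2.2⟩ :
        {A : Matrix (Fin n) (Fin n) (ZMod 2) // IsAlt A ∧ P (A + E)})) ?_
  rintro ⟨A, hA⟩ ⟨B, hB⟩ hAB
  have h2 : A + E = B + E := congrArg Subtype.val hAB
  exact Subtype.ext (add_right_cancel h2)

theorem bal_fibre (S T : Finset (Fin n)) (A : Matrix (Fin n) (Fin n) (ZMod 2)) :
    Nat.card {f : S → T → ZMod 2 // Bal S T (A + blk S T f)} ≤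
      (T.card.choose (T.card / 2)) ^ S.card := by
  classical
  have h1 : Nat.card (S → (T.powersetCard (T.card / 2))) = (T.card.choose (T.card / 2)) ^ S.card := by
    rw [Nat.card_eq_fintype_card, Fintype.card_fun, Fintype.card_coe, Fintype.card_coe,
      card_powersetCard]
  rw [← h1]
  refine Nat.card_le_card_of_injective
    (fun f : {f : S → T → ZMod 2 // Bal S T (A + blk S T f)} =>
      fun i : S => (⟨T.filter fun j => (A + blk S T f.1) i.1 j ≠ 0, ?_⟩ :
        (T.powersetCard (T.card / 2)))) ?_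
  · rw [mem_powersetCard]
    refine ⟨filter_subset _ _, ?_⟩
    have := f.2 i.1 i.2
    omega
  · rintro ⟨f, hf⟩ ⟨g, hg⟩ hfg
    apply Subtype.ext
    change f = g
    funext i j
    have h2 := congrArg Subtype.val (congrFun hfg i)
    have h3 := Finset.ext_iff.1 h2 j.1
    change j.1 ∈ T.filter _ ↔ j.1 ∈ T.filter _ at h3
    rw [mem_filter, mem_filter] at h3
    have e1 : ∀ f : S → T → ZMod 2, (A + blk S T f) i.1 j.1 = A i.1 j.1 + f i j := by
      intro f
      rw [Matrix.add_apply, blk, dif_pos ⟨i.2, j.2⟩]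
    rw [e1, e1] at h3
    have h4 : (A i.1 j.1 + f i j ≠ 0) ↔ (A i.1 j.1 + g i j ≠ 0) :=
      ⟨fun h => (h3.1 ⟨j.2, h⟩).2, fun h => (h3.2 ⟨j.2, h⟩).2⟩
    revert h4
    generalize A i.1 j.1 = a
    generalize f i j = x
    generalize g i j = y
    revert a x y
    decide

theorem bal_count (S T : Finset (Fin n)) (hST : Disjoint S T) :
    cn n (Bal S T) * 2 ^ (S.card * T.card) ≤
      2 ^ (n.choose 2) * (T.card.choose (T.card / 2)) ^ S.card := by
  classical
  have h1 := sum_cn_le' (n := n) (fun A (f : S → T → ZMod 2) => Bal S T (A + blk S T f))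
    ((T.card.choose (T.card / 2)) ^ S.card) (fun A _ => bal_fibre S T A)
  refine le_trans ?_ h1
  have h2 : Fintype.card (S → T → ZMod 2) = 2 ^ (S.card * T.card) := by
    rw [Fintype.card_fun, Fintype.card_fun, ZMod.card, Fintype.card_coe, Fintype.card_coe,
      ← pow_mul, mul_comm]
  rw [← h2, mul_comm, ← smul_eq_mul, ← card_univ]
  refine card_nsmul_le_sum _ _ _ fun f _ => cn_shift _ _ (blk_alt S T hST f)

end

/-- Central binomial coefficients. -/
theorem centralBinom_sq (m : ℕ) : m.centralBinom ^ 2 * (2 * m + 1) ≤ 16 ^ m := by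
  induction m with
  | zero => simp
  | succ m ih =>
    have h1 := Nat.succ_mul_centralBinom_succ m
    have h2 : (m + 1) ^ 2 * ((m + 1).centralBinom ^ 2 * (2 * (m + 1) + 1)) ≤
        (m + 1) ^ 2 * 16 ^ (m + 1) := by
      calc (m + 1) ^ 2 * ((m + 1).centralBinom ^ 2 * (2 * (m + 1) + 1))
          = ((m + 1) * (m + 1).centralBinom) ^ 2 * (2 * (m + 1) + 1) := by ring
        _ = (2 * (2 * m + 1) * m.centralBinom) ^ 2 * (2 * (m + 1) + 1) := by rw [h1]
        _ = 4 * (2 * m + 1) * (2 * m + 3) * (m.centralBinom ^ 2 * (2 * m + 1)) := by ring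
        _ ≤ 4 * (2 * m + 1) * (2 * m + 3) * 16 ^ m := Nat.mul_le_mul_left _ ih
        _ ≤ (16 * (m + 1) ^ 2) * 16 ^ m := by
            refine Nat.mul_le_mul_right _ ?_
            nlinarith
        _ = _ := by ring
    exact Nat.le_of_mul_le_mul_left h2 (by positivity)

theorem mid_small (η : ℝ) (hη : 0 < η) : ∃ t0 : ℕ, ∀ t ≥ t0, 2 ∣ t →
    (t.choose (t / 2) : ℝ) ≤ η * 2 ^ t := by
  obtain ⟨m0, hm0⟩ := exists_nat_gt (1 / η ^ 2)
  refine ⟨2 * m0, fun t ht h2 => ?_⟩
  obtain ⟨m, rfl⟩ := h2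
  have hm : m0 ≤ m := by omega
  rw [Nat.mul_div_cancel_left m (by norm_num), ← Nat.centralBinom_eq_two_mul_choose]
  have h1 : (m.centralBinom : ℝ) ^ 2 * (2 * m + 1) ≤ 16 ^ m := by
    exact_mod_cast centralBinom_sq m
  have h3 : 1 ≤ η ^ 2 * (2 * m + 1) := by
    rw [div_lt_iff₀ (by positivity)] at hm0
    have h4 : (m0 : ℝ) ≤ 2 * m + 1 := by
      have : (m0 : ℝ) ≤ m := by exact_mod_cast hm
      have : (0 : ℝ) ≤ m := by positivity
      linarith
    have h5 : (m0 : ℝ) * η ^ 2 ≤ (2 * m + 1) * η ^ 2 :=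
      mul_le_mul_of_nonneg_right h4 (by positivity)
    linarith
  have h4 : (m.centralBinom : ℝ) ^ 2 ≤ (η * 2 ^ (2 * m)) ^ 2 := by
    have hpos : (0 : ℝ) < 2 * m + 1 := by positivity
    rw [← mul_le_mul_iff_left₀ hpos]
    refine h1.trans ?_
    have e1 : (η * 2 ^ (2 * m)) ^ 2 * (2 * m + 1) = η ^ 2 * (2 * m + 1) * 16 ^ m := by
      rw [mul_pow, ← pow_mul, show 2 * m * 2 = 4 * m by ring, pow_mul]
      norm_num
      ring
    rw [e1]
    have e2 : (0 : ℝ) ≤ 16 ^ m := by positivity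
    calc (16 : ℝ) ^ m = 1 * 16 ^ m := by ring
      _ ≤ _ := mul_le_mul_of_nonneg_right h3 e2
  exact le_of_sq_le_sq h4 (by positivity)

/-- Balanced parts are rare. -/
theorem evD2 (M : ℕ) (ε : ℝ) (hε : 0 < ε) : ∃ n₀ : ℕ, ∀ n ≥ n₀,
    (cn n (fun A => ∃ S T : Finset (Fin n), Disjoint S T ∧ n ≤ 4 * M * S.card ∧ n < 4 * T.card ∧
      Bal S T A) : ℝ) ≤ ε * 2 ^ (n.choose 2) := by
  classical
  set η : ℝ := (1 / 8) ^ (4 * M) with hη
  have hη0 : 0 < η := by positivity
  obtain ⟨t0, ht0⟩ := mid_small η hη0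
  have t1 := tendsto_pow_atTop_nhds_zero_of_lt_one (r := (1 / 2 : ℝ)) (by norm_num) (by norm_num)
  obtain ⟨n1, hn1⟩ := Filter.eventually_atTop.1 (t1.eventually (gt_mem_nhds hε))
  refine ⟨max n1 (4 * t0 + 1), fun n hn => ?_⟩
  have hn1' : n1 ≤ n := le_trans (le_max_left _ _) hn
  have hn2 : 4 * t0 + 1 ≤ n := le_trans (le_max_right _ _) hn
  set N : ℝ := 2 ^ (n.choose 2) with hN
  have hN0 : 0 < N := by positivity
  have h1 : cn n (fun A => ∃ S T : Finset (Fin n), Disjoint S T ∧ n ≤ 4 * M * S.card ∧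
      n < 4 * T.card ∧ Bal S T A) ≤
      ∑ q : Finset (Fin n) × Finset (Fin n), cn n (fun A => Disjoint q.1 q.2 ∧
        n ≤ 4 * M * q.1.card ∧ n < 4 * q.2.card ∧ Bal q.1 q.2 A) := by
    refine le_trans (cn_mono ?_) (cn_exists univ (fun (q : Finset (Fin n) × Finset (Fin n)) A =>
      Disjoint q.1 q.2 ∧ n ≤ 4 * M * q.1.card ∧ n < 4 * q.2.card ∧ Bal q.1 q.2 A))
    rintro A _ ⟨S, T, h⟩
    exact ⟨(S, T), mem_univ _, h⟩
  have h2 : ∀ q : Finset (Fin n) × Finset (Fin n),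
      (cn n (fun A => Disjoint q.1 q.2 ∧ n ≤ 4 * M * q.1.card ∧ n < 4 * q.2.card ∧
        Bal q.1 q.2 A) : ℝ) ≤ (1 / 8) ^ n * N := by
    rintro ⟨S, T⟩
    by_cases hq : Disjoint S T ∧ n ≤ 4 * M * S.card ∧ n < 4 * T.card ∧ 2 ∣ T.card
    · obtain ⟨hST, hS, hT, h2T⟩ := hq
      have h3 : cn n (fun A => Disjoint S T ∧ n ≤ 4 * M * S.card ∧ n < 4 * T.card ∧
          Bal S T A) ≤ cn n (Bal S T) := cn_mono fun A _ h => h.2.2.2
      have h4 : (cn n (Bal S T) : ℝ) * 2 ^ (S.card * T.card) ≤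
          N * ((T.card.choose (T.card / 2) : ℕ) : ℝ) ^ S.card := by
        rw [hN]
        exact_mod_cast bal_count S T hST
      have h5 := ht0 T.card (by omega) h2T
      have h6 : (cn n (Bal S T) : ℝ) ≤ N * η ^ S.card := by
        have hpos : (0 : ℝ) < 2 ^ (S.card * T.card) := by positivity
        rw [← mul_le_mul_iff_left₀ hpos]
        refine h4.trans ?_
        calc N * ((T.card.choose (T.card / 2) : ℕ) : ℝ) ^ S.card
            ≤ N * (η * 2 ^ T.card) ^ S.card := by gcongr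
          _ = N * η ^ S.card * 2 ^ (S.card * T.card) := by
              rw [mul_pow, mul_comm S.card, pow_mul 2 T.card S.card, mul_assoc]
      have h7 : η ^ S.card ≤ (1 / 8 : ℝ) ^ n := by
        rw [hη, ← pow_mul]
        exact pow_le_pow_of_le_one (by norm_num) (by norm_num) hS
      calc (cn n (fun A => Disjoint S T ∧ n ≤ 4 * M * S.card ∧ n < 4 * T.card ∧
          Bal S T A) : ℝ) ≤ cn n (Bal S T) := by exact_mod_cast h3
        _ ≤ N * η ^ S.card := h6
        _ ≤ N * (1 / 8) ^ n := mul_le_mul_of_nonneg_left h7 hN0.le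
        _ = _ := mul_comm _ _
    · have h3 : cn n (fun A => Disjoint S T ∧ n ≤ 4 * M * S.card ∧ n < 4 * T.card ∧
          Bal S T A) = 0 := by
        rw [cn_eq, card_eq_zero, filter_eq_empty_iff]
        rintro A _ ⟨_, hST, hS, hT, hB⟩
        apply hq
        refine ⟨hST, hS, hT, ?_⟩
        have hS0 : S.Nonempty := by
          rw [← card_pos]
          by_contra hcon
          have : S.card = 0 := by omega
          rw [this, mul_zero] at hS
          omega
        obtain ⟨i, hi⟩ := hS0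
        exact ⟨_, (hB i hi).symm⟩
      change (cn n (fun A => Disjoint S T ∧ n ≤ 4 * M * S.card ∧ n < 4 * T.card ∧
          Bal S T A) : ℝ) ≤ _
      rw [h3, Nat.cast_zero]
      positivity
  have h3 : (cn n (fun A => ∃ S T : Finset (Fin n), Disjoint S T ∧ n ≤ 4 * M * S.card ∧
      n < 4 * T.card ∧ Bal S T A) : ℝ) ≤
      ∑ q : Finset (Fin n) × Finset (Fin n), (cn n (fun A => Disjoint q.1 q.2 ∧
        n ≤ 4 * M * q.1.card ∧ n < 4 * q.2.card ∧ Bal q.1 q.2 A) : ℝ) := by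
    exact_mod_cast h1
  refine h3.trans ((sum_le_card_nsmul _ _ _ fun q _ => h2 q).trans ?_)
  rw [nsmul_eq_mul, card_univ, Fintype.card_prod, Fintype.card_finset, Fintype.card_fin]
  have h4 : (((2 ^ n * 2 ^ n : ℕ) : ℝ)) * ((1 / 8) ^ n * N) = (1 / 2) ^ n * N := by
    push_cast
    rw [← mul_assoc, ← mul_pow, ← mul_pow]
    norm_num
  rw [h4]
  exact mul_le_mul_of_nonneg_right (hn1 n hn1').le hN0.le

end Pool.Agent.MP2696.AA
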