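import Pool.Agent.Lib.MP_2696ff_co.AA.Cnt

/-!
# MP_2696ff_co, almost all graphs: eigenvectors with vanishing quadratic form, one field
-/

set_option autoImplicit false
set_option linter.unusedSectionVars false

namespace Pool.Agent.MP2696.AA

open Matrix Finset

section

variable {F : Type*} [Field F] [Fintype F] [Algebra (ZMod 2) F]

/-- An eigenvector with vanishing quadratic form. -/
def Rel {n : ℕ} (θ : F) (A : Matrix (Fin n) (Fin n) (ZMod 2)) (x : Fin n → F) : Prop :=
  x ≠ 0 ∧ (∀ i, ∑ j, A i j • x j = θ * x i) ∧ qf A θ x = 0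

theorem code_dot {n : ℕ} (x : Fin n → F) (hiso : ∀ l : Module.Dual (ZMod 2) F, ∑ i, l (x i) • x i = 0)
    (l m : Module.Dual (ZMod 2) F) : codeMap x l ⬝ᵥ codeMap x m = 0 := by
  have h1 : codeMap x l ⬝ᵥ codeMap x m = m (∑ i, l (x i) • x i) := by
    rw [map_sum, dotProduct]
    refine sum_congr rfl fun i _ => ?_
    rw [map_smul, smul_eq_mul]
    rfl
  rw [h1, hiso, map_zero]

/-- The tuple of a vector over `F`. -/
noncomputable def tup {n d : ℕ} (b : Module.Basis (Fin d) (ZMod 2) (Module.Dual (ZMod 2) F)) (x : Fin n → F) :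
    Fin d → Fin n → ZMod 2 := fun a => codeMap x (b a)

theorem tup_iso {n d : ℕ} (b : Module.Basis (Fin d) (ZMod 2) (Module.Dual (ZMod 2) F)) (x : Fin n → F)
    (hx : Submodule.span (ZMod 2) (Set.range x) = ⊤)
    (hiso : ∀ l : Module.Dual (ZMod 2) F, ∑ i, l (x i) • x i = 0) : Iso (tup b x) := by
  refine ⟨?_, fun a c => code_dot x hiso _ _⟩
  exact b.linearIndependent.map' (codeMap x) (LinearMap.ker_eq_bot.2 (codeMap_injective x hx))

theorem tup_inj {n d : ℕ} (b : Module.Basis (Fin d) (ZMod 2) (Module.Dual (ZMod 2) F)) :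
    Function.Injective (tup (n := n) b) := by
  intro x y h
  funext i
  rw [← sub_eq_zero, ← Module.forall_dual_apply_eq_zero_iff (ZMod 2)]
  intro l
  have h1 : ∀ a, b a (x i - y i) = 0 := by
    intro a
    rw [map_sub, sub_eq_zero]
    exact congrFun (congrFun h a) i
  have h2 := b.sum_repr l
  rw [← h2, LinearMap.sum_apply]
  exact sum_eq_zero fun a _ => by rw [LinearMap.smul_apply, h1, smul_zero]

theorem tup_span {n d : ℕ} (b : Module.Basis (Fin d) (ZMod 2) (Module.Dual (ZMod 2) F)) (x : Fin n → F)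
    (l : Module.Dual (ZMod 2) F) :
    codeMap x l ∈ Submodule.span (ZMod 2) (Set.range (tup b x)) := by
  rw [← b.sum_repr l, map_sum]
  refine Submodule.sum_mem _ fun a _ => ?_
  rw [map_smul]
  exact Submodule.smul_mem _ _ (Submodule.subset_span ⟨a, rfl⟩)

theorem mulVec_code {n : ℕ} (A : Matrix (Fin n) (Fin n) (ZMod 2)) (x : Fin n → F) (θ : F)
    (hA : ∀ i, ∑ j, A i j • x j = θ * x i) (l : Module.Dual (ZMod 2) F) :
    A *ᵥ codeMap x l = codeMap x (dm l θ) := by
  funext i
  change _ = l (θ * x i)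
  rw [← hA i, map_sum, mulVec, dotProduct]
  refine sum_congr rfl fun j _ => ?_
  rw [map_smul, smul_eq_mul]
  rfl

theorem qf_smul {n : ℕ} (A : Matrix (Fin n) (Fin n) (ZMod 2)) (θ : F) (x : Fin n → F) (f : F) :
    qf A θ (fun i => f * x i) = f ^ 2 * qf A θ x := by
  unfold qf
  rw [mul_sum]
  refine sum_congr rfl fun i _ => ?_
  rw [mul_sum]
  refine sum_congr rfl fun j _ => ?_
  split_ifs
  · ring
  · rw [mul_zero]

theorem rel_mult {n : ℕ} (A : Matrix (Fin n) (Fin n) (ZMod 2)) (θ : F)
    (h : ∃ x, Rel θ A x) : 2 ^ Module.finrank (ZMod 2) F - 1 ≤ Nat.card {x : Fin n → F // Rel θ A x} := by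
  classical
  obtain ⟨x, hx0, hx1, hx2⟩ := h
  have h1 : Nat.card {f : F // f ≠ 0} = 2 ^ Module.finrank (ZMod 2) F - 1 := by
    rw [Nat.card_eq_fintype_card, Fintype.card_subtype_compl, Fintype.card_subtype_eq,
      Module.card_eq_pow_finrank (K := ZMod 2), ZMod.card]
  rw [← h1]
  obtain ⟨i, hi⟩ : ∃ i, x i ≠ 0 := by
    by_contra hcon
    push Not at hcon
    exact hx0 (funext hcon)
  refine Nat.card_le_card_of_injective
    (fun f : {f : F // f ≠ 0} => (⟨fun i => f.1 * x i, ?_, fun i => ?_, ?_⟩ :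
      {x : Fin n → F // Rel θ A x})) ?_
  · intro h2
    have h3 := congrFun h2 i
    exact (mul_ne_zero f.2 hi) h3
  · have h4 : ∑ j, A i j • (f.1 * x j) = f.1 * ∑ j, A i j • x j := by
      rw [mul_sum]
      exact sum_congr rfl fun j _ => (mul_smul_comm _ _ _).symm
    rw [h4, hx1]
    ring
  · rw [qf_smul, hx2, mul_zero]
  · rintro ⟨f, hf⟩ ⟨g, hg⟩ hfg
    apply Subtype.ext
    have h5 := congrFun (congrArg Subtype.val hfg) i
    exact mul_right_cancel₀ hi h5

theorem zmod_two_cases (t : ZMod 2) : t = 0 ∨ t = 1 := by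
  revert t; decide

/-- Codewords of small weight. -/
theorem wt_two {n : ℕ} (c : Fin n → ZMod 2) (hc0 : c ≠ 0) (hcc : c ⬝ᵥ c = 0) (hw : ¬ 4 ≤ wt c) :
    ∃ p q : Fin n, q ≠ p ∧ c = Pi.single p 1 + Pi.single q 1 := by
  classical
  have h1 : c ⬝ᵥ c = ((wt c : ℕ) : ZMod 2) := by
    rw [dotProduct, wt, card_eq_sum_ones, Nat.cast_sum, sum_filter]
    refine sum_congr rfl fun i _ => ?_
    rcases zmod_two_cases (c i) with h | h
    · rw [h]; simp
    · rw [h]; simp
  rw [hcc] at h1
  have h2 : 2 ∣ wt c := (ZMod.natCast_eq_zero_iff _ _).1 h1.symm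
  have h3 : wt c ≠ 0 := by
    intro h
    apply hc0
    rw [wt, card_eq_zero, filter_eq_empty_iff] at h
    funext i
    exact not_not.1 (h (mem_univ i))
  have h4 : wt c = 2 := by omega
  rw [wt, card_eq_two] at h4
  obtain ⟨p, q, hpq, h5⟩ := h4
  refine ⟨p, q, hpq.symm, funext fun i => ?_⟩
  have h6 : c i ≠ 0 ↔ i = p ∨ i = q := by
    have := Finset.ext_iff.1 h5 i
    rw [mem_filter, mem_insert, mem_singleton] at this
    exact ⟨fun h => this.1 ⟨mem_univ i, h⟩, fun h => (this.2 h).2⟩
  rw [Pi.add_apply]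
  by_cases hip : i = p
  · have h7 : c i = 1 := eq_one_of_ne_zero _ (h6.2 (Or.inl hip))
    rw [h7, hip, Pi.single_eq_same, Pi.single_eq_of_ne hpq, add_zero]
  · by_cases hiq : i = q
    · have h7 : c i = 1 := eq_one_of_ne_zero _ (h6.2 (Or.inr hiq))
      rw [h7, hiq, Pi.single_eq_same, Pi.single_eq_of_ne hpq.symm, zero_add]
    · have h7 : c i = 0 := by
        by_contra h
        rcases h6.1 h with h | h
        · exact hip h
        · exact hiq h
      rw [h7, Pi.single_eq_of_ne hip, Pi.single_eq_of_ne hiq, add_zero]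

theorem wtwo' (n d : ℕ) (hd : 0 < d) (hn : 2 * d ≤ n) (p q : Fin n) (hpq : q ≠ p) :
    Nat.card {v : Fin d → Fin n → ZMod 2 // Iso v ∧
      (Pi.single p 1 + Pi.single q 1 : Fin n → ZMod 2) ∈ Submodule.span (ZMod 2) (Set.range v)} *
      2 ^ n ≤ 2 ^ ex n d * 2 ^ (d + 2) := by
  obtain ⟨k, rfl⟩ : ∃ k, d = k + 1 := ⟨d - 1, by omega⟩
  have h8 := wtwo (V := Fin n) k (by rw [Fintype.card_fin]; exact hn) p q hpq
  rw [Fintype.card_fin] at h8
  exact h8

theorem bev_field (n : ℕ) (θ : F) (hθ : Algebra.adjoin (ZMod 2) {θ} = ⊤) (h0 : θ ≠ 0) :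
    ∃ S1 S2 : ℕ, cn n (fun A => ∃ x, Rel θ A x) * (2 ^ Module.finrank (ZMod 2) F - 1) ≤ S1 + S2 ∧
      S1 * 2 ^ (Module.finrank (ZMod 2) F / 2) ≤ 2 * 2 ^ (n.choose 2) ∧
      S2 * 2 ^ n ≤ n ^ 2 * 2 ^ (Module.finrank (ZMod 2) F + 2) * 2 ^ (n.choose 2) := by
  classical
  set d := Module.finrank (ZMod 2) F with hd
  have hd1 : 0 < d := Module.finrank_pos
  have hdd : Module.finrank (ZMod 2) (Module.Dual (ZMod 2) F) = d := Subspace.dual_finrank_eq
  let b := Module.finBasisOfFinrankEq (ZMod 2) (Module.Dual (ZMod 2) F) hdd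
  have hR : ∀ (x : Fin n → F) (A : Matrix (Fin n) (Fin n) (ZMod 2)), IsAlt A → Rel θ A x →
      Submodule.span (ZMod 2) (Set.range x) = ⊤ ∧
        ∀ l : Module.Dual (ZMod 2) F, ∑ i, l (x i) • x i = 0 := fun x A hA hx =>
    ⟨eig_span A x θ hθ hx.1 hx.2.1, eig_iso A hA x θ hθ h0 hx.2.1⟩
  by_cases hn : 2 * d ≤ n
  · let G2 : (Fin n → F) → Prop := fun x => Iso (tup b x) ∧ ∃ p q : Fin n, q ≠ p ∧
      (Pi.single p 1 + Pi.single q 1 : Fin n → ZMod 2) ∈
        Submodule.span (ZMod 2) (Set.range (tup b x))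
    let R1 : Matrix (Fin n) (Fin n) (ZMod 2) → (Fin n → F) → Prop := fun A x => Rel θ A x ∧
      ∀ l : Module.Dual (ZMod 2) F, l ≠ 0 → 4 ≤ wt (codeMap x l)
    let R2 : Matrix (Fin n) (Fin n) (ZMod 2) → (Fin n → F) → Prop := fun A x => Rel θ A x ∧ G2 x
    refine ⟨∑ x, cn n (fun A => R1 A x), ∑ x, cn n (fun A => R2 A x), ?_, ?_, ?_⟩
    · refine (cn_mul_le _ (Rel θ) _ fun A _ hA => rel_mult A θ hA).trans ?_
      refine cn_sum_or _ R1 R2 fun x A hA hx => ?_
      by_cases hw : ∀ l : Module.Dual (ZMod 2) F, l ≠ 0 → 4 ≤ wt (codeMap x l)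
      · exact Or.inl ⟨hx, hw⟩
      · right
        push Not at hw
        obtain ⟨l, hl, hw⟩ := hw
        obtain ⟨h1, h2⟩ := hR x A hA hx
        have hc0 : codeMap x l ≠ 0 := by
          intro h
          exact hl (codeMap_injective x h1 (h.trans (map_zero _).symm))
        obtain ⟨p, q, hpq, h3⟩ := wt_two (codeMap x l) hc0 (code_dot x h2 l l) (not_le.2 hw)
        refine ⟨hx, tup_iso b x h1 h2, p, q, hpq, ?_⟩
        rw [← h3]
        exact tup_span b x l
    · have h1 := sum_cn_le R1 (fun x => Iso (tup b x)) (2 ^ (d / 2)) (2 ^ ((n - d).choose 2))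
        (fun x A hA hx => by
          obtain ⟨h1, h2⟩ := hR x A hA hx.1
          exact tup_iso b x h1 h2)
        (fun x _ => by
          by_cases hex : ∃ A, IsAlt A ∧ R1 A x
          · obtain ⟨A, hA, hx⟩ := hex
            obtain ⟨h1, h2⟩ := hR x A hA hx.1
            have h3 := cost x θ h1 h2 hx.2
            rw [← hd] at h3
            have h4 : cn n (fun A => R1 A x) ≤ Nat.card {A : Matrix (Fin n) (Fin n) (ZMod 2) //
                IsAlt A ∧ (∀ i, ∑ j, A i j • x j = θ * x i) ∧ qf A θ x = 0} :=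
              cn_mono (Q := fun A => (∀ i, ∑ j, A i j • x j = θ * x i) ∧ qf A θ x = 0)
                fun A _ h => h.1.2
            rw [← Nat.pow_le_pow_iff_left (n := 2) (by norm_num), mul_pow, ← pow_mul]
            refine le_trans (Nat.mul_le_mul (Nat.pow_le_pow_left h4 2)
              (Nat.pow_le_pow_right (by norm_num) (Nat.div_mul_le_self d 2))) h3
          · have h5 : cn n (fun A => R1 A x) = 0 := by
              rw [cn_eq, card_eq_zero, filter_eq_empty_iff]
              intro A _ hA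
              exact hex ⟨A, hA⟩
            rw [h5, zero_mul]
            exact Nat.zero_le _)
      refine h1.trans ?_
      have h2 : Nat.card {x : Fin n → F // Iso (tup b x)} ≤ 2 * 2 ^ ex n d := by
        have h3 := card_iso_le (V := Fin n) d (by rw [Fintype.card_fin]; exact hn)
        rw [Fintype.card_fin] at h3
        refine le_trans (Nat.card_le_card_of_injective
          (fun x : {x : Fin n → F // Iso (tup b x)} =>
            (⟨tup b x.1, x.2⟩ : {v : Fin d → Fin n → ZMod 2 // Iso v})) ?_) h3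
        intro x y h
        exact Subtype.ext (tup_inj b (congrArg Subtype.val h))
      refine (Nat.mul_le_mul_right _ h2).trans ?_
      rw [mul_assoc, ← pow_add, ex_add n d (by omega)]
    · have h1 := sum_cn_le R2 G2 1 (2 ^ ((n - d).choose 2)) (fun x A _ hx => hx.2)
        (fun x hx => by
          rw [mul_one]
          have h3 := card_sol_le (tup b x) (fun a => codeMap x (dm (b a) θ)) hx.1.1
          rw [Fintype.card_fin] at h3
          refine le_trans (cn_mono (Q := fun A => ∀ a, A *ᵥ tup b x a = codeMap x (dm (b a) θ))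
            fun A _ h a => mulVec_code A x θ h.1.2.1 (b a)) h3)
      rw [mul_one] at h1
      have h2 : Nat.card {x : Fin n → F // G2 x} * 2 ^ n ≤ n ^ 2 * (2 ^ ex n d * 2 ^ (d + 2)) := by
        have h3 : Nat.card {x : Fin n → F // G2 x} ≤
            ∑ p : Fin n, ∑ q : Fin n, if q ≠ p then Nat.card {v : Fin d → Fin n → ZMod 2 // Iso v ∧
              (Pi.single p 1 + Pi.single q 1 : Fin n → ZMod 2) ∈
                Submodule.span (ZMod 2) (Set.range v)} else 0 := by
          have h4 : Nat.card {x : Fin n → F // G2 x} = (univ.filter fun x => G2 x).card := by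
            rw [Nat.card_eq_fintype_card, Fintype.card_subtype]
          have h5 : ∀ p q : Fin n, Nat.card {v : Fin d → Fin n → ZMod 2 // Iso v ∧
              (Pi.single p 1 + Pi.single q 1 : Fin n → ZMod 2) ∈
                Submodule.span (ZMod 2) (Set.range v)} =
              (univ.filter fun v : Fin d → Fin n → ZMod 2 => Iso v ∧
              (Pi.single p 1 + Pi.single q 1 : Fin n → ZMod 2) ∈
                Submodule.span (ZMod 2) (Set.range v)).card := by
            intro p q
            rw [Nat.card_eq_fintype_card, Fintype.card_subtype]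
          have h6 : (univ.filter fun x => G2 x).card ≤ (univ.biUnion fun p : Fin n =>
              univ.biUnion fun q : Fin n => if q ≠ p then
                (univ.filter fun v : Fin d → Fin n → ZMod 2 => Iso v ∧
                (Pi.single p 1 + Pi.single q 1 : Fin n → ZMod 2) ∈
                  Submodule.span (ZMod 2) (Set.range v)) else ∅).card := by
            refine card_le_card_of_injOn (tup b) (fun x hx => ?_) (fun x _ y _ h => tup_inj b h)
            have hx' : G2 x := (mem_filter.1 (mem_coe.1 hx)).2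
            obtain ⟨hi, p, q, hpq, hsp⟩ := hx'
            rw [mem_coe, mem_biUnion]
            refine ⟨p, mem_univ _, ?_⟩
            rw [mem_biUnion]
            refine ⟨q, mem_univ _, ?_⟩
            rw [if_pos hpq, mem_filter]
            exact ⟨mem_univ _, hi, hsp⟩
          rw [h4]
          refine h6.trans (card_biUnion_le.trans (sum_le_sum fun p _ => card_biUnion_le.trans
            (sum_le_sum fun q _ => ?_)))
          split_ifs with h
          · rw [h5]
          · rw [card_empty]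
        refine (Nat.mul_le_mul_right _ h3).trans ?_
        rw [sum_mul]
        have h7 : ∀ p : Fin n, (∑ q : Fin n, if q ≠ p then
            Nat.card {v : Fin d → Fin n → ZMod 2 // Iso v ∧
              (Pi.single p 1 + Pi.single q 1 : Fin n → ZMod 2) ∈
                Submodule.span (ZMod 2) (Set.range v)} else 0) * 2 ^ n ≤
            n * (2 ^ ex n d * 2 ^ (d + 2)) := by
          intro p
          rw [sum_mul]
          refine (sum_le_card_nsmul univ _ (2 ^ ex n d * 2 ^ (d + 2))
            fun q _ => ?_).trans ?_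
          · split_ifs with h
            · exact wtwo' n d hd1 hn p q h
            · rw [zero_mul]
              exact Nat.zero_le _
          · rw [card_univ, Fintype.card_fin, smul_eq_mul]
        refine (sum_le_card_nsmul univ _ _ fun p _ => h7 p).trans ?_
        rw [card_univ, Fintype.card_fin, smul_eq_mul, ← mul_assoc, ← sq]
      calc (∑ x, cn n (fun A => R2 A x)) * 2 ^ n
          ≤ (Nat.card {x : Fin n → F // G2 x} * 2 ^ ((n - d).choose 2)) * 2 ^ n :=
            Nat.mul_le_mul_right _ h1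
        _ = (Nat.card {x : Fin n → F // G2 x} * 2 ^ n) * 2 ^ ((n - d).choose 2) := by ring
        _ ≤ (n ^ 2 * (2 ^ ex n d * 2 ^ (d + 2))) * 2 ^ ((n - d).choose 2) :=
            Nat.mul_le_mul_right _ h2
        _ = n ^ 2 * 2 ^ (d + 2) * (2 ^ ex n d * 2 ^ ((n - d).choose 2)) := by ring
        _ = n ^ 2 * 2 ^ (d + 2) * 2 ^ (n.choose 2) := by
            rw [← pow_add 2 (ex n d), ex_add n d (by omega)]
  · refine ⟨0, 0, ?_, ?_, ?_⟩
    · have h1 : cn n (fun A => ∃ x, Rel θ A x) = 0 := by
        rw [cn_eq, card_eq_zero, filter_eq_empty_iff]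
        rintro A _ ⟨hA, x, hx⟩
        obtain ⟨h1, h2⟩ := hR x A hA hx
        have h3 := iso_le (tup b x) (tup_iso b x h1 h2)
        rw [Fintype.card_fin] at h3
        exact hn h3
      rw [h1, zero_mul]
      exact Nat.zero_le _
    · rw [zero_mul]; exact Nat.zero_le _
    · rw [zero_mul]; exact Nat.zero_le _

end

end Pool.Agent.MP2696.AA
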