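import Pool.Agent.Lib.MP_2696ff_co.AA.Bev

/-!
# MP_2696ff_co, almost all graphs: no bad prime of large degree
-/

set_option autoImplicit false
set_option linter.unusedSectionVars false

namespace Pool.Agent.MP2696.AA

open Matrix Finset Polynomial

/-- An eigenvector over `F_2[X] / (p)` with vanishing quadratic form. -/
def BadX {n : ℕ} (A : Matrix (Fin n) (Fin n) (ZMod 2)) (p : (ZMod 2)[X]) : Prop :=
  ∃ x : Fin n → AdjoinRoot p, x ≠ 0 ∧
    (∀ i, ∑ j, AdjoinRoot.of p (A i j) * x j = AdjoinRoot.root p * x i) ∧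
    ∑ i, ∑ j, (if i < j then (AdjoinRoot.of p (A i j) + AdjoinRoot.root p) * (x i * x j) else 0) = 0

/-- The monic polynomial with given coefficients. -/
noncomputable def pol (d : ℕ) (c : Fin d → ZMod 2) : (ZMod 2)[X] :=
  X ^ d + ∑ i : Fin d, C (c i) * X ^ (i : ℕ)

theorem pol_surj (p : (ZMod 2)[X]) (hp : p ≠ 0) : pol p.natDegree (fun i => p.coeff i) = p := by
  conv_rhs => rw [p.as_sum_range_C_mul_X_pow]
  rw [sum_range_succ, pol, add_comm, Finset.sum_range]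
  congr 1
  have h1 : p.coeff p.natDegree = 1 := eq_one_of_ne_zero _ (leadingCoeff_ne_zero.2 hp)
  rw [h1, C_1, one_mul]

/-- The polynomials of degree `d`. -/
noncomputable def pols (d : ℕ) : Finset (ZMod 2)[X] := univ.image (pol d)

theorem card_pols (d : ℕ) : (pols d).card ≤ 2 ^ d := by
  refine card_image_le.trans ?_
  rw [card_univ, Fintype.card_fun, ZMod.card, Fintype.card_fin]

theorem mem_pols (p : (ZMod 2)[X]) (hp : p ≠ 0) : p ∈ pols p.natDegree := by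
  rw [pols, mem_image]
  exact ⟨_, mem_univ _, pol_surj p hp⟩

theorem rel_le {F : Type*} [Field F] [Fintype F] [Algebra (ZMod 2) F] {n : ℕ} (θ : F)
    (hθ : Algebra.adjoin (ZMod 2) {θ} = ⊤) (h0 : θ ≠ 0) (A : Matrix (Fin n) (Fin n) (ZMod 2))
    (hA : IsAlt A) (x : Fin n → F) (hx : Rel θ A x) : 2 * Module.finrank (ZMod 2) F ≤ n := by
  have hdd : Module.finrank (ZMod 2) (Module.Dual (ZMod 2) F) = Module.finrank (ZMod 2) F :=
    Subspace.dual_finrank_eq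
  let b := Module.finBasisOfFinrankEq (ZMod 2) (Module.Dual (ZMod 2) F) hdd
  have h3 := iso_le (tup b x) (tup_iso b x (eig_span A x θ hθ hx.1 hx.2.1)
    (eig_iso A hA x θ hθ h0 hx.2.1))
  rw [Fintype.card_fin] at h3
  exact h3

theorem badX_iff {n : ℕ} (A : Matrix (Fin n) (Fin n) (ZMod 2)) (hA : IsAlt A) (p : (ZMod 2)[X])
    [Fact (Irreducible p)] (h : BadX A p) : ∃ x, Rel (AdjoinRoot.root p) A x := by
  obtain ⟨x, h0, h1, h2⟩ := h
  refine ⟨x, h0, fun i => ?_, ?_⟩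
  · rw [← h1 i]
    refine sum_congr rfl fun j _ => ?_
    rw [Algebra.smul_def, AdjoinRoot.algebraMap_eq]
  · rw [← h2, qf, sum_comm]
    refine sum_congr rfl fun i _ => sum_congr rfl fun j _ => ?_
    rw [AdjoinRoot.algebraMap_eq, hA.1 j i, mul_comm (x j)]

theorem root_ne_zero (p : (ZMod 2)[X]) [Fact (Irreducible p)] (hp : 2 ≤ p.natDegree) :
    AdjoinRoot.root p ≠ 0 := by
  intro h
  rw [AdjoinRoot.root, AdjoinRoot.mk_eq_zero] at h
  have := natDegree_le_of_dvd h X_ne_zero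
  rw [natDegree_X] at this
  omega

theorem finrank_adj (p : (ZMod 2)[X]) [Fact (Irreducible p)] :
    Module.finrank (ZMod 2) (AdjoinRoot p) = p.natDegree := by
  have hp : p ≠ 0 := (Fact.out : Irreducible p).ne_zero
  rw [(AdjoinRoot.powerBasis hp).finrank, AdjoinRoot.powerBasis_dim]

theorem finite_adj (p : (ZMod 2)[X]) [Fact (Irreducible p)] : Finite (AdjoinRoot p) := by
  have hp : p ≠ 0 := (Fact.out : Irreducible p).ne_zero
  have := (AdjoinRoot.powerBasis hp).finite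
  exact Module.finite_of_finite (ZMod 2)

/-- One polynomial. -/
theorem bev_pol (n d : ℕ) (p : (ZMod 2)[X]) (hd : 2 ≤ d) (hdn : 2 * d ≤ n) :
    (cn n (fun A => Irreducible p ∧ p.natDegree = d ∧ BadX A p) : ℝ) * 2 ^ d ≤
      (8 * (3 / 4) ^ d + 8 * n ^ 2 * (3 / 4) ^ n) * 2 ^ (n.choose 2) := by
  by_cases h : Irreducible p ∧ p.natDegree = d
  swap
  · have h1 : cn n (fun A => Irreducible p ∧ p.natDegree = d ∧ BadX A p) = 0 := by
      classical
      rw [cn_eq, card_eq_zero, filter_eq_empty_iff]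
      rintro A _ ⟨_, h1, h2, _⟩
      exact h ⟨h1, h2⟩
    rw [h1, Nat.cast_zero, zero_mul]
    positivity
  obtain ⟨hirr, hdeg⟩ := h
  have : Fact (Irreducible p) := ⟨hirr⟩
  have := finite_adj p
  let : Fintype (AdjoinRoot p) := Fintype.ofFinite _
  have hfr : Module.finrank (ZMod 2) (AdjoinRoot p) = d := (finrank_adj p).trans hdeg
  obtain ⟨S1, S2, h1, h2, h3⟩ := bev_field n (AdjoinRoot.root p) AdjoinRoot.adjoinRoot_eq_top
    (root_ne_zero p (by omega))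
  rw [hfr] at h1 h2 h3
  set N : ℝ := 2 ^ (n.choose 2) with hN
  have hNpos : 0 < N := by positivity
  have h4 : cn n (fun A => Irreducible p ∧ p.natDegree = d ∧ BadX A p) ≤
      cn n (fun A => ∃ x, Rel (AdjoinRoot.root p) A x) :=
    cn_mono fun A hA h => badX_iff A hA p h.2.2
  have h5 : cn n (fun A => Irreducible p ∧ p.natDegree = d ∧ BadX A p) * 2 ^ d ≤ 2 * (S1 + S2) := by
    have h6 : 2 ^ d ≤ 2 * (2 ^ d - 1) := by
      have : 2 ^ 1 ≤ 2 ^ d := Nat.pow_le_pow_right (by norm_num) (by omega)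
      omega
    calc _ ≤ cn n (fun A => ∃ x, Rel (AdjoinRoot.root p) A x) * (2 * (2 ^ d - 1)) :=
          Nat.mul_le_mul h4 h6
      _ = 2 * (cn n (fun A => ∃ x, Rel (AdjoinRoot.root p) A x) * (2 ^ d - 1)) := by ring
      _ ≤ _ := Nat.mul_le_mul_left _ h1
  have h5' : (cn n (fun A => Irreducible p ∧ p.natDegree = d ∧ BadX A p) : ℝ) * 2 ^ d ≤
      2 * (S1 + S2) := by exact_mod_cast h5
  have h2' : (S1 : ℝ) * 2 ^ (d / 2) ≤ 2 * N := by rw [hN]; exact_mod_cast h2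
  have h3' : (S2 : ℝ) * 2 ^ n ≤ n ^ 2 * 2 ^ (d + 2) * N := by rw [hN]; exact_mod_cast h3
  -- the powers
  have e1 : (4 / 3 : ℝ) ^ d ≤ 2 * 2 ^ (d / 2) := by
    have h7 : (4 / 3 : ℝ) ^ (2 * (d / 2)) ≤ 2 ^ (d / 2) := by
      rw [pow_mul]
      exact pow_le_pow_left₀ (by norm_num) (by norm_num) _
    rcases Nat.even_or_odd' d with ⟨k, hk | hk⟩
    · have h8 : d = 2 * (d / 2) := by omega
      conv_lhs => rw [h8]
      have : (0 : ℝ) ≤ 2 ^ (d / 2) := by positivity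
      linarith
    · have h8 : d = 2 * (d / 2) + 1 := by omega
      conv_lhs => rw [h8]
      rw [pow_succ]
      have : (0 : ℝ) ≤ 2 ^ (d / 2) := by positivity
      linarith
  have e2 : (3 / 4 : ℝ) ^ d * (4 / 3) ^ d = 1 := by
    rw [← mul_pow]; norm_num
  have e3 : (2 : ℝ) ^ d ≤ (3 / 2) ^ n := by
    have h7 : (2 : ℝ) ^ d ≤ (3 / 2) ^ (2 * d) := by
      rw [pow_mul]
      exact pow_le_pow_left₀ (by norm_num) (by norm_num) _
    exact h7.trans (pow_le_pow_right₀ (by norm_num) hdn)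
  have e4 : (3 / 4 : ℝ) ^ n * 2 ^ n = (3 / 2) ^ n := by
    rw [← mul_pow]; norm_num
  have hS1 : (S1 : ℝ) ≤ 4 * (3 / 4) ^ d * N := by
    have hpos : (0 : ℝ) < 2 ^ (d / 2) := by positivity
    rw [← mul_le_mul_iff_left₀ hpos]
    refine h2'.trans ?_
    have h8 : 1 ≤ 2 * (3 / 4 : ℝ) ^ d * 2 ^ (d / 2) := by
      rw [← e2]
      have : (3 / 4 : ℝ) ^ d * (4 / 3) ^ d ≤ (3 / 4) ^ d * (2 * 2 ^ (d / 2)) :=
        mul_le_mul_of_nonneg_left e1 (by positivity)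
      linarith
    calc 2 * N = 2 * N * 1 := by ring
      _ ≤ 2 * N * (2 * (3 / 4 : ℝ) ^ d * 2 ^ (d / 2)) := mul_le_mul_of_nonneg_left h8 (by positivity)
      _ = _ := by ring
  have hS2 : (S2 : ℝ) ≤ 4 * n ^ 2 * (3 / 4) ^ n * N := by
    have hpos : (0 : ℝ) < 2 ^ n := by positivity
    rw [← mul_le_mul_iff_left₀ hpos]
    refine h3'.trans ?_
    have h8 : (2 : ℝ) ^ (d + 2) ≤ 4 * ((3 / 4) ^ n * 2 ^ n) := by
      rw [e4, pow_add]
      linarith
    calc (n : ℝ) ^ 2 * 2 ^ (d + 2) * N ≤ (n : ℝ) ^ 2 * (4 * ((3 / 4) ^ n * 2 ^ n)) * N := by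
          gcongr
      _ = _ := by ring
  calc _ ≤ 2 * ((S1 : ℝ) + S2) := h5'
    _ ≤ 2 * (4 * (3 / 4) ^ d * N + 4 * n ^ 2 * (3 / 4) ^ n * N) := by linarith
    _ = _ := by ring

/-- All polynomials of degree `d`. -/
theorem bev_deg (n d : ℕ) (hd : 2 ≤ d) (hdn : 2 * d ≤ n) :
    (cn n (fun A => ∃ p ∈ pols d, Irreducible p ∧ p.natDegree = d ∧ BadX A p) : ℝ) ≤
      (8 * (3 / 4) ^ d + 8 * n ^ 2 * (3 / 4) ^ n) * 2 ^ (n.choose 2) := by
  have h1 := cn_exists (n := n) (pols d) (fun p A => Irreducible p ∧ p.natDegree = d ∧ BadX A p)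
  have h2 : (cn n (fun A => ∃ p ∈ pols d, Irreducible p ∧ p.natDegree = d ∧ BadX A p) : ℝ) ≤
      ∑ p ∈ pols d, (cn n (fun A => Irreducible p ∧ p.natDegree = d ∧ BadX A p) : ℝ) := by
    exact_mod_cast h1
  refine h2.trans ?_
  set W : ℝ := (8 * (3 / 4) ^ d + 8 * n ^ 2 * (3 / 4) ^ n) * 2 ^ (n.choose 2) with hW
  have hW0 : 0 ≤ W := by positivity
  have hpos : (0 : ℝ) < 2 ^ d := by positivity
  have h3 : ∀ p ∈ pols d, (cn n (fun A => Irreducible p ∧ p.natDegree = d ∧ BadX A p) : ℝ) ≤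
      W / 2 ^ d := by
    intro p _
    rw [le_div_iff₀ hpos]
    exact bev_pol n d p hd hdn
  refine (sum_le_card_nsmul _ _ _ h3).trans ?_
  rw [nsmul_eq_mul]
  have h4 : ((pols d).card : ℝ) ≤ 2 ^ d := by exact_mod_cast card_pols d
  calc ((pols d).card : ℝ) * (W / 2 ^ d) ≤ 2 ^ d * (W / 2 ^ d) :=
        mul_le_mul_of_nonneg_right h4 (by positivity)
    _ = W := by field_simp

/-- Event B. -/
theorem evB (ε : ℝ) (hε : 0 < ε) : ∃ K n₀ : ℕ, 2 ≤ K ∧ ∀ n ≥ n₀,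
    (cn n (fun A => ∃ p : (ZMod 2)[X], Irreducible p ∧ K ≤ p.natDegree ∧ BadX A p) : ℝ) ≤
      ε * 2 ^ (n.choose 2) := by
  classical
  have t1 : Filter.Tendsto (fun K : ℕ => 32 * (3 / 4 : ℝ) ^ K) Filter.atTop (nhds 0) := by
    have := (tendsto_pow_atTop_nhds_zero_of_lt_one (r := (3 / 4 : ℝ)) (by norm_num)
      (by norm_num)).const_mul 32
    rwa [mul_zero] at this
  have t2 : Filter.Tendsto (fun n : ℕ => 8 * ((n : ℝ) ^ 3 * (3 / 4 : ℝ) ^ n) +
      8 * ((n : ℝ) ^ 2 * (3 / 4 : ℝ) ^ n)) Filter.atTop (nhds 0) := by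
    have a1 := (tendsto_pow_const_mul_const_pow_of_abs_lt_one 3 (r := (3 / 4 : ℝ))
      (by rw [abs_of_pos (by norm_num)]; norm_num)).const_mul 8
    have a2 := (tendsto_pow_const_mul_const_pow_of_abs_lt_one 2 (r := (3 / 4 : ℝ))
      (by rw [abs_of_pos (by norm_num)]; norm_num)).const_mul 8
    have := a1.add a2
    rwa [mul_zero, add_zero] at this
  have hε2 : 0 < ε / 2 := by linarith
  obtain ⟨K0, hK0⟩ := Filter.eventually_atTop.1 (t1.eventually (gt_mem_nhds hε2))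
  obtain ⟨n0, hn0⟩ := Filter.eventually_atTop.1 (t2.eventually (gt_mem_nhds hε2))
  refine ⟨max K0 2, n0, le_max_right _ _, fun n hn => ?_⟩
  set K := max K0 2 with hK
  have hK2 : 2 ≤ K := le_max_right _ _
  have h1 : cn n (fun A => ∃ p : (ZMod 2)[X], Irreducible p ∧ K ≤ p.natDegree ∧ BadX A p) ≤
      cn n (fun A => ∃ d ∈ Ico K (n / 2 + 1), ∃ p ∈ pols d, Irreducible p ∧ p.natDegree = d ∧
        BadX A p) := by
    refine cn_mono ?_
    rintro A hA ⟨p, hirr, hKp, hbad⟩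
    have : Fact (Irreducible p) := ⟨hirr⟩
    have := finite_adj p
    let : Fintype (AdjoinRoot p) := Fintype.ofFinite _
    obtain ⟨x, hx⟩ := badX_iff A hA p hbad
    have h2 := rel_le (AdjoinRoot.root p) AdjoinRoot.adjoinRoot_eq_top
      (root_ne_zero p (by omega)) A hA x hx
    rw [finrank_adj] at h2
    refine ⟨p.natDegree, ?_, p, mem_pols p hirr.ne_zero, hirr, rfl, hbad⟩
    rw [mem_Ico]
    omega
  have h2 := cn_exists (n := n) (Ico K (n / 2 + 1)) (fun d A => ∃ p ∈ pols d, Irreducible p ∧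
    p.natDegree = d ∧ BadX A p)
  have h3 : (cn n (fun A => ∃ p : (ZMod 2)[X], Irreducible p ∧ K ≤ p.natDegree ∧ BadX A p) : ℝ) ≤
      ∑ d ∈ Ico K (n / 2 + 1), (cn n (fun A => ∃ p ∈ pols d, Irreducible p ∧
        p.natDegree = d ∧ BadX A p) : ℝ) := by
    exact_mod_cast h1.trans h2
  refine h3.trans ?_
  have h4 : ∀ d ∈ Ico K (n / 2 + 1), (cn n (fun A => ∃ p ∈ pols d, Irreducible p ∧
        p.natDegree = d ∧ BadX A p) : ℝ) ≤
      8 * 2 ^ (n.choose 2) * (3 / 4) ^ d + 8 * n ^ 2 * (3 / 4) ^ n * 2 ^ (n.choose 2) := by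
    intro d hd
    rw [mem_Ico] at hd
    refine (bev_deg n d (by omega) (by omega)).trans (le_of_eq ?_)
    ring
  refine (sum_le_sum h4).trans ?_
  rw [sum_add_distrib, ← mul_sum, sum_const, nsmul_eq_mul, Nat.card_Ico]
  have h5 : ∑ d ∈ Ico K (n / 2 + 1), (3 / 4 : ℝ) ^ d ≤ 4 * (3 / 4) ^ K := by
    refine (geom_sum_Ico_le_of_lt_one (by norm_num) (by norm_num)).trans (le_of_eq ?_)
    rw [div_eq_mul_inv]
    norm_num
    ring
  have h6 : ((n / 2 + 1 - K : ℕ) : ℝ) ≤ n + 1 := by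
    have : n / 2 + 1 - K ≤ n + 1 := by omega
    exact_mod_cast this
  set N : ℝ := 2 ^ (n.choose 2) with hN
  have hN0 : 0 < N := by positivity
  have h7 := hK0 K (le_max_left _ _)
  have h8 := hn0 n hn
  calc 8 * N * ∑ d ∈ Ico K (n / 2 + 1), (3 / 4 : ℝ) ^ d +
        ((n / 2 + 1 - K : ℕ) : ℝ) * (8 * n ^ 2 * (3 / 4) ^ n * N)
      ≤ 8 * N * (4 * (3 / 4) ^ K) + (n + 1) * (8 * n ^ 2 * (3 / 4) ^ n * N) := by
        gcongr
    _ = (32 * (3 / 4) ^ K + (8 * ((n : ℝ) ^ 3 * (3 / 4 : ℝ) ^ n) +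
      8 * ((n : ℝ) ^ 2 * (3 / 4 : ℝ) ^ n))) * N := by ring
    _ ≤ ε * N := by
        refine mul_le_mul_of_nonneg_right ?_ hN0.le
        linarith

end Pool.Agent.MP2696.AA
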