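import Pool.Agent.Lib.MP_2696ff_co.AA.Iso

/-!
# MP_2696ff_co, almost all graphs: a Boolean algebra inside a self-orthogonal code
-/

set_option autoImplicit false
set_option linter.unusedSectionVars false

namespace Pool.Agent.MP2696.AA

open Matrix Finset

section

variable {V : Type*} [Fintype V] [DecidableEq V]

/-- The orthogonal complement for the standard form. -/
def orth (C : Submodule (ZMod 2) (V → ZMod 2)) : Submodule (ZMod 2) (V → ZMod 2) where
  carrier := {h | ∀ c ∈ C, c ⬝ᵥ h = 0}
  add_mem' := fun {a b} ha hb c hc => by rw [dotProduct_add, ha c hc, hb c hc, add_zero]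
  zero_mem' := fun c _ => dotProduct_zero c
  smul_mem' := fun t a ha c hc => by rw [dotProduct_smul, ha c hc, smul_zero]

theorem mem_orth {C : Submodule (ZMod 2) (V → ZMod 2)} {h : V → ZMod 2} :
    h ∈ orth C ↔ ∀ c ∈ C, c ⬝ᵥ h = 0 := Iff.rfl

theorem finrank_orth_ge (C : Submodule (ZMod 2) (V → ZMod 2)) :
    Fintype.card V ≤ Module.finrank (ZMod 2) C + Module.finrank (ZMod 2) (orth C) := by
  let f : (V → ZMod 2) →ₗ[ZMod 2] Module.Dual (ZMod 2) C :=
    { toFun := fun h =>
        { toFun := fun c => c.1 ⬝ᵥ h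
          map_add' := fun x y => add_dotProduct _ _ _
          map_smul' := fun t x => smul_dotProduct _ _ _ }
      map_add' := fun x y => LinearMap.ext fun c => dotProduct_add _ _ _
      map_smul' := fun t x => LinearMap.ext fun c => dotProduct_smul _ _ _ }
  have h1 := f.finrank_range_add_finrank_ker
  have h2 : LinearMap.ker f = orth C := by
    ext h
    rw [LinearMap.mem_ker, mem_orth]
    constructor
    · intro h3 c hc
      exact LinearMap.congr_fun h3 ⟨c, hc⟩
    · intro h3
      exact LinearMap.ext fun c => h3 c.1 c.2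
  have h3 : Module.finrank (ZMod 2) (LinearMap.range f) ≤ Module.finrank (ZMod 2) C := by
    refine (Submodule.finrank_le _).trans ?_
    rw [Subspace.dual_finrank_eq]
  rw [h2, Module.finrank_fintype_fun_eq_card] at h1
  omega

theorem orth_orth (C : Submodule (ZMod 2) (V → ZMod 2)) : orth (orth C) = C := by
  symm
  apply Submodule.eq_of_le_of_finrank_le
  · intro c hc h hh
    rw [dotProduct_comm]
    exact hh c hc
  · have h1 := finrank_orth_ge C
    -- the dual statement
    have h2 : Module.finrank (ZMod 2) (orth (orth C)) + Module.finrank (ZMod 2) (orth C) ≤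
        Fintype.card V := by
      have h3 := card_orth_le (orth C)
      have h4 : Nat.card {u : V → ZMod 2 // ∀ x ∈ orth C, u ⬝ᵥ x = 0} =
          Nat.card (orth (orth C)) := by
        refine Nat.card_congr (Equiv.subtypeEquivRight fun u => ?_)
        rw [mem_orth]
        exact ⟨fun h x hx => by rw [dotProduct_comm]; exact h x hx,
          fun h x hx => by rw [dotProduct_comm]; exact h x hx⟩
      rw [h4, Module.natCard_eq_pow_finrank (K := ZMod 2) (V := orth (orth C)), Nat.card_zmod] at h3
      have h5 := (Nat.pow_le_pow_iff_right (by norm_num : 1 < 2)).1 h3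
      have h6 : Module.finrank (ZMod 2) (orth C) ≤ Fintype.card V := by
        have := Submodule.finrank_le (orth C)
        rwa [Module.finrank_fintype_fun_eq_card] at this
      omega
    omega

/-- The weight of a vector. -/
def wt (c : V → ZMod 2) : ℕ := (univ.filter fun i => c i ≠ 0).card

/-- The Boolean algebra. -/
theorem boo (C : Submodule (ZMod 2) (V → ZMod 2)) (hC : C ≤ orth C)
    (hw : ∀ c ∈ C, c ≠ 0 → 4 ≤ wt c) (D : Submodule (ZMod 2) (V → ZMod 2)) (hDC : D ≤ C)
    (hD : ∀ δ ∈ D, ∀ h ∈ orth C, ∀ h' ∈ orth C, (δ * h) ⬝ᵥ h' = 0)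
    (hD' : ∀ δ ∈ C, (∀ h ∈ orth C, ∀ h' ∈ orth C, (δ * h) ⬝ᵥ h' = 0) → δ ∈ D) :
    Nat.card D ^ 2 ≤ 2 ^ Module.finrank (ZMod 2) C := by
  classical
  -- multiplication maps the complement into the code
  have hmul : ∀ δ ∈ D, ∀ h ∈ orth C, δ * h ∈ C := by
    intro δ hδ h hh
    rw [← orth_orth C, mem_orth]
    intro h' hh'
    rw [dotProduct_comm]
    exact hD δ hδ h hh h' hh'
  have hprod : ∀ δ ∈ D, ∀ δ' ∈ D, δ * δ' ∈ D := by
    intro δ hδ δ' hδ'
    refine hD' _ (hmul δ hδ δ' (hC (hDC hδ'))) (fun h hh h' hh' => ?_)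
    rw [mul_assoc]
    exact hD δ hδ _ (hC (hmul δ' hδ' h hh)) h' hh'
  -- the support of `D`
  set I : Finset V := univ.filter fun i => ∃ δ ∈ D, δ i ≠ 0 with hI
  have hmemI : ∀ i, i ∈ I ↔ ∃ δ ∈ D, δ i ≠ 0 := fun i => by rw [hI, mem_filter]; simp
  -- a vector with full support
  obtain ⟨u, hu, huI⟩ : ∃ u ∈ D, ∀ i ∈ I, u i ≠ 0 := by
    have key : ∀ s : Finset V, s ⊆ I → ∃ u ∈ D, ∀ i ∈ s, u i ≠ 0 := by
      intro s
      induction s using Finset.induction with
      | empty => intro _; exact ⟨0, D.zero_mem, fun i hi => absurd hi (notMem_empty i)⟩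
      | insert a s ha ih =>
        intro hs
        obtain ⟨u, hu, hu'⟩ := ih ((subset_insert a s).trans hs)
        obtain ⟨δ, hδ, hδ'⟩ := (hmemI a).1 (hs (mem_insert_self a s))
        refine ⟨u + δ + u * δ, D.add_mem (D.add_mem hu hδ) (hprod u hu δ hδ), fun i hi => ?_⟩
        have hz : ∀ x y : ZMod 2, x ≠ 0 ∨ y ≠ 0 → x + y + x * y ≠ 0 := by decide
        rw [Pi.add_apply, Pi.add_apply, Pi.mul_apply]
        apply hz
        rcases mem_insert.1 hi with rfl | hi'
        · exact Or.inr hδ'
        · exact Or.inl (hu' i hi')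
    exact key I (Subset.refl I)
  have hu1 : ∀ i, u i = if i ∈ I then 1 else 0 := by
    intro i
    split_ifs with h
    · exact eq_one_of_ne_zero _ (huI i h)
    · by_contra h'
      exact h ((hmemI i).2 ⟨u, hu, h'⟩)
  set d := Module.finrank (ZMod 2) C with hd
  -- the size of the support
  have hsize : I.card ≤ 2 * d := by
    let f : orth C →ₗ[ZMod 2] C :=
      { toFun := fun h => ⟨u * h.1, hmul u hu h.1 h.2⟩
        map_add' := fun x y => Subtype.ext (mul_add u x.1 y.1)
        map_smul' := fun t x => Subtype.ext (mul_smul_comm t u x.1) }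
    have h1 := f.finrank_range_add_finrank_ker
    have h2 : Module.finrank (ZMod 2) (LinearMap.range f) ≤ d := Submodule.finrank_le _
    have h3 : Module.finrank (ZMod 2) (LinearMap.ker f) ≤ Fintype.card V - I.card := by
      let g : LinearMap.ker f →ₗ[ZMod 2] ({i // i ∉ I} → ZMod 2) :=
        { toFun := fun h i => h.1.1 i.1
          map_add' := fun x y => rfl
          map_smul' := fun t x => rfl }
      have hg : Function.Injective g := by
        intro x y hxy
        apply Subtype.ext
        apply Subtype.ext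
        funext i
        by_cases hi : i ∈ I
        · have e : ∀ z : LinearMap.ker f, z.1.1 i = 0 := by
            intro z
            have h4 : f z.1 = 0 := z.2
            have h5 := congrFun (congrArg Subtype.val h4) i
            change u i * z.1.1 i = 0 at h5
            rw [hu1 i, if_pos hi, one_mul] at h5
            exact h5
          rw [e x, e y]
        · exact congrFun hxy ⟨i, hi⟩
      have h4 := LinearMap.finrank_le_finrank_of_injective hg
      rw [Module.finrank_fintype_fun_eq_card] at h4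
      have h5 : Fintype.card {i // i ∉ I} = Fintype.card V - I.card := by
        rw [Fintype.card_subtype_compl, Fintype.card_coe]
      rw [h5] at h4
      exact h4
    have h4 := finrank_orth_ge C
    have h5 : I.card ≤ Fintype.card V := Finset.card_le_univ I
    omega
  -- the classes
  have hclass : ∀ i ∈ I, 4 ≤ (I.filter fun j => ∀ δ ∈ D, δ j = δ i).card := by
    intro i hi
    obtain ⟨κ, hκ, hmin⟩ := exists_min_image (univ.filter fun κ : V → ZMod 2 => κ ∈ D ∧ κ i ≠ 0)
      (fun κ => wt κ) (by
        obtain ⟨δ, hδ, hδ'⟩ := (hmemI i).1 hi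
        exact ⟨δ, by simp [hδ, hδ']⟩)
    rw [mem_filter] at hκ
    obtain ⟨-, hκD, hκi⟩ := hκ
    refine (hw κ (hDC hκD) (fun h => hκi (by rw [h]; rfl))).trans ?_
    refine card_le_card fun j hj => ?_
    rw [mem_filter] at hj ⊢
    refine ⟨(hmemI j).2 ⟨κ, hκD, hj.2⟩, fun δ hδ => ?_⟩
    by_contra hne
    -- a smaller vector
    have hκi1 := eq_one_of_ne_zero _ hκi
    have hκj1 := eq_one_of_ne_zero _ hj.2
    have hsm : ∃ κ' ∈ D, κ' i ≠ 0 ∧ κ' j = 0 ∧ ∀ l, κ' l ≠ 0 → κ l ≠ 0 := by
      by_cases hδi : δ i = 0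
      · refine ⟨κ + κ * δ, D.add_mem hκD (hprod κ hκD δ hδ), ?_, ?_, fun l hl h0 => hl ?_⟩
        · rw [Pi.add_apply, Pi.mul_apply, hκi1, hδi]; decide
        · have hδj : δ j = 1 := eq_one_of_ne_zero _ (fun h => hne (h.trans hδi.symm))
          rw [Pi.add_apply, Pi.mul_apply, hκj1, hδj]; decide
        · rw [Pi.add_apply, Pi.mul_apply, h0]; ring
      · have hδi1 := eq_one_of_ne_zero _ hδi
        refine ⟨κ * δ, hprod κ hκD δ hδ, ?_, ?_, fun l hl h0 => hl ?_⟩
        · rw [Pi.mul_apply, hκi1, hδi1]; decide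
        · have hδj : δ j = 0 := by
            by_contra h
            exact hne ((eq_one_of_ne_zero _ h).trans hδi1.symm)
          rw [Pi.mul_apply, hδj, mul_zero]
        · rw [Pi.mul_apply, h0, zero_mul]
    obtain ⟨κ', hκ'D, hκ'i, hκ'j, hsub⟩ := hsm
    have h6 := hmin κ' (by simp [hκ'D, hκ'i])
    have h7 : wt κ' < wt κ := by
      refine card_lt_card ?_
      rw [ssubset_iff_of_subset (fun l hl => by
        rw [mem_filter] at hl ⊢
        exact ⟨hl.1, hsub l hl.2⟩)]
      exact ⟨j, by rw [mem_filter]; exact hj, by rw [mem_filter]; exact fun h => h.2 hκ'j⟩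
    omega
  -- counting the classes
  let ev : V → (D → ZMod 2) := fun i δ => δ.1 i
  set R : Finset (D → ZMod 2) := I.image ev with hR
  have h4R : 4 * R.card ≤ I.card := by
    have h1 : ∀ r ∈ R, 4 ≤ (I.filter fun j => ev j = r).card := by
      intro r hr
      rw [hR, mem_image] at hr
      obtain ⟨i, hi, rfl⟩ := hr
      refine (hclass i hi).trans (card_le_card fun j hj => ?_)
      rw [mem_filter] at hj ⊢
      exact ⟨hj.1, funext fun δ => hj.2 δ.1 δ.2⟩
    have h2 : I.card = ∑ r ∈ R, (I.filter fun j => ev j = r).card :=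
      card_eq_sum_card_image ev I
    rw [h2]
    calc 4 * R.card = ∑ _r ∈ R, 4 := by rw [sum_const, smul_eq_mul, mul_comm]
      _ ≤ _ := sum_le_sum h1
  have hDR : Nat.card D ≤ 2 ^ R.card := by
    let f : D → (R → ZMod 2) := fun δ r => r.1 δ
    have hf : Function.Injective f := by
      intro δ δ' h
      apply Subtype.ext
      funext i
      by_cases hi : i ∈ I
      · exact congrFun h ⟨ev i, mem_image_of_mem ev hi⟩
      · have e : ∀ z : D, z.1 i = 0 := by
          intro z
          by_contra h'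
          exact hi ((hmemI i).2 ⟨z.1, z.2, h'⟩)
        rw [e δ, e δ']
    refine (Nat.card_le_card_of_injective f hf).trans ?_
    rw [Nat.card_eq_fintype_card, Fintype.card_fun, ZMod.card, Fintype.card_coe]
  calc Nat.card D ^ 2 ≤ (2 ^ R.card) ^ 2 := Nat.pow_le_pow_left hDR 2
    _ = 2 ^ (2 * R.card) := by rw [← pow_mul, mul_comm]
    _ ≤ 2 ^ d := Nat.pow_le_pow_right (by norm_num) (by omega)

end

end Pool.Agent.MP2696.AA
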