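import Pool.Agent.Lib.MP_2696ff_co.AA.Eig

/-!
# MP_2696ff_co, almost all graphs: counting alternating matrices with a property
-/

set_option autoImplicit false
set_option linter.unusedSectionVars false

namespace Pool.Agent.MP2696.AA

open Matrix Finset

/-- The number of alternating matrices with a property. -/
noncomputable def cn (n : ℕ) (P : Matrix (Fin n) (Fin n) (ZMod 2) → Prop) : ℕ :=
  Nat.card {A : Matrix (Fin n) (Fin n) (ZMod 2) // IsAlt A ∧ P A}

section

theorem cn_eq (n : ℕ) (P : Matrix (Fin n) (Fin n) (ZMod 2) → Prop)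
    [DecidablePred fun A : Matrix (Fin n) (Fin n) (ZMod 2) => IsAlt A ∧ P A] :
    cn n P = (univ.filter fun A : Matrix (Fin n) (Fin n) (ZMod 2) => IsAlt A ∧ P A).card := by
  rw [cn, Nat.card_eq_fintype_card, Fintype.card_subtype]

theorem cn_mono {n : ℕ} {P Q : Matrix (Fin n) (Fin n) (ZMod 2) → Prop}
    (h : ∀ A, IsAlt A → P A → Q A) : cn n P ≤ cn n Q := by
  classical
  rw [cn_eq, cn_eq]
  refine card_le_card fun A hA => ?_
  rw [mem_filter] at hA ⊢
  exact ⟨hA.1, hA.2.1, h A hA.2.1 hA.2.2⟩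

theorem cn_or {n : ℕ} (P Q : Matrix (Fin n) (Fin n) (ZMod 2) → Prop) :
    cn n (fun A => P A ∨ Q A) ≤ cn n P + cn n Q := by
  classical
  rw [cn_eq, cn_eq, cn_eq]
  refine le_trans (card_le_card fun A hA => ?_) (card_union_le _ _)
  rw [mem_union, mem_filter, mem_filter]
  rw [mem_filter] at hA
  rcases hA.2.2 with h | h
  · exact Or.inl ⟨hA.1, hA.2.1, h⟩
  · exact Or.inr ⟨hA.1, hA.2.1, h⟩

theorem cn_exists {n : ℕ} {ι : Type*} (s : Finset ι)
    (P : ι → Matrix (Fin n) (Fin n) (ZMod 2) → Prop) :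
    cn n (fun A => ∃ i ∈ s, P i A) ≤ ∑ i ∈ s, cn n (P i) := by
  classical
  rw [cn_eq]
  simp only [cn_eq]
  refine le_trans (card_le_card fun A hA => ?_) card_biUnion_le
  rw [mem_biUnion]
  rw [mem_filter] at hA
  obtain ⟨i, hi, h⟩ := hA.2.2
  exact ⟨i, hi, by rw [mem_filter]; exact ⟨hA.1, hA.2.1, h⟩⟩

theorem cn_total (n : ℕ) : cn n (fun _ => True) ≤ 2 ^ (n.choose 2) := by
  have h := card_ker_le (V := Fin n) (D := 0) (fun i => i.elim0) (linearIndependent_empty_type)
  rw [Fintype.card_fin, Nat.sub_zero] at h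
  refine le_trans (le_of_eq ?_) h
  refine Nat.card_congr (Equiv.subtypeEquivRight fun A => ?_)
  exact ⟨fun h => ⟨h.1, fun j => j.elim0⟩, fun h => ⟨h.1, trivial⟩⟩

theorem cn_le (n : ℕ) (P : Matrix (Fin n) (Fin n) (ZMod 2) → Prop) : cn n P ≤ 2 ^ (n.choose 2) :=
  (cn_mono fun _ _ _ => trivial).trans (cn_total n)

/-- Double counting. -/
theorem cn_mul_le {n : ℕ} {T : Type*} [Fintype T] (P : Matrix (Fin n) (Fin n) (ZMod 2) → Prop)
    (R : Matrix (Fin n) (Fin n) (ZMod 2) → T → Prop) (m : ℕ)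
    (h : ∀ A, IsAlt A → P A → m ≤ Nat.card {t : T // R A t}) :
    cn n P * m ≤ ∑ t, cn n (fun A => R A t) := by
  classical
  have h1 : ∀ t, cn n (fun A => R A t) =
      ∑ A : Matrix (Fin n) (Fin n) (ZMod 2), if IsAlt A ∧ R A t then 1 else 0 := by
    intro t
    rw [cn_eq, card_filter]
  simp only [h1]
  rw [sum_comm, cn_eq, ← smul_eq_mul, ← sum_const]
  refine le_trans (sum_le_sum (g := fun A => ∑ t, if IsAlt A ∧ R A t then 1 else 0)
    fun A hA => ?_) (sum_le_sum_of_subset (filter_subset _ _))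
  rw [mem_filter] at hA
  refine (h A hA.2.1 hA.2.2).trans ?_
  rw [Nat.card_eq_fintype_card, Fintype.card_subtype, card_filter]
  refine le_of_eq (sum_congr rfl fun t _ => ?_)
  by_cases ht : R A t
  · rw [if_pos ht, if_pos ⟨hA.2.1, ht⟩]
  · rw [if_neg ht, if_neg fun h => ht h.2]

theorem sum_cn_le {n : ℕ} {T : Type*} [Fintype T]
    (R : Matrix (Fin n) (Fin n) (ZMod 2) → T → Prop) (G : T → Prop) (m B : ℕ)
    (h0 : ∀ t A, IsAlt A → R A t → G t) (hB : ∀ t, G t → cn n (fun A => R A t) * m ≤ B) :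
    (∑ t, cn n (fun A => R A t)) * m ≤ Nat.card {t // G t} * B := by
  classical
  rw [sum_mul]
  have h1 : ∀ t, cn n (fun A => R A t) * m ≤ if G t then B else 0 := by
    intro t
    by_cases ht : G t
    · rw [if_pos ht]
      exact hB t ht
    · rw [if_neg ht]
      have h2 : cn n (fun A => R A t) = 0 := by
        rw [cn_eq, card_eq_zero, filter_eq_empty_iff]
        intro A _ hA
        exact ht (h0 t A hA.1 hA.2)
      rw [h2, zero_mul]
  refine (sum_le_sum fun t _ => h1 t).trans ?_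
  rw [← sum_filter, sum_const, smul_eq_mul, Nat.card_eq_fintype_card, Fintype.card_subtype]

theorem cn_sum_or {n : ℕ} {T : Type*} [Fintype T]
    (R R1 R2 : Matrix (Fin n) (Fin n) (ZMod 2) → T → Prop)
    (h : ∀ t A, IsAlt A → R A t → R1 A t ∨ R2 A t) :
    ∑ t, cn n (fun A => R A t) ≤ ∑ t, cn n (fun A => R1 A t) + ∑ t, cn n (fun A => R2 A t) := by
  rw [← sum_add_distrib]
  refine sum_le_sum fun t _ => ?_
  exact (cn_mono (h t)).trans (cn_or _ _)

end

end Pool.Agent.MP2696.AA
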