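import Pool.Agent.Lib.MP_2696ff_co.AA.Boo

/-!
# MP_2696ff_co, almost all graphs: the cost of the quadratic condition

For an eigenvector `x` over an extension field `F` the condition `qf A θ x = 0` halves (at least) the
exponent `d = [F : F_2]` in the number of alternating matrices `A` with `A x = θ x`.
-/

set_option autoImplicit false
set_option linter.unusedSectionVars false

namespace Pool.Agent.MP2696.AA

open Matrix Finset

section

variable {F : Type*} [Field F] [Fintype F] [Algebra (ZMod 2) F]

/-- The code of a vector over `F`. -/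
def codeMap {n : ℕ} (x : Fin n → F) : Module.Dual (ZMod 2) F →ₗ[ZMod 2] (Fin n → ZMod 2) where
  toFun := fun l i => l (x i)
  map_add' := fun _ _ => rfl
  map_smul' := fun _ _ => rfl

/-- The quadratic condition. -/
def qf {n : ℕ} (A : Matrix (Fin n) (Fin n) (ZMod 2)) (θ : F) (x : Fin n → F) : F :=
  ∑ i, ∑ j, if j < i then (algebraMap (ZMod 2) F (A i j) + θ) * (x i * x j) else 0

theorem mem_orth_code {n : ℕ} (x : Fin n → F) (h : Fin n → ZMod 2) :
    h ∈ orth (LinearMap.range (codeMap x)) ↔ ∑ i, h i • x i = 0 := by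
  rw [← Module.forall_dual_apply_eq_zero_iff (ZMod 2), mem_orth]
  have key : ∀ l : Module.Dual (ZMod 2) F, codeMap x l ⬝ᵥ h = l (∑ i, h i • x i) := by
    intro l
    rw [map_sum, dotProduct]
    refine sum_congr rfl fun i _ => ?_
    rw [map_smul, smul_eq_mul, mul_comm]
    rfl
  constructor
  · intro h1 l
    rw [← key]
    exact h1 _ ⟨l, rfl⟩
  · rintro h1 c ⟨l, rfl⟩
    rw [key]
    exact h1 l

theorem codeMap_injective {n : ℕ} (x : Fin n → F)
    (hx : Submodule.span (ZMod 2) (Set.range x) = ⊤) : Function.Injective (codeMap x) := by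
  intro l m h
  refine LinearMap.ext_on_range (v := x) hx fun i => ?_
  exact congrFun h i

/-- The kernel space. -/
def kerSpace {n : ℕ} (x : Fin n → F) : Submodule (ZMod 2) (Matrix (Fin n) (Fin n) (ZMod 2)) where
  carrier := {A | IsAlt A ∧ ∀ i, ∑ j, A i j • x j = 0}
  add_mem' := fun {A B} hA hB => ⟨hA.1.add hB.1, fun i => by
    simp only [Matrix.add_apply, add_smul, sum_add_distrib, hA.2 i, hB.2 i, add_zero]⟩
  zero_mem' := ⟨⟨fun _ _ => rfl, fun _ => rfl⟩, fun i => by simp⟩
  smul_mem' := fun t A hA => ⟨⟨fun i j => by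
    rw [Matrix.smul_apply, Matrix.smul_apply, hA.1.1 i j], fun i => by
    rw [Matrix.smul_apply, hA.1.2, smul_zero]⟩, fun i => by
    simp only [Matrix.smul_apply, smul_assoc, ← smul_sum, hA.2 i, smul_zero]⟩

/-- The linear part of the quadratic condition. -/
def lin {n : ℕ} (x : Fin n → F) : kerSpace x →ₗ[ZMod 2] F where
  toFun := fun A => ∑ i, ∑ j, if j < i then A.1 i j • (x i * x j) else 0
  map_add' := fun A B => by
    simp only [← sum_add_distrib]
    refine sum_congr rfl fun i _ => sum_congr rfl fun j _ => ?_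
    split_ifs
    · rw [← add_smul]; rfl
    · rw [add_zero]
  map_smul' := fun t A => by
    simp only [smul_sum, RingHom.id_apply]
    refine sum_congr rfl fun i _ => sum_congr rfl fun j _ => ?_
    split_ifs
    · rw [← smul_assoc]; rfl
    · rw [smul_zero]

theorem char_two_F : CharP F 2 := by
  have h := charP_of_injective_algebraMap (algebraMap (ZMod 2) F).injective 2
  exact h

theorem finrank_kerSpace_le {n : ℕ} (x : Fin n → F)
    (hx : Submodule.span (ZMod 2) (Set.range x) = ⊤) :
    Module.finrank (ZMod 2) (kerSpace x) ≤ (n - Module.finrank (ZMod 2) F).choose 2 := by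
  classical
  let b := Module.finBasisOfFinrankEq (ZMod 2) (Module.Dual (ZMod 2) F)
    (Subspace.dual_finrank_eq (K := ZMod 2) (V := F))
  have hind : LinearIndependent (ZMod 2) (fun a => codeMap x (b a)) := by
    have := b.linearIndependent.map' (codeMap x) (LinearMap.ker_eq_bot.2 (codeMap_injective x hx))
    exact this
  have h1 := card_ker_le (fun a => codeMap x (b a)) hind
  rw [Fintype.card_fin] at h1
  have h2 : Nat.card (kerSpace x) ≤ 2 ^ ((n - Module.finrank (ZMod 2) F).choose 2) := by
    refine le_trans (Nat.card_le_card_of_injective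
      (fun A : kerSpace x => (⟨A.1, A.2.1, fun a => ?_⟩ :
        {A : Matrix (Fin n) (Fin n) (ZMod 2) // IsAlt A ∧ ∀ a, A *ᵥ codeMap x (b a) = 0}))
      (fun A B h => by
        have h' := congrArg Subtype.val h
        exact Subtype.ext h')) h1
    funext i
    have h3 := congrArg (b a) (A.2.2 i)
    rw [map_sum, map_zero] at h3
    rw [Pi.zero_apply, ← h3, mulVec, dotProduct]
    refine sum_congr rfl fun j _ => ?_
    rw [map_smul]
    rfl
  rw [Module.natCard_eq_pow_finrank (K := ZMod 2) (V := kerSpace x), Nat.card_zmod] at h2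
  exact (Nat.pow_le_pow_iff_right (by norm_num : 1 < 2)).1 h2

theorem sq_mem_range {n : ℕ} (x : Fin n → F) (h h' : Fin n → ZMod 2)
    (hh : ∑ i, h i • x i = 0) (hh' : ∑ i, h' i • x i = 0) :
    (∑ i, (h i * h' i) • x i) ^ 2 ∈ LinearMap.range (lin x) := by
  have hch : CharP F 2 := char_two_F
  have hmem : (Matrix.of fun i j => h i * h' j + h' i * h j) ∈ kerSpace x := by
    refine ⟨⟨fun i j => ?_, fun i => ?_⟩, fun i => ?_⟩
    · rw [Matrix.of_apply, Matrix.of_apply]; ring
    · rw [Matrix.of_apply, mul_comm (h' i)]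
      exact CharTwo.add_self_eq_zero _
    · simp only [Matrix.of_apply, add_smul, sum_add_distrib, mul_smul, ← smul_sum, hh, hh',
        smul_zero, add_zero]
  refine ⟨⟨_, hmem⟩, ?_⟩
  change (∑ i, ∑ j, if j < i then (h i * h' j + h' i * h j) • (x i * x j) else 0) = _
  have e0 : ∀ c : ZMod 2, c * c = c := by decide
  -- the sum over all ordered pairs
  have e1 : ∑ i, ∑ j, (h i * h' j) • (x i * x j) = 0 := by
    have : (∑ i, h i • x i) * (∑ j, h' j • x j) = ∑ i, ∑ j, (h i * h' j) • (x i * x j) := by
      rw [sum_mul_sum]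
      refine sum_congr rfl fun i _ => sum_congr rfl fun j _ => ?_
      rw [smul_mul_smul_comm]
    rw [← this, hh, zero_mul]
  have e2 : ∑ i, ∑ j, (h i * h' j) • (x i * x j) =
      (∑ i, ∑ j, if j < i then (h i * h' j + h' i * h j) • (x i * x j) else 0) +
        ∑ i, (h i * h' i) • (x i * x i) := by
    have e3 : ∀ i j, (h i * h' j) • (x i * x j) =
        (if j < i then (h i * h' j) • (x i * x j) else 0) +
        (if i < j then (h i * h' j) • (x i * x j) else 0) +
        (if i = j then (h i * h' i) • (x i * x i) else 0) := by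
      intro i j
      rcases lt_trichotomy i j with hij | hij | hij
      · rw [if_neg hij.asymm, if_pos hij, if_neg hij.ne, zero_add, add_zero]
      · subst hij
        rw [if_neg (lt_irrefl i), if_pos rfl, zero_add, zero_add]
      · rw [if_pos hij, if_neg hij.asymm, if_neg hij.ne', add_zero, add_zero]
    rw [sum_congr rfl fun i _ => sum_congr rfl fun j _ => e3 i j]
    simp only [sum_add_distrib]
    congr 1
    · rw [sum_comm (f := fun i j => if i < j then (h i * h' j) • (x i * x j) else 0),
        ← sum_add_distrib]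
      refine sum_congr rfl fun i _ => ?_
      rw [← sum_add_distrib]
      refine sum_congr rfl fun j _ => ?_
      split_ifs
      · rw [add_smul, mul_comm (x j) (x i), mul_comm (h j) (h' i)]
      · rw [add_zero]
    · refine sum_congr rfl fun i _ => ?_
      rw [sum_ite_eq, if_pos (mem_univ i)]
  rw [e1] at e2
  have e4 : (∑ i, ∑ j, if j < i then (h i * h' j + h' i * h j) • (x i * x j) else 0) =
      ∑ i, (h i * h' i) • (x i * x i) := by
    have := CharTwo.add_eq_zero.1 e2.symm
    exact this
  rw [e4, sum_pow_char 2]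
  refine sum_congr rfl fun i _ => ?_
  rw [Algebra.smul_def, Algebra.smul_def, mul_pow, ← map_pow, pow_two, pow_two, e0]

/-- The cost of the quadratic condition. -/
theorem cost {n : ℕ} (x : Fin n → F) (θ : F) (hx : Submodule.span (ZMod 2) (Set.range x) = ⊤)
    (hiso : ∀ l : Module.Dual (ZMod 2) F, ∑ i, l (x i) • x i = 0)
    (hwt : ∀ l : Module.Dual (ZMod 2) F, l ≠ 0 → 4 ≤ wt (codeMap x l)) :
    Nat.card {A : Matrix (Fin n) (Fin n) (ZMod 2) // IsAlt A ∧
      (∀ i, ∑ j, A i j • x j = θ * x i) ∧ qf A θ x = 0} ^ 2 * 2 ^ Module.finrank (ZMod 2) F ≤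
      (2 ^ ((n - Module.finrank (ZMod 2) F).choose 2)) ^ 2 := by
  classical
  have hch : CharP F 2 := char_two_F
  set d := Module.finrank (ZMod 2) F with hd
  have hinj := codeMap_injective x hx
  set C := LinearMap.range (codeMap x) with hC
  have hfC : Module.finrank (ZMod 2) C = d := by
    rw [hC, LinearMap.finrank_range_of_inj hinj, Subspace.dual_finrank_eq]
  have hCo : C ≤ orth C := by
    rintro c ⟨l, rfl⟩
    rw [hC, mem_orth_code]
    exact hiso l
  -- the Boolean algebra
  let D : Submodule (ZMod 2) (Fin n → ZMod 2) :=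
    { carrier := {δ | δ ∈ C ∧ ∀ h ∈ orth C, ∀ h' ∈ orth C, (δ * h) ⬝ᵥ h' = 0}
      add_mem' := fun {a b} ha hb => ⟨C.add_mem ha.1 hb.1, fun h hh h' hh' => by
        rw [add_mul, add_dotProduct, ha.2 h hh h' hh', hb.2 h hh h' hh', add_zero]⟩
      zero_mem' := ⟨C.zero_mem, fun h _ h' _ => by rw [zero_mul, zero_dotProduct]⟩
      smul_mem' := fun t a ha => ⟨C.smul_mem t ha.1, fun h hh h' hh' => by
        rw [smul_mul_assoc, smul_dotProduct, ha.2 h hh h' hh', smul_zero]⟩ }
  have hboo := boo C hCo (by
    rintro c ⟨l, rfl⟩ hne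
    refine hwt l fun h => hne ?_
    rw [h, map_zero]) D (fun δ hδ => hδ.1) (fun δ hδ => hδ.2) (fun δ h1 h2 => ⟨h1, h2⟩)
  rw [hfC, Module.natCard_eq_pow_finrank (K := ZMod 2) (V := D), Nat.card_zmod, ← pow_mul] at hboo
  have hD2 : Module.finrank (ZMod 2) D * 2 ≤ d :=
    (Nat.pow_le_pow_iff_right (by norm_num : 1 < 2)).1 hboo
  -- the square roots of the range
  let V0 : Submodule (ZMod 2) F :=
    { carrier := {z | z ^ 2 ∈ LinearMap.range (lin x)}
      add_mem' := fun {a b} ha hb => by
        have h1 : (a + b) ^ 2 = a ^ 2 + b ^ 2 := CharTwo.add_sq a b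
        have h2 := Submodule.add_mem _ (show a ^ 2 ∈ LinearMap.range (lin x) from ha)
          (show b ^ 2 ∈ LinearMap.range (lin x) from hb)
        rw [← h1] at h2
        exact h2
      zero_mem' := by
        have h1 : (0 : F) ^ 2 = 0 := zero_pow two_ne_zero
        have h2 := Submodule.zero_mem (LinearMap.range (lin x))
        rw [← h1] at h2
        exact h2
      smul_mem' := fun t a ha => by
        have h1 : (t • a) ^ 2 = t ^ 2 • a ^ 2 := smul_pow t a 2
        have h2 := Submodule.smul_mem _ (t ^ 2) (show a ^ 2 ∈ LinearMap.range (lin x) from ha)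
        rw [← h1] at h2
        exact h2 }
  have hV0 : Module.finrank (ZMod 2) V0 ≤ Module.finrank (ZMod 2) (LinearMap.range (lin x)) := by
    let g : V0 →ₗ[ZMod 2] LinearMap.range (lin x) :=
      { toFun := fun z => ⟨z.1 ^ 2, z.2⟩
        map_add' := fun a b => Subtype.ext (CharTwo.add_sq a.1 b.1)
        map_smul' := fun t a => Subtype.ext (by
          change (t • a.1) ^ 2 = t • a.1 ^ 2
          rw [smul_pow]
          congr 1
          revert t
          decide) }
    refine LinearMap.finrank_le_finrank_of_injective (f := g) fun a b hab => ?_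
    have h1 : a.1 ^ 2 = b.1 ^ 2 := congrArg Subtype.val hab
    apply Subtype.ext
    exact frobenius_inj F 2 h1
  have hann := Subspace.finrank_add_finrank_dualAnnihilator_eq V0
  have hN : Module.finrank (ZMod 2) V0.dualAnnihilator ≤ Module.finrank (ZMod 2) D := by
    let g : V0.dualAnnihilator →ₗ[ZMod 2] D :=
      { toFun := fun l => ⟨codeMap x l.1, ⟨l.1, rfl⟩, fun h hh h' hh' => by
          rw [hC, mem_orth_code] at hh hh'
          have h1 := sq_mem_range x h h' hh hh'
          have h2 := (Submodule.mem_dualAnnihilator l.1).1 l.2 _ h1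
          rw [map_sum] at h2
          rw [← h2, dotProduct]
          refine sum_congr rfl fun i _ => ?_
          rw [map_smul, smul_eq_mul, Pi.mul_apply]
          change l.1 (x i) * h i * h' i = _
          ring⟩
        map_add' := fun a b => Subtype.ext (map_add (codeMap x) a.1 b.1)
        map_smul' := fun t a => Subtype.ext (map_smul (codeMap x) t a.1) }
    refine LinearMap.finrank_le_finrank_of_injective (f := g) fun a b hab => ?_
    exact Subtype.ext (hinj (congrArg Subtype.val hab))
  have hK := finrank_kerSpace_le x hx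
  have hrk := (lin x).finrank_range_add_finrank_ker
  rw [← hd] at hann hK
  -- the solutions
  have hsol : Nat.card {A : Matrix (Fin n) (Fin n) (ZMod 2) // IsAlt A ∧
      (∀ i, ∑ j, A i j • x j = θ * x i) ∧ qf A θ x = 0} ≤
      2 ^ Module.finrank (ZMod 2) (LinearMap.ker (lin x)) := by
    rcases isEmpty_or_nonempty {A : Matrix (Fin n) (Fin n) (ZMod 2) // IsAlt A ∧
      (∀ i, ∑ j, A i j • x j = θ * x i) ∧ qf A θ x = 0} with he | he
    · rw [Nat.card_of_isEmpty]
      exact Nat.zero_le _
    · obtain ⟨A0, hA0, hA1, hA2⟩ := he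
      have hcard : Nat.card (LinearMap.ker (lin x)) =
          2 ^ Module.finrank (ZMod 2) (LinearMap.ker (lin x)) := by
        rw [Module.natCard_eq_pow_finrank (K := ZMod 2) (V := LinearMap.ker (lin x)),
          Nat.card_zmod]
      rw [← hcard]
      have hmem : ∀ A : Matrix (Fin n) (Fin n) (ZMod 2), IsAlt A →
          (∀ i, ∑ j, A i j • x j = θ * x i) → A - A0 ∈ kerSpace x := by
        intro A hA h1
        refine ⟨hA.sub hA0, fun i => ?_⟩
        simp only [Matrix.sub_apply, sub_smul, sum_sub_distrib]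
        rw [h1, hA1, sub_self]
      refine Nat.card_le_card_of_injective
        (fun A : {A : Matrix (Fin n) (Fin n) (ZMod 2) // IsAlt A ∧
          (∀ i, ∑ j, A i j • x j = θ * x i) ∧ qf A θ x = 0} =>
          (⟨⟨A.1 - A0, hmem A.1 A.2.1 A.2.2.1⟩, ?_⟩ : LinearMap.ker (lin x))) ?_
      · rw [LinearMap.mem_ker]
        have h1 : qf A.1 θ x - qf A0 θ x = 0 := by rw [A.2.2.2, hA2, sub_zero]
        refine Eq.trans ?_ h1
        unfold qf
        rw [← sum_sub_distrib]
        change (∑ i, ∑ j, if j < i then (A.1 - A0) i j • (x i * x j) else 0) = _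
        refine sum_congr rfl fun i _ => ?_
        rw [← sum_sub_distrib]
        refine sum_congr rfl fun j _ => ?_
        split_ifs
        · rw [Matrix.sub_apply, Algebra.smul_def, map_sub]
          ring
        · rw [sub_zero]
      · rintro ⟨A, hA⟩ ⟨B, hB⟩ hAB
        apply Subtype.ext
        have h1 : A - A0 = B - A0 := congrArg (fun t => t.1.1) hAB
        exact sub_left_injective h1
  calc Nat.card {A : Matrix (Fin n) (Fin n) (ZMod 2) // IsAlt A ∧
      (∀ i, ∑ j, A i j • x j = θ * x i) ∧ qf A θ x = 0} ^ 2 * 2 ^ d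
      ≤ (2 ^ Module.finrank (ZMod 2) (LinearMap.ker (lin x))) ^ 2 * 2 ^ d :=
        Nat.mul_le_mul_right _ (Nat.pow_le_pow_left hsol 2)
    _ = 2 ^ (Module.finrank (ZMod 2) (LinearMap.ker (lin x)) * 2 + d) := by
        rw [← pow_mul, ← pow_add]
    _ ≤ 2 ^ ((n - d).choose 2 * 2) := Nat.pow_le_pow_right (by norm_num) (by omega)
    _ = (2 ^ ((n - d).choose 2)) ^ 2 := by rw [← pow_mul]

end

end Pool.Agent.MP2696.AA
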