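import Pool.Agent.Lib.MP_2696ff_co.AA.Smo
import Pool.Agent.Lib.MP_2696ff_co.AA.Bal

/-!
# MP_2696ff_co, almost all graphs: the main count
-/

set_option autoImplicit false
set_option linter.unusedSectionVars false

namespace Pool.Agent.MP2696.AA

open Matrix Finset Polynomial

section

variable {n : ℕ}

theorem exists_bal (A E : Matrix (Fin n) (Fin n) (ZMod 2)) (hE : IsAlt E) (hE0 : E ≠ 0) (D M : ℕ)
    (hrow : ∀ i, (mp A (E i)).natDegree ≤ D)
    (hM : Nat.card {w : Fin n → ZMod 2 // w ≠ 0 ∧ (mp A w).natDegree ≤ D} < M)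
    (hlow : ∀ w : Fin n → ZMod 2, w ≠ 0 → (mp A w).natDegree ≤ D → n < 4 * wt w)
    (hbal : ∀ i, (univ.filter fun j => E i j ≠ 0 ∧ A i j ≠ 0).card =
      (univ.filter fun j => E i j ≠ 0 ∧ A i j = 0).card) :
    ∃ S T : Finset (Fin n), Disjoint S T ∧ n ≤ 4 * M * S.card ∧ n < 4 * T.card ∧ Bal S T A := by
  classical
  obtain ⟨i0, hi0⟩ : ∃ i, E i ≠ 0 := by
    by_contra hcon
    push Not at hcon
    exact hE0 (funext hcon)
  set Z : Finset (Fin n) := univ.filter fun j => E j ≠ 0 with hZ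
  set W : Finset (Fin n → ZMod 2) := univ.filter fun w => w ≠ 0 ∧ (mp A w).natDegree ≤ D with hW
  have hWM : W.card < M := by
    rwa [Nat.card_eq_fintype_card, Fintype.card_subtype] at hM
  have hZn : n < 4 * Z.card := by
    refine (hlow (E i0) hi0 (hrow i0)).trans_le (Nat.mul_le_mul_left _ ?_)
    refine card_le_card fun j hj => ?_
    rw [mem_filter] at hj ⊢
    refine ⟨mem_univ _, fun h => hj.2 ?_⟩
    rw [hE.1, h]; rfl
  have hmaps : ∀ j ∈ Z, E j ∈ W := by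
    intro j hj
    rw [mem_filter] at hj ⊢
    exact ⟨mem_univ _, hj.2, hrow j⟩
  obtain ⟨r, hr, hrn⟩ : ∃ r ∈ W, n ≤ 4 * M * (Z.filter fun j => E j = r).card := by
    by_contra hcon
    push Not at hcon
    have h1 : Z.card = ∑ r ∈ W, (Z.filter fun j => E j = r).card := by
      convert card_eq_sum_card_fiberwise hmaps
    have h2 : 4 * M * Z.card ≤ W.card * n := by
      rw [h1, mul_sum]
      refine (sum_le_sum fun r hr => (hcon r hr).le).trans ?_
      rw [sum_const, smul_eq_mul]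
    have h3 : W.card * n ≤ M * n := Nat.mul_le_mul_right _ hWM.le
    have h4 : M * n < M * (4 * Z.card) := Nat.mul_lt_mul_of_pos_left hZn (by omega)
    have h5 : M * (4 * Z.card) = 4 * M * Z.card := by ring
    omega
  have hr' := (mem_filter.1 hr).2
  refine ⟨univ.filter fun j => E j = r, univ.filter fun j => r j ≠ 0, ?_, ?_, ?_, ?_⟩
  · rw [Finset.disjoint_left]
    intro j hj hj'
    rw [mem_filter] at hj hj'
    apply hj'.2
    rw [← hj.2]
    exact hE.2 j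
  · refine hrn.trans (Nat.mul_le_mul_left _ (card_le_card fun j hj => ?_))
    rw [mem_filter] at hj ⊢
    exact ⟨mem_univ _, hj.2⟩
  · exact hlow r hr'.1 hr'.2
  · intro i hi
    rw [mem_filter] at hi
    have h1 := hbal i
    rw [hi.2] at h1
    rw [filter_filter]
    have h2 := card_filter_add_card_filter_not (s := univ.filter fun j => r j ≠ 0)
      (fun j => A i j ≠ 0)
    rw [filter_filter, filter_filter] at h2
    have h3 : (univ.filter fun j => r j ≠ 0 ∧ ¬ A i j ≠ 0).card =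
        (univ.filter fun j => r j ≠ 0 ∧ A i j = 0).card := by
      congr 1
      refine filter_congr fun j _ => ?_
      rw [not_not]
    rw [h3] at h2
    omega

theorem act_row (A E : Matrix (Fin n) (Fin n) (ZMod 2)) (hA : IsAlt A) (D : (ZMod 2)[X])
    (h : E * aeval A D = 0) (i : Fin n) : act A D (E i) = 0 := by
  have h1 : ∀ v : Fin n → ZMod 2, act A D (E i) ⬝ᵥ v = 0 := by
    intro v
    rw [act_symm A hA, act, dotProduct_mulVec]
    have h2 : E i ᵥ* (aeval A D) = 0 := by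
      funext j
      exact congrFun (congrFun h i) j
    rw [h2, zero_dotProduct]
  funext j
  have h2 := h1 (Pi.single j 1)
  rwa [dotProduct_single, mul_one] at h2

theorem rc_split (A E : Matrix (Fin n) (Fin n) (ZMod 2)) (i : Fin n)
    (h : (univ.filter fun j => A i j ≠ 0).card = (univ.filter fun j => (A + E) i j ≠ 0).card) :
    (univ.filter fun j => E i j ≠ 0 ∧ A i j ≠ 0).card =
      (univ.filter fun j => E i j ≠ 0 ∧ A i j = 0).card := by
  classical
  have h1 := card_filter_add_card_filter_not (s := univ.filter fun j => A i j ≠ 0)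
    (fun j => E i j ≠ 0)
  have h2 := card_filter_add_card_filter_not (s := univ.filter fun j => (A + E) i j ≠ 0)
    (fun j => E i j ≠ 0)
  rw [filter_filter, filter_filter] at h1 h2
  have key : ∀ a e : ZMod 2, (e ≠ 0 → ((a + e ≠ 0) ↔ a = 0)) ∧ (e = 0 → ((a + e ≠ 0) ↔ a ≠ 0)) := by
    decide
  have e1 : (univ.filter fun j => A i j ≠ 0 ∧ E i j ≠ 0).card =
      (univ.filter fun j => E i j ≠ 0 ∧ A i j ≠ 0).card := by
    congr 1
    exact filter_congr fun j _ => and_comm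
  have e2 : (univ.filter fun j => (A + E) i j ≠ 0 ∧ E i j ≠ 0).card =
      (univ.filter fun j => E i j ≠ 0 ∧ A i j = 0).card := by
    congr 1
    refine filter_congr fun j _ => ?_
    rw [Matrix.add_apply]
    have := (key (A i j) (E i j)).1
    tauto
  have e3 : (univ.filter fun j => (A + E) i j ≠ 0 ∧ ¬ E i j ≠ 0).card =
      (univ.filter fun j => A i j ≠ 0 ∧ ¬ E i j ≠ 0).card := by
    congr 1
    refine filter_congr fun j _ => ?_
    rw [Matrix.add_apply]
    have := (key (A i j) (E i j)).2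
    tauto
  rw [e1] at h1
  rw [e2, e3] at h2
  omega

end

/-- The main count. -/
theorem count (ε : ℝ) (hε : 0 < ε) : ∃ n₀ : ℕ, ∀ n ≥ n₀,
    (cn n (fun A => ∃ (D : (ZMod 2)[X]) (E : Matrix (Fin n) (Fin n) (ZMod 2)), IsAlt E ∧ E ≠ 0 ∧
      (∀ p, Irreducible p → p ∣ D → 2 ≤ p.natDegree → BadX A p) ∧ E * aeval A D = 0 ∧
      ∀ i, (univ.filter fun j => A i j ≠ 0).card = (univ.filter fun j => (A + E) i j ≠ 0).card) :
      ℝ) ≤ ε * 2 ^ (n.choose 2) := by
  have hε5 : 0 < ε / 5 := by positivity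
  obtain ⟨K, n0, hK2, hB⟩ := evB (ε / 5) hε5
  obtain ⟨b, hb, hC1⟩ := evC1 K (ε / 5) hε5
  set D0 := (big K ^ (2 * b - 1)).natDegree with hD0
  obtain ⟨M, hM0, hC2⟩ := evC2 D0 (ε / 5) hε5
  obtain ⟨n1, hD1⟩ := evD1 D0 (ε / 5) hε5
  obtain ⟨n2, hD2⟩ := evD2 M (ε / 5) hε5
  refine ⟨max n0 (max n1 n2), fun n hn => ?_⟩
  have hn0 : n0 ≤ n := le_trans (le_max_left _ _) hn
  have hn1 : n1 ≤ n := le_trans (le_trans (le_max_left _ _) (le_max_right _ _)) hn
  have hn2 : n2 ≤ n := le_trans (le_trans (le_max_right _ _) (le_max_right _ _)) hn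
  let P1 : Matrix (Fin n) (Fin n) (ZMod 2) → Prop := fun A =>
    ∃ p : (ZMod 2)[X], Irreducible p ∧ K ≤ p.natDegree ∧ BadX A p
  let P2 : Matrix (Fin n) (Fin n) (ZMod 2) → Prop := fun A =>
    ∃ p : (ZMod 2)[X], Irreducible p ∧ p.natDegree < K ∧ ∃ w, Cy A p b w
  let P3 : Matrix (Fin n) (Fin n) (ZMod 2) → Prop := fun A =>
    M ≤ Nat.card {w : Fin n → ZMod 2 // w ≠ 0 ∧ (mp A w).natDegree ≤ D0}
  let P4 : Matrix (Fin n) (Fin n) (ZMod 2) → Prop := fun A =>
    ∃ w : Fin n → ZMod 2, w ≠ 0 ∧ 4 * wt w ≤ n ∧ (mp A w).natDegree ≤ D0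
  let P5 : Matrix (Fin n) (Fin n) (ZMod 2) → Prop := fun A =>
    ∃ S T : Finset (Fin n), Disjoint S T ∧ n ≤ 4 * M * S.card ∧ n < 4 * T.card ∧ Bal S T A
  have h1 : cn n (fun A => ∃ (D : (ZMod 2)[X]) (E : Matrix (Fin n) (Fin n) (ZMod 2)), IsAlt E ∧
      E ≠ 0 ∧ (∀ p, Irreducible p → p ∣ D → 2 ≤ p.natDegree → BadX A p) ∧ E * aeval A D = 0 ∧
      ∀ i, (univ.filter fun j => A i j ≠ 0).card = (univ.filter fun j => (A + E) i j ≠ 0).card) ≤
      cn n P1 + (cn n P2 + (cn n P3 + (cn n P4 + cn n P5))) := by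
    refine le_trans (cn_mono (Q := fun A => P1 A ∨ (P2 A ∨ (P3 A ∨ (P4 A ∨ P5 A)))) ?_) ?_
    · rintro A hA ⟨D, E, hE, hE0, hbad, hED, hdeg⟩
      by_contra hcon
      push Not at hcon
      obtain ⟨c1, c2, c3, c4, c5⟩ := hcon
      have hsm : ∀ p : (ZMod 2)[X], Irreducible p → p ∣ D → p.natDegree < K := by
        intro p hp hpD
        by_contra hK
        exact c1 ⟨p, hp, not_lt.1 hK, hbad p hp hpD (by omega)⟩
      have hcy : ∀ p : (ZMod 2)[X], Irreducible p → p.natDegree < K → ¬ ∃ w, Cy A p b w :=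
        fun p hp hK h => c2 ⟨p, hp, hK, h⟩
      refine c5 (exists_bal A E hE hE0 D0 M (fun i => ?_) (not_le.1 c3) (fun w hw hd => ?_)
        (fun i => rc_split A E i (hdeg i)))
      · exact smooth_deg A hA K b hb hcy D hsm (E i) (act_row A E hA D hED i)
      · by_contra hlow
        exact c4 ⟨w, hw, not_lt.1 hlow, hd⟩
    · refine (cn_or _ _).trans (Nat.add_le_add_left ((cn_or _ _).trans
        (Nat.add_le_add_left ((cn_or _ _).trans (Nat.add_le_add_left (cn_or _ _) _)) _)) _)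
  have h2 : (cn n (fun A => ∃ (D : (ZMod 2)[X]) (E : Matrix (Fin n) (Fin n) (ZMod 2)), IsAlt E ∧
      E ≠ 0 ∧ (∀ p, Irreducible p → p ∣ D → 2 ≤ p.natDegree → BadX A p) ∧ E * aeval A D = 0 ∧
      ∀ i, (univ.filter fun j => A i j ≠ 0).card = (univ.filter fun j => (A + E) i j ≠ 0).card) :
      ℝ) ≤ cn n P1 + (cn n P2 + (cn n P3 + (cn n P4 + cn n P5))) := by exact_mod_cast h1
  have g1 : (cn n P1 : ℝ) ≤ ε / 5 * 2 ^ (n.choose 2) := hB n hn0
  have g2 : (cn n P2 : ℝ) ≤ ε / 5 * 2 ^ (n.choose 2) := hC1 n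
  have g3 : (cn n P3 : ℝ) ≤ ε / 5 * 2 ^ (n.choose 2) := hC2 n
  have g4 : (cn n P4 : ℝ) ≤ ε / 5 * 2 ^ (n.choose 2) := hD1 n hn1
  have g5 : (cn n P5 : ℝ) ≤ ε / 5 * 2 ^ (n.choose 2) := hD2 n hn2
  refine h2.trans ?_
  have : ε * 2 ^ (n.choose 2) = ε / 5 * 2 ^ (n.choose 2) + (ε / 5 * 2 ^ (n.choose 2) +
      (ε / 5 * 2 ^ (n.choose 2) + (ε / 5 * 2 ^ (n.choose 2) + ε / 5 * 2 ^ (n.choose 2)))) := by
    ring
  rw [this]
  linarith

end Pool.Agent.MP2696.AA
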