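import Pool.Agent.Lib.MP_2696ff_co.AA.Exc

/-!
# MP_2696ff_co, almost all graphs: vectors whose minimal polynomial has small degree
-/

set_option autoImplicit false
set_option linter.unusedSectionVars false

namespace Pool.Agent.MP2696.AA

open Matrix Finset Polynomial

section

variable {n : ℕ}

theorem kry_nxt' (A : Matrix (Fin n) (Fin n) (ZMod 2)) (w : Fin n → ZMod 2) (g : (ZMod 2)[X])
    (D : ℕ) (hD : g.natDegree = D) (hg : g ≠ 0) (h : act A g w = 0) (j : Fin D) :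
    A *ᵥ kry A w D j = nxt g (kry A w D) j := by
  subst hD
  exact kry_nxt A w g hg h j

/-- The number of alternating matrices with a given degree of the minimal polynomial of `w`. -/
theorem deg_count (w : Fin n → ZMod 2) (k : ℕ) :
    cn n (fun A => (mp A w).natDegree = k + 1) * 2 ^ n ≤
      2 ^ (k + 1 + (k + 1) * (k + 1 + 1) / 2) * 2 ^ (n.choose 2) := by
  classical
  by_cases hk : k + 1 ≤ n
  swap
  · have h1 : cn n (fun A => (mp A w).natDegree = k + 1) = 0 := by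
      rw [cn_eq, card_eq_zero, filter_eq_empty_iff]
      rintro A _ ⟨_, h1⟩
      have h2 := (kry_ind A w (k + 1) h1.ge).fintype_card_le_finrank
      rw [Fintype.card_fin, Module.finrank_fintype_fun_eq_card, Fintype.card_fin] at h2
      exact hk h2
    rw [h1, zero_mul]
    exact Nat.zero_le _
  have h1 : cn n (fun A => (mp A w).natDegree = k + 1) ≤
      ∑ g ∈ pols (k + 1), ∑ u' : Fin k → Fin n → ZMod 2,
        cn n (fun A => LinearIndependent (ZMod 2) (Fin.cons w u' : Fin (k + 1) → Fin n → ZMod 2) ∧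
          ∀ j, A *ᵥ (Fin.cons w u' : Fin (k + 1) → Fin n → ZMod 2) j =
            nxt g (Fin.cons w u' : Fin (k + 1) → Fin n → ZMod 2) j) := by
    refine le_trans (cn_mono ?_) (le_trans (cn_exists (pols (k + 1)) (fun g A =>
      ∃ u' ∈ (univ : Finset (Fin k → Fin n → ZMod 2)),
        LinearIndependent (ZMod 2) (Fin.cons w u' : Fin (k + 1) → Fin n → ZMod 2) ∧
          ∀ j, A *ᵥ (Fin.cons w u' : Fin (k + 1) → Fin n → ZMod 2) j =
            nxt g (Fin.cons w u' : Fin (k + 1) → Fin n → ZMod 2) j))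
      (sum_le_sum fun g _ => cn_exists univ _))
    intro A hA h2
    refine ⟨mp A w, h2 ▸ mem_pols _ (mp_ne_zero A w), Fin.tail (kry A w (k + 1)), mem_univ _, ?_⟩
    have h3 : (Fin.cons w (Fin.tail (kry A w (k + 1))) : Fin (k + 1) → Fin n → ZMod 2) =
        kry A w (k + 1) := by
      have h4 := Fin.cons_self_tail (kry A w (k + 1))
      rw [show kry A w (k + 1) 0 = w from kry_zero A w (k + 1) (Nat.succ_pos k)] at h4
      exact h4
    rw [h3]
    exact ⟨kry_ind A w _ h2.ge, kry_nxt' A w _ _ h2 (mp_ne_zero A w) (act_mp A w)⟩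
  have h2 : ∀ g ∈ pols (k + 1), ∀ u' ∈ (univ : Finset (Fin k → Fin n → ZMod 2)),
      cn n (fun A => LinearIndependent (ZMod 2) (Fin.cons w u' : Fin (k + 1) → Fin n → ZMod 2) ∧
          ∀ j, A *ᵥ (Fin.cons w u' : Fin (k + 1) → Fin n → ZMod 2) j =
            nxt g (Fin.cons w u' : Fin (k + 1) → Fin n → ZMod 2) j) ≤
      2 ^ ((n - (k + 1)).choose 2) := by
    intro g _ u' _
    by_cases hind : LinearIndependent (ZMod 2) (Fin.cons w u' : Fin (k + 1) → Fin n → ZMod 2)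
    · have h3 := card_sol_le _ (nxt g (Fin.cons w u' : Fin (k + 1) → Fin n → ZMod 2)) hind
      rw [Fintype.card_fin] at h3
      exact le_trans (cn_mono (Q := fun A => ∀ j, A *ᵥ (Fin.cons w u' : Fin (k + 1) →
        Fin n → ZMod 2) j = nxt g (Fin.cons w u' : Fin (k + 1) → Fin n → ZMod 2) j)
        fun A _ h => h.2) h3
    · have h4 : cn n (fun A => LinearIndependent (ZMod 2)
          (Fin.cons w u' : Fin (k + 1) → Fin n → ZMod 2) ∧
          ∀ j, A *ᵥ (Fin.cons w u' : Fin (k + 1) → Fin n → ZMod 2) j =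
            nxt g (Fin.cons w u' : Fin (k + 1) → Fin n → ZMod 2) j) = 0 := by
        rw [cn_eq, card_eq_zero, filter_eq_empty_iff]
        rintro A _ ⟨_, h1, _⟩
        exact hind h1
      rw [h4]
      exact Nat.zero_le _
  have h3 : cn n (fun A => (mp A w).natDegree = k + 1) ≤
      2 ^ (k + 1) * ((2 ^ n) ^ k * 2 ^ ((n - (k + 1)).choose 2)) := by
    refine h1.trans ((sum_le_sum fun g hg => sum_le_card_nsmul _ _ _ (h2 g hg)).trans ?_)
    rw [sum_const, smul_eq_mul, card_univ, Fintype.card_fun, Fintype.card_fun, ZMod.card,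
      Fintype.card_fin, Fintype.card_fin, smul_eq_mul]
    exact Nat.mul_le_mul_right _ (card_pols _)
  refine (Nat.mul_le_mul_right _ h3).trans (le_of_eq ?_)
  have h4 := choose_two_split n (k + 1) hk
  rw [← pow_mul, ← pow_add, ← pow_add, ← pow_add, ← pow_add]
  congr 1
  have h5 : n * (k + 1) = n * k + n := by ring
  omega

/-- A constant. -/
def c1 (D : ℕ) : ℕ := ∑ k ∈ range D, 2 ^ (k + 1 + (k + 1) * (k + 1 + 1) / 2)

theorem deg_le_count (w : Fin n → ZMod 2) (hw : w ≠ 0) (D : ℕ) :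
    cn n (fun A => (mp A w).natDegree ≤ D) * 2 ^ n ≤ c1 D * 2 ^ (n.choose 2) := by
  have h1 : cn n (fun A => (mp A w).natDegree ≤ D) ≤
      ∑ k ∈ range D, cn n (fun A => (mp A w).natDegree = k + 1) := by
    refine le_trans (cn_mono ?_) (cn_exists (range D) (fun k A => (mp A w).natDegree = k + 1))
    intro A hA h
    have h2 := mp_pos A w hw
    exact ⟨(mp A w).natDegree - 1, mem_range.2 (by omega), by omega⟩
  refine (Nat.mul_le_mul_right _ h1).trans ?_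
  rw [sum_mul, c1, sum_mul]
  exact sum_le_sum fun k _ => deg_count w k

/-- Markov. -/
theorem evC2_aux (D M : ℕ) :
    cn n (fun A => M ≤ Nat.card {w : Fin n → ZMod 2 // w ≠ 0 ∧ (mp A w).natDegree ≤ D}) * M ≤
      c1 D * 2 ^ (n.choose 2) := by
  classical
  refine (cn_mul_le _ (fun A w => w ≠ 0 ∧ (mp A w).natDegree ≤ D) M fun A _ h => h).trans ?_
  have h1 := sum_cn_le (n := n) (fun A (w : Fin n → ZMod 2) => w ≠ 0 ∧ (mp A w).natDegree ≤ D)
    (fun w => w ≠ 0) (2 ^ n) (c1 D * 2 ^ (n.choose 2)) (fun w A _ h => h.1) (fun w hw =>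
      le_trans (Nat.mul_le_mul_right _ (cn_mono fun A _ h => h.2)) (deg_le_count w hw D))
  have h2 : Nat.card {w : Fin n → ZMod 2 // w ≠ 0} ≤ 2 ^ n := by
    have h3 : Nat.card (Fin n → ZMod 2) = 2 ^ n := by
      rw [Nat.card_eq_fintype_card, Fintype.card_fun, ZMod.card, Fintype.card_fin]
    rw [← h3]
    exact Nat.card_le_card_of_injective (fun w => w.1) Subtype.val_injective
  have h3 : 2 ^ n * (∑ w : Fin n → ZMod 2, cn n (fun A => w ≠ 0 ∧ (mp A w).natDegree ≤ D)) ≤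
      2 ^ n * (c1 D * 2 ^ (n.choose 2)) := by
    rw [mul_comm]
    exact h1.trans (Nat.mul_le_mul_right _ h2)
  exact Nat.le_of_mul_le_mul_left h3 (by positivity)

theorem evC2 (D : ℕ) (ε : ℝ) (hε : 0 < ε) : ∃ M : ℕ, 0 < M ∧ ∀ n : ℕ,
    (cn n (fun A => M ≤ Nat.card {w : Fin n → ZMod 2 // w ≠ 0 ∧ (mp A w).natDegree ≤ D}) : ℝ) ≤
      ε * 2 ^ (n.choose 2) := by
  obtain ⟨M, hM⟩ := exists_nat_gt ((c1 D : ℝ) / ε)
  have hM0 : (0 : ℝ) < M := lt_of_le_of_lt (by positivity) hM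
  refine ⟨M, by exact_mod_cast hM0, fun n => ?_⟩
  have h1 := evC2_aux (n := n) D M
  have h2 : (cn n (fun A => M ≤ Nat.card {w : Fin n → ZMod 2 // w ≠ 0 ∧
      (mp A w).natDegree ≤ D}) : ℝ) * M ≤ c1 D * 2 ^ (n.choose 2) := by exact_mod_cast h1
  rw [div_lt_iff₀ hε] at hM
  rw [← mul_le_mul_iff_left₀ hM0]
  refine h2.trans ?_
  have h3 : (0 : ℝ) ≤ 2 ^ (n.choose 2) := by positivity
  calc (c1 D : ℝ) * 2 ^ (n.choose 2) ≤ (M * ε) * 2 ^ (n.choose 2) :=
        mul_le_mul_of_nonneg_right hM.le h3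
    _ = _ := by ring

/-- The number of vectors of small weight. -/
theorem card_low (n : ℕ) :
    Nat.card {w : Fin n → ZMod 2 // 4 * wt w ≤ n} * 2 ^ (n - n / 4) ≤ 3 ^ n := by
  classical
  have h1 : (3 : ℕ) ^ n = ∑ w : Fin n → ZMod 2, ∏ i, (if w i = 0 then 2 else 1) := by
    have h2 := Finset.prod_univ_sum (fun _ : Fin n => (univ : Finset (ZMod 2)))
      (fun _ t => if t = 0 then 2 else 1)
    rw [Fintype.piFinset_univ] at h2
    rw [← h2, prod_const, card_univ, Fintype.card_fin]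
    congr 1
  have h2 : ∀ w : Fin n → ZMod 2, ∏ i, (if w i = 0 then 2 else 1) = 2 ^ (n - wt w) := by
    intro w
    rw [prod_ite, prod_const_one, mul_one, prod_const]
    congr 1
    have h3 : (univ.filter fun i => w i = 0).card + wt w = n := by
      have h4 := card_filter_add_card_filter_not (s := (univ : Finset (Fin n)))
        (fun i => w i = 0)
      rw [card_univ, Fintype.card_fin] at h4
      exact h4
    omega
  rw [h1, Nat.card_eq_fintype_card, Fintype.card_subtype, ← smul_eq_mul, ← sum_const]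
  refine le_trans (sum_le_sum (g := fun w => ∏ i, (if w i = 0 then 2 else 1)) fun w hw => ?_)
    (sum_le_sum_of_subset (filter_subset _ _))
  rw [mem_filter] at hw
  rw [h2]
  exact Nat.pow_le_pow_right (by norm_num) (by omega)

theorem card_low' (n : ℕ) :
    (Nat.card {w : Fin n → ZMod 2 // 4 * wt w ≤ n} : ℝ) ≤ (9 / 10) ^ n * 2 ^ n := by
  have h1 : (Nat.card {w : Fin n → ZMod 2 // 4 * wt w ≤ n} : ℝ) * 2 ^ (n - n / 4) ≤ 3 ^ n := by
    exact_mod_cast card_low n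
  have hpos : (0 : ℝ) < 2 ^ (n - n / 4) := by positivity
  rw [← mul_le_mul_iff_left₀ hpos]
  refine h1.trans ?_
  have h2 : (2 : ℝ) ^ (n / 4) ≤ (6 / 5) ^ n := by
    have h3 : (2 : ℝ) ^ (n / 4) ≤ (6 / 5) ^ (4 * (n / 4)) := by
      rw [pow_mul]
      exact pow_le_pow_left₀ (by norm_num) (by norm_num) _
    exact h3.trans (pow_le_pow_right₀ (by norm_num) (by omega))
  have h3 : (2 : ℝ) ^ (n - n / 4) * 2 ^ (n / 4) = 2 ^ n := by
    rw [← pow_add]
    congr 1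
    omega
  have h4 : (0 : ℝ) < 2 ^ (n / 4) := by positivity
  rw [← mul_le_mul_iff_left₀ h4]
  calc (3 : ℝ) ^ n * 2 ^ (n / 4) ≤ 3 ^ n * (6 / 5) ^ n := by gcongr
    _ = (9 / 10) ^ n * 2 ^ n * 2 ^ n := by
        rw [← mul_pow, ← mul_pow, ← mul_pow]
        norm_num
    _ = (9 / 10) ^ n * 2 ^ n * (2 ^ (n - n / 4) * 2 ^ (n / 4)) := by rw [h3]
    _ = _ := by ring

theorem evD1_aux (D : ℕ) :
    cn n (fun A => ∃ w : Fin n → ZMod 2, w ≠ 0 ∧ 4 * wt w ≤ n ∧ (mp A w).natDegree ≤ D) * 2 ^ n ≤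
      Nat.card {w : Fin n → ZMod 2 // 4 * wt w ≤ n} * (c1 D * 2 ^ (n.choose 2)) := by
  classical
  have h0 := cn_mul_le (n := n)
    (fun A => ∃ w : Fin n → ZMod 2, w ≠ 0 ∧ 4 * wt w ≤ n ∧ (mp A w).natDegree ≤ D)
    (fun A w => w ≠ 0 ∧ 4 * wt w ≤ n ∧ (mp A w).natDegree ≤ D) 1 (fun A _ h => by
      obtain ⟨w, hw⟩ := h
      have : Nonempty {w : Fin n → ZMod 2 // w ≠ 0 ∧ 4 * wt w ≤ n ∧ (mp A w).natDegree ≤ D} :=
        ⟨⟨w, hw⟩⟩
      exact Nat.card_pos)
  rw [mul_one] at h0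
  have h1 := sum_cn_le (n := n) (fun A (w : Fin n → ZMod 2) => w ≠ 0 ∧ 4 * wt w ≤ n ∧
    (mp A w).natDegree ≤ D)
    (fun w => w ≠ 0 ∧ 4 * wt w ≤ n) (2 ^ n) (c1 D * 2 ^ (n.choose 2)) (fun w A _ h => ⟨h.1, h.2.1⟩)
    (fun w hw =>
      le_trans (Nat.mul_le_mul_right _ (cn_mono fun A _ h => h.2.2)) (deg_le_count w hw.1 D))
  refine (Nat.mul_le_mul_right _ h0).trans (h1.trans (Nat.mul_le_mul_right _ ?_))
  exact Nat.card_le_card_of_injective
    (fun w : {w : Fin n → ZMod 2 // w ≠ 0 ∧ 4 * wt w ≤ n} =>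
      (⟨w.1, w.2.2⟩ : {w : Fin n → ZMod 2 // 4 * wt w ≤ n}))
    (by
      rintro ⟨w, hw⟩ ⟨w', hw'⟩ h
      have h2 : w = w' := congrArg Subtype.val h
      exact Subtype.ext h2)

end

theorem evD1 (D : ℕ) (ε : ℝ) (hε : 0 < ε) : ∃ n₀ : ℕ, ∀ n ≥ n₀,
    (cn n (fun A => ∃ w : Fin n → ZMod 2, w ≠ 0 ∧ 4 * wt w ≤ n ∧ (mp A w).natDegree ≤ D) : ℝ) ≤
      ε * 2 ^ (n.choose 2) := by
  have t1 : Filter.Tendsto (fun n : ℕ => (c1 D : ℝ) * (9 / 10 : ℝ) ^ n) Filter.atTop (nhds 0) := by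
    have := (tendsto_pow_atTop_nhds_zero_of_lt_one (r := (9 / 10 : ℝ)) (by norm_num)
      (by norm_num)).const_mul (c1 D : ℝ)
    rwa [mul_zero] at this
  obtain ⟨n0, hn0⟩ := Filter.eventually_atTop.1 (t1.eventually (gt_mem_nhds hε))
  refine ⟨n0, fun n hn => ?_⟩
  have h1 : (cn n (fun A => ∃ w : Fin n → ZMod 2, w ≠ 0 ∧ 4 * wt w ≤ n ∧
      (mp A w).natDegree ≤ D) : ℝ) * 2 ^ n ≤
      (Nat.card {w : Fin n → ZMod 2 // 4 * wt w ≤ n} : ℝ) * (c1 D * 2 ^ (n.choose 2)) := by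
    exact_mod_cast evD1_aux (n := n) D
  have hpos : (0 : ℝ) < 2 ^ n := by positivity
  rw [← mul_le_mul_iff_left₀ hpos]
  refine h1.trans ?_
  calc (Nat.card {w : Fin n → ZMod 2 // 4 * wt w ≤ n} : ℝ) * (c1 D * 2 ^ (n.choose 2))
      ≤ ((9 / 10) ^ n * 2 ^ n) * (c1 D * 2 ^ (n.choose 2)) :=
        mul_le_mul_of_nonneg_right (card_low' n) (by positivity)
    _ = ((c1 D : ℝ) * (9 / 10) ^ n) * (2 ^ (n.choose 2) * 2 ^ n) := by ring
    _ ≤ ε * (2 ^ (n.choose 2) * 2 ^ n) :=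
        mul_le_mul_of_nonneg_right (hn0 n hn).le (by positivity)
    _ = _ := by ring

end Pool.Agent.MP2696.AA
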