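import Pool.Agent.Lib.MP_2696ff_co.AA.Wtwo

/-!
# MP_2696ff_co, almost all graphs: eigenvectors over an extension field

An eigenvector `x` of an alternating matrix over `F_2`, for an eigenvalue `θ ≠ 0` which generates the
extension `F`, has coordinates spanning `F`, and its code is self-orthogonal.
-/

set_option autoImplicit false
set_option linter.unusedSectionVars false

namespace Pool.Agent.MP2696.AA

open Matrix Finset

section

variable {F : Type*} [Field F] [Fintype F] [Algebra (ZMod 2) F]

theorem eig_span {n : ℕ} (A : Matrix (Fin n) (Fin n) (ZMod 2)) (x : Fin n → F) (θ : F)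
    (hθ : Algebra.adjoin (ZMod 2) {θ} = ⊤) (hx : x ≠ 0)
    (hA : ∀ i, ∑ j, A i j • x j = θ * x i) : Submodule.span (ZMod 2) (Set.range x) = ⊤ := by
  set U := Submodule.span (ZMod 2) (Set.range x) with hU
  have hmem : ∀ i, x i ∈ U := fun i => Submodule.subset_span ⟨i, rfl⟩
  have h1 : ∀ u ∈ U, θ * u ∈ U := by
    intro u hu
    induction hu using Submodule.span_induction with
    | mem z hz =>
      obtain ⟨i, rfl⟩ := hz
      rw [← hA i]
      exact Submodule.sum_mem _ fun j _ => Submodule.smul_mem _ _ (hmem j)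
    | zero => rw [mul_zero]; exact Submodule.zero_mem _
    | add a b _ _ ha hb => rw [mul_add]; exact Submodule.add_mem _ ha hb
    | smul t a _ ha => rw [mul_smul_comm]; exact Submodule.smul_mem _ _ ha
  have h2 : ∀ f : F, ∀ u ∈ U, f * u ∈ U := by
    intro f
    have hf : f ∈ Algebra.adjoin (ZMod 2) {θ} := by rw [hθ]; trivial
    induction hf using Algebra.adjoin_induction with
    | mem z hz =>
      rw [Set.mem_singleton_iff] at hz
      rw [hz]
      exact h1
    | algebraMap r =>
      intro u hu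
      rw [← Algebra.smul_def]
      exact Submodule.smul_mem _ _ hu
    | add a b _ _ ha hb =>
      intro u hu
      rw [add_mul]
      exact Submodule.add_mem _ (ha u hu) (hb u hu)
    | mul a b _ _ ha hb =>
      intro u hu
      rw [mul_assoc]
      exact ha _ (hb u hu)
  obtain ⟨i, hi⟩ : ∃ i, x i ≠ 0 := by
    by_contra hcon
    push Not at hcon
    exact hx (funext hcon)
  rw [eq_top_iff]
  intro z _
  have h3 := h2 (z / x i) (x i) (hmem i)
  rwa [div_mul_cancel₀ _ hi] at h3

/-- Multiplication in the dual. -/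
def dm (l : Module.Dual (ZMod 2) F) (f : F) : Module.Dual (ZMod 2) F :=
  l ∘ₗ LinearMap.mulLeft (ZMod 2) f

theorem dm_apply (l : Module.Dual (ZMod 2) F) (f z : F) : dm l f z = l (f * z) := rfl

theorem eig_adj {n : ℕ} (A : Matrix (Fin n) (Fin n) (ZMod 2)) (hAs : IsAlt A) (x : Fin n → F) (θ : F)
    (hθ : Algebra.adjoin (ZMod 2) {θ} = ⊤)
    (hA : ∀ i, ∑ j, A i j • x j = θ * x i) (f : F) : ∀ l m : Module.Dual (ZMod 2) F,
    ∑ i, l (f * x i) * m (x i) = ∑ i, l (x i) * m (f * x i) := by
  have hf : f ∈ Algebra.adjoin (ZMod 2) {θ} := by rw [hθ]; trivial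
  induction hf using Algebra.adjoin_induction with
  | mem z hz =>
    rw [Set.mem_singleton_iff] at hz
    intro l m
    rw [hz]
    have e1 : ∀ l m : Module.Dual (ZMod 2) F, ∑ i, l (θ * x i) * m (x i) =
        ∑ i, ∑ j, A i j * (l (x j) * m (x i)) := by
      intro l m
      refine sum_congr rfl fun i _ => ?_
      rw [← hA i, map_sum, sum_mul]
      refine sum_congr rfl fun j _ => ?_
      rw [map_smul, smul_eq_mul, mul_assoc]
    rw [e1 l m]
    have e2 : ∑ i, l (x i) * m (θ * x i) = ∑ i, m (θ * x i) * l (x i) :=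
      sum_congr rfl fun i _ => mul_comm _ _
    rw [e2, e1 m l, sum_comm]
    refine sum_congr rfl fun i _ => sum_congr rfl fun j _ => ?_
    rw [hAs.1 j i, mul_comm (l (x i))]
  | algebraMap r =>
    intro l m
    refine sum_congr rfl fun i _ => ?_
    rw [← Algebra.smul_def, map_smul, map_smul, smul_eq_mul, smul_eq_mul]
    ring
  | add a b _ _ ha hb =>
    intro l m
    have e1 : ∑ i, l ((a + b) * x i) * m (x i) =
        ∑ i, l (a * x i) * m (x i) + ∑ i, l (b * x i) * m (x i) := by
      rw [← sum_add_distrib]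
      refine sum_congr rfl fun i _ => ?_
      rw [add_mul, map_add, add_mul]
    have e2 : ∑ i, l (x i) * m ((a + b) * x i) =
        ∑ i, l (x i) * m (a * x i) + ∑ i, l (x i) * m (b * x i) := by
      rw [← sum_add_distrib]
      refine sum_congr rfl fun i _ => ?_
      rw [add_mul, map_add, mul_add]
    rw [e1, e2, ha, hb]
  | mul a b _ _ ha hb =>
    intro l m
    have e1 : ∑ i, l ((a * b) * x i) * m (x i) = ∑ i, dm l a (b * x i) * m (x i) :=
      sum_congr rfl fun i _ => by rw [dm_apply, mul_assoc]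
    have e2 : ∑ i, dm l a (x i) * m (b * x i) = ∑ i, l (a * x i) * dm m b (x i) :=
      sum_congr rfl fun i _ => by rw [dm_apply, dm_apply]
    have e3 : ∑ i, l (x i) * dm m b (a * x i) = ∑ i, l (x i) * m ((a * b) * x i) :=
      sum_congr rfl fun i _ => by rw [dm_apply]; congr 2; ring
    rw [e1, hb (dm l a) m, e2, ha l (dm m b), e3]

theorem eig_iso {n : ℕ} (A : Matrix (Fin n) (Fin n) (ZMod 2)) (hAs : IsAlt A) (x : Fin n → F) (θ : F)
    (hθ : Algebra.adjoin (ZMod 2) {θ} = ⊤) (h0 : θ ≠ 0)
    (hA : ∀ i, ∑ j, A i j • x j = θ * x i) (l : Module.Dual (ZMod 2) F) :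
    ∑ i, l (x i) • x i = 0 := by
  -- the alternating property
  have h1 : ∀ m : Module.Dual (ZMod 2) F, ∑ i, m (θ * x i) * m (x i) = 0 := by
    intro m
    have h2 := hAs.bf_self (fun i => m (x i))
    rw [bf, dotProduct] at h2
    rw [← h2]
    refine sum_congr rfl fun i _ => ?_
    rw [← hA i, map_sum, mulVec, dotProduct, mul_comm]
    congr 1
    exact sum_congr rfl fun j _ => by rw [map_smul, smul_eq_mul]
  have h2 : ∀ z : F, ∑ i, l (z * x i) * l (x i) = 0 := by
    intro z
    have hchar : CharP F 2 := charP_of_injective_algebraMap (algebraMap (ZMod 2) F).injective 2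
    obtain ⟨f, hf⟩ : ∃ f : F, f ^ 2 = z / θ := by
      obtain ⟨f, hf⟩ := (frobeniusEquiv F 2).surjective (z / θ)
      exact ⟨f, hf⟩
    have hz : z = f * (f * θ) := by
      rw [← mul_assoc, ← sq, hf, div_mul_cancel₀ _ h0]
    have e1 : ∑ i, l (z * x i) * l (x i) = ∑ i, dm (dm l f) θ (f * x i) * l (x i) :=
      sum_congr rfl fun i _ => by rw [dm_apply, dm_apply, hz]; congr 2; ring
    rw [e1, eig_adj A hAs x θ hθ hA f (dm (dm l f) θ) l]
    exact h1 (dm l f)
  by_contra hne
  set y := ∑ i, l (x i) • x i with hy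
  have h3 : ∀ z : F, l (z * y) = 0 := by
    intro z
    rw [← h2 z, hy, mul_sum, map_sum]
    refine sum_congr rfl fun i _ => ?_
    rw [mul_smul_comm, map_smul, smul_eq_mul, mul_comm]
  have h4 : l = 0 := by
    ext z
    have := h3 (z / y)
    rw [div_mul_cancel₀ _ hne] at this
    exact this
  apply hne
  rw [hy]
  exact sum_eq_zero fun i _ => by rw [h4, LinearMap.zero_apply, zero_smul]

end

end Pool.Agent.MP2696.AA
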