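import Pool.Agent.Lib.MP_2696ff_co.AA.Kry

/-!
# MP_2696ff_co, almost all graphs: exponents of a prime
-/

set_option autoImplicit false
set_option linter.unusedSectionVars false

namespace Pool.Agent.MP2696.AA

open Matrix Finset Polynomial

section

variable {n : ℕ}

/-- A vector of exact order `p ^ b` with isotropic orbit. -/
def Cy (A : Matrix (Fin n) (Fin n) (ZMod 2)) (p : (ZMod 2)[X]) (b : ℕ) (w : Fin n → ZMod 2) : Prop :=
  act A (p ^ b) w = 0 ∧ act A (p ^ (b - 1)) w ≠ 0 ∧ ∀ g : (ZMod 2)[X], w ⬝ᵥ act A g w = 0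

theorem mp_of_pow (A : Matrix (Fin n) (Fin n) (ZMod 2)) (p : (ZMod 2)[X]) (hp : Irreducible p)
    (b : ℕ) (w : Fin n → ZMod 2) (h1 : act A (p ^ b) w = 0) (h2 : act A (p ^ (b - 1)) w ≠ 0) :
    Associated (mp A w) (p ^ b) := by
  obtain ⟨i, hi, ha⟩ := (dvd_prime_pow hp.prime b).1 ((mp_dvd A w _).2 h1)
  rcases Nat.lt_or_ge i b with h | h
  · exfalso
    apply h2
    rw [← mp_dvd]
    exact ha.dvd.trans (pow_dvd_pow p (by omega))
  · have : i = b := le_antisymm hi h
    rw [← this]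
    exact ha

theorem mp_deg_pow (A : Matrix (Fin n) (Fin n) (ZMod 2)) (p : (ZMod 2)[X]) (hp : Irreducible p)
    (b : ℕ) (w : Fin n → ZMod 2) (h1 : act A (p ^ b) w = 0) (h2 : act A (p ^ (b - 1)) w ≠ 0) :
    (mp A w).natDegree = (p ^ b).natDegree :=
  natDegree_eq_of_degree_eq (degree_eq_degree_of_associated (mp_of_pow A p hp b w h1 h2))

/-- The coefficients of a polynomial given by its coefficients. -/
theorem coeff_sumC (D : ℕ) (c : Fin D → ZMod 2) (i : Fin D) :
    (∑ j : Fin D, C (c j) * X ^ (j : ℕ)).coeff i = c i := by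
  rw [finsetSum_coeff, sum_eq_single i]
  · rw [coeff_C_mul, coeff_X_pow, if_pos rfl, mul_one]
  · intro j _ hj
    rw [coeff_C_mul, coeff_X_pow, if_neg fun h => hj (Fin.ext h.symm), mul_zero]
  · intro h
    exact absurd (mem_univ _) h

theorem cy_shift (A : Matrix (Fin n) (Fin n) (ZMod 2)) (hA : IsAlt A) (p : (ZMod 2)[X])
    (b : ℕ) (hb : 1 ≤ b) (w : Fin n → ZMod 2) (hw : Cy A p b w) (f : (ZMod 2)[X]) :
    Cy A p b (act A (1 + p * f) w) := by
  obtain ⟨h1, h2, h3⟩ := hw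
  refine ⟨?_, ?_, fun g => ?_⟩
  · rw [← act_mul, act_mul', h1, act_vec_zero]
  · have h4 : p ^ (b - 1) * (1 + p * f) = p ^ (b - 1) + f * p ^ b := by
      obtain ⟨c, rfl⟩ : ∃ c, b = c + 1 := ⟨b - 1, by omega⟩
      rw [Nat.add_sub_cancel]
      ring
    rw [← act_mul, h4, act_add, act_mul, h1, act_vec_zero, add_zero]
    exact h2
  · rw [act_symm A hA, ← act_mul, ← act_mul]
    exact h3 _

theorem cy_mult (A : Matrix (Fin n) (Fin n) (ZMod 2)) (hA : IsAlt A) (p : (ZMod 2)[X])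
    (hp : Irreducible p) (b : ℕ) (hb : 1 ≤ b) (h : ∃ w, Cy A p b w) :
    2 ^ ((b - 1) * p.natDegree) ≤ Nat.card {u : Fin (p ^ b).natDegree → Fin n → ZMod 2 //
      Iso u ∧ ∀ j, A *ᵥ u j = nxt (p ^ b) u j} := by
  obtain ⟨w, hw⟩ := h
  have hpd : 0 < p.natDegree := hp.natDegree_pos
  have hD : (p ^ b).natDegree = b * p.natDegree := natDegree_pow p b
  have hD0 : 0 < (p ^ b).natDegree := by rw [hD]; positivity
  have hpb : p ^ b ≠ 0 := pow_ne_zero _ hp.ne_zero
  set m := (b - 1) * p.natDegree with hm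
  have h1 : Nat.card (Fin m → ZMod 2) = 2 ^ m := by
    rw [Nat.card_eq_fintype_card, Fintype.card_fun, ZMod.card, Fintype.card_fin]
  rw [← h1]
  let f : (Fin m → ZMod 2) → (ZMod 2)[X] := fun c => ∑ j : Fin m, C (c j) * X ^ (j : ℕ)
  let wc : (Fin m → ZMod 2) → Fin n → ZMod 2 := fun c => act A (1 + p * f c) w
  have hcy : ∀ c, Cy A p b (wc c) := fun c => cy_shift A hA p b hb w hw (f c)
  refine Nat.card_le_card_of_injective (fun c : Fin m → ZMod 2 =>
    (⟨kry A (wc c) (p ^ b).natDegree, ?_, ?_⟩ : {u : Fin (p ^ b).natDegree → Fin n → ZMod 2 //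
      Iso u ∧ ∀ j, A *ᵥ u j = nxt (p ^ b) u j})) ?_
  · exact kry_iso A hA _ _ (mp_deg_pow A p hp b _ (hcy c).1 (hcy c).2.1).ge (hcy c).2.2
  · exact fun j => kry_nxt A (wc c) (p ^ b) hpb (hcy c).1 j
  · intro c c' hcc
    have h2 : kry A (wc c) (p ^ b).natDegree = kry A (wc c') (p ^ b).natDegree :=
      congrArg Subtype.val hcc
    have h3 : wc c = wc c' := by
      have := congrFun h2 ⟨0, hD0⟩
      rwa [kry_zero, kry_zero] at this
    have h4 : act A (p * (f c + f c')) w = 0 := by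
      have h5 : p * (f c + f c') = (1 + p * f c) + (1 + p * f c') := by
        rw [mul_add, add_add_add_comm, CharTwo.add_self_eq_zero, zero_add]
      rw [h5, act_add]
      change wc c + wc c' = 0
      rw [h3]
      funext i
      exact CharTwo.add_self_eq_zero _
    rw [← mp_dvd] at h4
    have h5 : p * (f c + f c') = 0 := by
      refine eq_zero_of_dvd_of_natDegree_lt h4 ?_
      rw [mp_deg_pow A p hp b w hw.1 hw.2.1, hD]
      rcases eq_or_ne (f c + f c') 0 with h6 | h6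
      · rw [h6, mul_zero, natDegree_zero]
        positivity
      · rw [natDegree_mul hp.ne_zero h6]
        have h7 : f c + f c' = ∑ j : Fin m, C ((c + c') j) * X ^ (j : ℕ) := by
          change (∑ j : Fin m, _) + (∑ j : Fin m, _) = _
          rw [← sum_add_distrib]
          refine sum_congr rfl fun j _ => ?_
          rw [Pi.add_apply, C_add, add_mul]
        have h8 : (f c + f c').degree < m := by
          rw [h7]
          exact degree_sum_fin_lt _
        rw [degree_eq_natDegree h6] at h8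
        have h9 : (f c + f c').natDegree < m := by exact_mod_cast h8
        have h10 : p.natDegree + m = b * p.natDegree := by
          rw [hm]
          obtain ⟨e, rfl⟩ : ∃ e, b = e + 1 := ⟨b - 1, by omega⟩
          rw [Nat.add_sub_cancel]
          ring
        omega
    have h6 : f c + f c' = 0 := (mul_eq_zero.1 h5).resolve_left hp.ne_zero
    have h7 : f c = f c' := CharTwo.add_eq_zero.1 h6
    funext i
    have h8 := congrArg (fun q => coeff q i) h7
    change (f c).coeff i = (f c').coeff i at h8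
    rwa [coeff_sumC, coeff_sumC] at h8

/-- Isotropic tuples times solutions. -/
theorem iso_total (n D : ℕ) :
    Nat.card {u : Fin D → Fin n → ZMod 2 // Iso u} * 2 ^ ((n - D).choose 2) ≤
      2 * 2 ^ (n.choose 2) := by
  by_cases h : 2 * D ≤ n
  · have h1 := card_iso_le (V := Fin n) D (by rw [Fintype.card_fin]; exact h)
    rw [Fintype.card_fin] at h1
    refine (Nat.mul_le_mul_right _ h1).trans ?_
    rw [mul_assoc, ← pow_add, ex_add n D (by omega)]
  · have h1 : IsEmpty {u : Fin D → Fin n → ZMod 2 // Iso u} := by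
      refine ⟨fun u => ?_⟩
      have := iso_le u.1 u.2
      rw [Fintype.card_fin] at this
      exact h this
    rw [Nat.card_of_isEmpty, zero_mul]
    exact Nat.zero_le _

/-- Few matrices have a vector of exact order `p ^ b` with isotropic orbit. -/
theorem cy_count (p : (ZMod 2)[X]) (hp : Irreducible p) (b : ℕ) (hb : 1 ≤ b) :
    cn n (fun A => ∃ w, Cy A p b w) * 2 ^ ((b - 1) * p.natDegree) ≤ 2 * 2 ^ (n.choose 2) := by
  classical
  set D := (p ^ b).natDegree with hD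
  refine (cn_mul_le _ (fun (A : Matrix (Fin n) (Fin n) (ZMod 2)) (u : Fin D → Fin n → ZMod 2) =>
    Iso u ∧ ∀ j, A *ᵥ u j = nxt (p ^ b) u j) _ fun A hA h => cy_mult A hA p hp b hb h).trans ?_
  have h1 := sum_cn_le (fun (A : Matrix (Fin n) (Fin n) (ZMod 2)) (u : Fin D → Fin n → ZMod 2) =>
    Iso u ∧ ∀ j, A *ᵥ u j = nxt (p ^ b) u j) (fun u => Iso u) 1 (2 ^ ((n - D).choose 2))
    (fun u A _ h => h.1) (fun u hu => by
      rw [mul_one]
      have h3 := card_sol_le u (nxt (p ^ b) u) hu.1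
      rw [Fintype.card_fin] at h3
      exact le_trans (cn_mono (Q := fun A => ∀ j, A *ᵥ u j = nxt (p ^ b) u j)
        fun A _ h => h.2) h3)
  rw [mul_one] at h1
  exact h1.trans (iso_total n D)

/-- From a large exponent to an isotropic orbit. -/
theorem cy_of (A : Matrix (Fin n) (Fin n) (ZMod 2)) (hA : IsAlt A) (p : (ZMod 2)[X]) (b : ℕ)
    (hb : 1 ≤ b) (v : Fin n → ZMod 2) (h1 : act A (p ^ (2 * b)) v = 0)
    (h2 : act A (p ^ (2 * b - 1)) v ≠ 0) : Cy A p b (act A (p ^ b) v) := by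
  refine ⟨?_, ?_, fun g => ?_⟩
  · rw [← act_mul, ← pow_add, ← two_mul, h1]
  · rw [← act_mul, ← pow_add, show b - 1 + b = 2 * b - 1 by omega]
    exact h2
  · rw [act_symm A hA, ← act_mul, ← act_mul,
      show p ^ b * g * p ^ b = g * p ^ (2 * b) by ring, act_mul, h1, act_vec_zero,
      dotProduct_zero]

/-- No large exponents for the primes of small degree. -/
theorem evC1 (K : ℕ) (ε : ℝ) (hε : 0 < ε) : ∃ b : ℕ, 1 ≤ b ∧ ∀ n : ℕ,
    (cn n (fun A => ∃ p : (ZMod 2)[X], Irreducible p ∧ p.natDegree < K ∧ ∃ w, Cy A p b w) : ℝ) ≤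
      ε * 2 ^ (n.choose 2) := by
  classical
  obtain ⟨b0, hb0⟩ := exists_pow_lt_of_lt_one (show (0 : ℝ) < ε / (K * 2 ^ K * 2 + 1) by positivity)
    (show (1 / 2 : ℝ) < 1 by norm_num)
  refine ⟨b0 + 1, by omega, fun n => ?_⟩
  have h1 : cn n (fun A => ∃ p : (ZMod 2)[X], Irreducible p ∧ p.natDegree < K ∧
      ∃ w, Cy A p (b0 + 1) w) ≤
      ∑ d ∈ range K, ∑ p ∈ pols d, cn n (fun A => Irreducible p ∧ ∃ w, Cy A p (b0 + 1) w) := by
    refine le_trans (cn_mono ?_) (le_trans (cn_exists (range K) (fun d A => ∃ p ∈ pols d,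
      Irreducible p ∧ ∃ w, Cy A p (b0 + 1) w)) (sum_le_sum fun d _ => cn_exists (pols d) _))
    rintro A hA ⟨p, hirr, hKp, hw⟩
    exact ⟨p.natDegree, mem_range.2 hKp, p, mem_pols p hirr.ne_zero, hirr, hw⟩
  have h2 : ∀ d ∈ range K, ∀ p ∈ pols d,
      (cn n (fun A => Irreducible p ∧ ∃ w, Cy A p (b0 + 1) w) : ℝ) ≤
      2 * (1 / 2) ^ b0 * 2 ^ (n.choose 2) := by
    intro d _ p _
    by_cases hp : Irreducible p
    · have h3 := cy_count (n := n) p hp (b0 + 1) (by omega)
      rw [Nat.add_sub_cancel] at h3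
      have h4 : cn n (fun A => Irreducible p ∧ ∃ w, Cy A p (b0 + 1) w) * 2 ^ b0 ≤
          2 * 2 ^ (n.choose 2) := by
        refine le_trans (Nat.mul_le_mul (cn_mono fun A _ h => h.2)
          (Nat.pow_le_pow_right (by norm_num) ?_)) h3
        exact Nat.le_mul_of_pos_right _ hp.natDegree_pos
      have h4' : (cn n (fun A => Irreducible p ∧ ∃ w, Cy A p (b0 + 1) w) : ℝ) * 2 ^ b0 ≤
          2 * 2 ^ (n.choose 2) := by exact_mod_cast h4
      have hpos : (0 : ℝ) < 2 ^ b0 := by positivity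
      rw [← mul_le_mul_iff_left₀ hpos]
      refine h4'.trans (le_of_eq ?_)
      have : (1 / 2 : ℝ) ^ b0 * 2 ^ b0 = 1 := by rw [← mul_pow]; norm_num
      calc (2 : ℝ) * 2 ^ (n.choose 2) = 2 * 2 ^ (n.choose 2) * 1 := by ring
        _ = 2 * 2 ^ (n.choose 2) * ((1 / 2 : ℝ) ^ b0 * 2 ^ b0) := by rw [this]
        _ = _ := by ring
    · have h1 : cn n (fun A => Irreducible p ∧ ∃ w, Cy A p (b0 + 1) w) = 0 := by
        rw [cn_eq, card_eq_zero, filter_eq_empty_iff]
        rintro A _ ⟨_, h1, _⟩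
        exact hp h1
      rw [h1, Nat.cast_zero]
      positivity
  have h3 : (cn n (fun A => ∃ p : (ZMod 2)[X], Irreducible p ∧ p.natDegree < K ∧
      ∃ w, Cy A p (b0 + 1) w) : ℝ) ≤
      ∑ d ∈ range K, ∑ p ∈ pols d,
        (cn n (fun A => Irreducible p ∧ ∃ w, Cy A p (b0 + 1) w) : ℝ) := by
    exact_mod_cast h1
  refine h3.trans ?_
  set N : ℝ := 2 ^ (n.choose 2) with hN
  have hN0 : 0 < N := by positivity
  have h4 : ∀ d ∈ range K, ∑ p ∈ pols d,
      (cn n (fun A => Irreducible p ∧ ∃ w, Cy A p (b0 + 1) w) : ℝ) ≤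
      2 ^ K * (2 * (1 / 2) ^ b0 * N) := by
    intro d hd
    refine (sum_le_card_nsmul _ _ _ (h2 d hd)).trans ?_
    rw [nsmul_eq_mul]
    refine mul_le_mul_of_nonneg_right ?_ (by positivity)
    have h5 : (pols d).card ≤ 2 ^ K :=
      (card_pols d).trans (Nat.pow_le_pow_right (by norm_num) (mem_range.1 hd).le)
    exact_mod_cast h5
  refine (sum_le_card_nsmul _ _ _ h4).trans ?_
  rw [nsmul_eq_mul, card_range]
  have h5 : (1 / 2 : ℝ) ^ b0 * (K * 2 ^ K * 2 + 1) ≤ ε := by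
    rw [← le_div_iff₀ (by positivity)]
    exact hb0.le
  have h6 : (0 : ℝ) ≤ (1 / 2) ^ b0 := by positivity
  calc (K : ℝ) * (2 ^ K * (2 * (1 / 2) ^ b0 * N)) = ((1 / 2) ^ b0 * (K * 2 ^ K * 2)) * N := by ring
    _ ≤ ε * N := by
        refine mul_le_mul_of_nonneg_right ?_ hN0.le
        linarith

end

end Pool.Agent.MP2696.AA
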