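import Pool.Agent.Lib.MP_2696ff_co.Two.Fin

/-!
# MP_2696ff_co, almost all graphs: transfer to graphs
-/

set_option autoImplicit false
set_option linter.unusedSectionVars false

namespace Pool.Agent.MP2696.AA

open Matrix Polynomial Finset Pool.Agent.MP2696.Two

section

open Classical in
/-- The matrix of a graph over the field with two elements. -/
noncomputable def mat {n : ℕ} (G : SimpleGraph (Fin n)) : Matrix (Fin n) (Fin n) (ZMod 2) :=
  fun i j => if G.Adj i j then 1 else 0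

theorem mat_alt {n : ℕ} (G : SimpleGraph (Fin n)) : IsAlt (mat G) := by
  classical
  refine ⟨fun i j => ?_, fun i => ?_⟩
  · simp only [mat, G.adj_comm]
  · simp [mat]

theorem mat_inj {n : ℕ} (G H : SimpleGraph (Fin n)) (h : mat G = mat H) : G = H := by
  classical
  ext i j
  have h1 := congrFun (congrFun h i) j
  simp only [mat] at h1
  by_cases hG : G.Adj i j
  · by_cases hH : H.Adj i j
    · exact iff_of_true hG hH
    · rw [if_pos hG, if_neg hH] at h1
      exact absurd h1 one_ne_zero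
  · by_cases hH : H.Adj i j
    · rw [if_neg hG, if_pos hH] at h1
      exact absurd h1 zero_ne_one
    · exact iff_of_false hG hH

theorem lif_mat {n : ℕ} (G : SimpleGraph (Fin n)) [DecidableRel G.Adj] :
    lif (mat G) = G.adjMatrix ℤ := by
  ext i j
  rw [lif, Matrix.map_apply, SimpleGraph.adjMatrix_apply, mat]
  by_cases h : G.Adj i j
  · rw [if_pos h, if_pos h]; rfl
  · rw [if_neg h, if_neg h]; rfl

theorem adj_adjMatrix {n : ℕ} (F : SimpleGraph (Fin n)) [DecidableRel F.Adj] :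
    Adj (F.adjMatrix ℤ) := by
  refine ⟨fun i j => ?_, fun i => ?_, fun i j => ?_⟩
  · simp [SimpleGraph.adjMatrix_apply, F.adj_comm]
  · simp [SimpleGraph.adjMatrix_apply]
  · rw [SimpleGraph.adjMatrix_apply]
    split_ifs
    · exact Or.inr rfl
    · exact Or.inl rfl

theorem iso_of_matrix {n : ℕ} (G H : SimpleGraph (Fin n)) [DecidableRel G.Adj] [DecidableRel H.Adj]
    (σ : Equiv.Perm (Fin n)) (h : (H.adjMatrix ℤ).submatrix σ σ = G.adjMatrix ℤ) :
    Nonempty (G ≃g H) := by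
  refine ⟨⟨σ, fun {a b} => ?_⟩⟩
  have h1 := congrFun (congrFun h a) b
  rw [Matrix.submatrix_apply, SimpleGraph.adjMatrix_apply, SimpleGraph.adjMatrix_apply] at h1
  by_cases hG : G.Adj a b
  · by_cases hH : H.Adj (σ a) (σ b)
    · exact iff_of_true hH hG
    · rw [if_pos hG, if_neg hH] at h1
      exact absurd h1 zero_ne_one
  · by_cases hH : H.Adj (σ a) (σ b)
    · rw [if_neg hG, if_pos hH] at h1
      exact absurd h1 one_ne_zero
    · exact iff_of_false hH hG

open Classical in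
/-- Equal polynomial decks. -/
def SameDeck {n : ℕ} (G H : SimpleGraph (Fin n)) : Prop :=
  (Finset.univ : Finset (Fin n)).val.map
      (fun v => ((G.adjMatrix ℤ).submatrix
        (Subtype.val : {w : Fin n // w ≠ v} → Fin n)
        (Subtype.val : {w : Fin n // w ≠ v} → Fin n)).charpoly)
    = (Finset.univ : Finset (Fin n)).val.map
      (fun v => ((H.adjMatrix ℤ).submatrix
        (Subtype.val : {w : Fin n // w ≠ v} → Fin n)
        (Subtype.val : {w : Fin n // w ≠ v} → Fin n)).charpoly)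

theorem graphs_count (ε : ℝ) (hε : 0 < ε) : ∃ n₀ : ℕ, ∀ n ≥ n₀,
    (Nat.card {G : SimpleGraph (Fin n) // ∃ H : SimpleGraph (Fin n), SameDeck G H ∧
      IsEmpty (G ≃g H)} : ℝ) ≤ ε * 2 ^ (n.choose 2) := by
  classical
  obtain ⟨n0, h0⟩ := alm ε hε
  refine ⟨max 3 n0, fun n hn => ?_⟩
  have hn3 : 3 ≤ n := le_trans (le_max_left _ _) hn
  have hn0 : n0 ≤ n := le_trans (le_max_right _ _) hn
  refine le_trans ?_ (h0 n hn0)
  have h1 : Nat.card {G : SimpleGraph (Fin n) // ∃ H : SimpleGraph (Fin n), SameDeck G H ∧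
      IsEmpty (G ≃g H)} ≤ cn n (fun M => ∃ (B : Matrix (Fin n) (Fin n) ℤ) (c : ℤ), Adj B ∧
        Mate (lif M) B c ∧ (∀ i, ∑ k, lif M i k = ∑ k, B i k) ∧ B ≠ lif M) := by
    refine Nat.card_le_card_of_injective (fun G : {G : SimpleGraph (Fin n) //
      ∃ H : SimpleGraph (Fin n), SameDeck G H ∧ IsEmpty (G ≃g H)} =>
      (⟨mat G.1, mat_alt G.1, ?_⟩ : {M : Matrix (Fin n) (Fin n) (ZMod 2) // IsAlt M ∧
        ∃ (B : Matrix (Fin n) (Fin n) ℤ) (c : ℤ), Adj B ∧
        Mate (lif M) B c ∧ (∀ i, ∑ k, lif M i k = ∑ k, B i k) ∧ B ≠ lif M})) ?_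
    · obtain ⟨G, H, hd, hiso⟩ := G
      obtain ⟨σ, c, hM, hr⟩ := tMate n (G.adjMatrix ℤ) (H.adjMatrix ℤ) hn3 (adj_adjMatrix G)
        (adj_adjMatrix H) hd
      refine ⟨(H.adjMatrix ℤ).submatrix σ σ, c, (adj_adjMatrix H).submatrix σ, ?_, ?_, ?_⟩
      · rw [lif_mat]; exact hM
      · rw [lif_mat]; exact hr
      · intro he
        rw [lif_mat] at he
        exact not_isEmpty_iff.2 (iso_of_matrix G H σ he) hiso
    · rintro ⟨G, hG⟩ ⟨G', hG'⟩ h
      have h2 : mat G = mat G' := congrArg Subtype.val h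
      exact Subtype.ext (mat_inj G G' h2)
  exact_mod_cast h1

/-- The graph with given adjacencies. -/
def gph {n : ℕ} (f : (Σ i : Fin n, Fin i) → ZMod 2) : SimpleGraph (Fin n) where
  Adj i j := (∃ h : (j : ℕ) < i, f ⟨i, ⟨j, h⟩⟩ = 1) ∨ (∃ h : (i : ℕ) < j, f ⟨j, ⟨i, h⟩⟩ = 1)
  symm := ⟨fun i j h => h.symm⟩
  loopless := ⟨fun i h => by
    rcases h with ⟨h, _⟩ | ⟨h, _⟩ <;> exact lt_irrefl _ h⟩

theorem card_graphs (n : ℕ) : 2 ^ (n.choose 2) ≤ Nat.card (SimpleGraph (Fin n)) := by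
  classical
  have h1 : Nat.card ((Σ i : Fin n, Fin i) → ZMod 2) = 2 ^ (n.choose 2) := by
    rw [Nat.card_eq_fintype_card, Fintype.card_fun, ZMod.card, card_pairs]
  rw [← h1]
  refine Nat.card_le_card_of_injective gph fun f g h => ?_
  funext ⟨i, j⟩
  have h2 : ∀ f : (Σ i : Fin n, Fin i) → ZMod 2,
      (gph f).Adj i ⟨j, j.2.trans i.2⟩ ↔ f ⟨i, j⟩ = 1 := by
    intro f
    constructor
    · rintro (⟨_, h⟩ | ⟨h, _⟩)
      · exact h
      · exact absurd h (not_lt.2 j.2.le)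
    · intro h
      exact Or.inl ⟨j.2, h⟩
  have h3 : f ⟨i, j⟩ = 1 ↔ g ⟨i, j⟩ = 1 := by rw [← h2 f, ← h2 g, h]
  revert h3
  generalize f ⟨i, j⟩ = a
  generalize g ⟨i, j⟩ = b
  revert a b
  decide

/-- The proportion of the exceptional graphs tends to zero. -/
theorem graphs_tendsto :
    Filter.Tendsto (fun n : ℕ => (Nat.card {G : SimpleGraph (Fin n) //
      ∃ H : SimpleGraph (Fin n), SameDeck G H ∧ IsEmpty (G ≃g H)} : ℝ) /
      Nat.card (SimpleGraph (Fin n))) Filter.atTop (nhds 0) := by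
  rw [Metric.tendsto_atTop]
  intro ε hε
  obtain ⟨n0, h0⟩ := graphs_count (ε / 2) (by positivity)
  refine ⟨n0, fun n hn => ?_⟩
  have h1 := h0 n hn
  have h2 : ((2 ^ (n.choose 2) : ℕ) : ℝ) ≤ (Nat.card (SimpleGraph (Fin n)) : ℝ) := by
    exact_mod_cast card_graphs n
  push_cast at h2
  have hpos : (0 : ℝ) < 2 ^ (n.choose 2) := by positivity
  have hpos2 : (0 : ℝ) < Nat.card (SimpleGraph (Fin n)) := hpos.trans_le h2
  rw [Real.dist_eq, sub_zero, abs_of_nonneg (by positivity), div_lt_iff₀ hpos2]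
  calc _ ≤ ε / 2 * 2 ^ (n.choose 2) := h1
    _ ≤ ε / 2 * Nat.card (SimpleGraph (Fin n)) := by gcongr
    _ < ε * Nat.card (SimpleGraph (Fin n)) := by
        refine mul_lt_mul_of_pos_right (by linarith) hpos2

end

end Pool.Agent.MP2696.AA
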