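import Pool.Agent.Lib.MP_2696ff_co.AA.Alt

/-!
# MP_2696ff_co, almost all graphs: counting isotropic tuples over the field with two elements
-/

set_option autoImplicit false
set_option linter.unusedSectionVars false

namespace Pool.Agent.MP2696.AA

open Matrix Finset

/-- The exponent of the number of isotropic `d`-tuples. -/
def ex (n d : ℕ) : ℕ := ∑ a ∈ range d, (n - 1 - a)

theorem ex_succ (n d : ℕ) : ex n (d + 1) = ex n d + (n - 1 - d) := by
  rw [ex, ex, sum_range_succ]

theorem ex_add (n d : ℕ) (h : d ≤ n) : ex n d + (n - d).choose 2 = n.choose 2 := by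
  induction d with
  | zero => simp [ex]
  | succ d ih =>
    rw [ex_succ]
    have h1 := ih (by omega)
    obtain ⟨m, hm⟩ : ∃ m, n - d = m + 1 := ⟨n - d - 1, by omega⟩
    have h2 : n - (d + 1) = m := by omega
    have h3 : n - 1 - d = m := by omega
    have h4 : (m + 1).choose 2 = m + m.choose 2 := by
      rw [Nat.choose_succ_succ' m 1, Nat.choose_one_right]
    rw [hm, h4] at h1
    rw [h2, h3]
    omega

theorem ex_two (n k : ℕ) (h : k + 2 ≤ n) : ex n (k + 1) = ex (n - 2) k + (n - 1) + k := by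
  induction k with
  | zero => simp [ex]
  | succ k ih =>
    rw [ex_succ, ih (by omega), ex_succ]
    omega

section

variable {V : Type*} [Fintype V] [DecidableEq V]

/-- `u` is independent modulo `S` and orthogonal to `S` and to itself. -/
def good : (k : ℕ) → Submodule (ZMod 2) (V → ZMod 2) → (Fin k → V → ZMod 2) → Prop
  | 0, _, _ => True
  | k + 1, S, u => u 0 ∉ S ∧ (∀ x ∈ S, u 0 ⬝ᵥ x = 0) ∧
      good k (S ⊔ Submodule.span (ZMod 2) {u 0}) (Fin.tail u)

theorem card_orth_le (S : Submodule (ZMod 2) (V → ZMod 2)) :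
    Nat.card {u : V → ZMod 2 // ∀ x ∈ S, u ⬝ᵥ x = 0} ≤
      2 ^ (Fintype.card V - Module.finrank (ZMod 2) S) := by
  let f : {u : V → ZMod 2 // ∀ x ∈ S, u ⬝ᵥ x = 0} → S.dualAnnihilator := fun u =>
    ⟨{ toFun := fun x => u.1 ⬝ᵥ x
       map_add' := fun x y => dotProduct_add _ _ _
       map_smul' := fun c x => dotProduct_smul _ _ _ }, by
      rw [Submodule.mem_dualAnnihilator]
      intro x hx
      exact u.2 x hx⟩
  have hf : Function.Injective f := by
    rintro ⟨u, hu⟩ ⟨w, hw⟩ h
    apply Subtype.ext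
    change u = w
    funext i
    have h1 := congrArg Subtype.val h
    have h2 := LinearMap.congr_fun h1 (Pi.single i 1)
    change u ⬝ᵥ Pi.single i 1 = w ⬝ᵥ Pi.single i 1 at h2
    simpa using h2
  have hfin : Finite S.dualAnnihilator := by
    have : Finite (Module.Dual (ZMod 2) (V → ZMod 2)) :=
      Module.finite_of_finite (ZMod 2)
    infer_instance
  refine (Nat.card_le_card_of_injective f hf).trans ?_
  rw [Module.natCard_eq_pow_finrank (K := ZMod 2) (V := S.dualAnnihilator), Nat.card_zmod]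
  have h1 := Subspace.finrank_add_finrank_dualAnnihilator_eq S
  rw [Module.finrank_fintype_fun_eq_card] at h1
  refine Nat.pow_le_pow_right (by norm_num) ?_
  omega

theorem card_good_le (k : ℕ) : ∀ S : Submodule (ZMod 2) (V → ZMod 2),
    Nat.card {u : Fin k → V → ZMod 2 // good k S u} ≤
      2 ^ (∑ a ∈ range k, (Fintype.card V - Module.finrank (ZMod 2) S - a)) := by
  induction k with
  | zero =>
    intro S
    simp only [range_zero, sum_empty, pow_zero]
    refine Finite.card_le_one_iff_subsingleton.2 ⟨fun a b => ?_⟩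
    exact Subtype.ext (Subsingleton.elim _ _)
  | succ k ih =>
    intro S
    classical
    set s := Module.finrank (ZMod 2) S with hs
    -- fibres over the first vector
    have h1 : Nat.card {u : Fin (k + 1) → V → ZMod 2 // good (k + 1) S u} ≤
        ∑ u0 : {u : V → ZMod 2 // ∀ x ∈ S, u ⬝ᵥ x = 0},
          Nat.card {u : Fin k → V → ZMod 2 //
            u0.1 ∉ S ∧ good k (S ⊔ Submodule.span (ZMod 2) {u0.1}) u} := by
      rw [← Nat.card_sigma]
      refine Nat.card_le_card_of_injective
        (fun u : {u : Fin (k + 1) → V → ZMod 2 // good (k + 1) S u} =>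
          (⟨⟨u.1 0, u.2.2.1⟩, ⟨Fin.tail u.1, u.2.1, u.2.2.2⟩⟩ :
            Σ u0 : {u : V → ZMod 2 // ∀ x ∈ S, u ⬝ᵥ x = 0},
              {u : Fin k → V → ZMod 2 //
                u0.1 ∉ S ∧ good k (S ⊔ Submodule.span (ZMod 2) {u0.1}) u})) ?_
      rintro ⟨u, hu⟩ ⟨w, hw⟩ h
      apply Subtype.ext
      change u = w
      have e1 : u 0 = w 0 := congrArg (fun t => t.1.1) h
      have e2 : Fin.tail u = Fin.tail w := congrArg (fun t => t.2.1) h
      rw [← Fin.cons_self_tail u, ← Fin.cons_self_tail w, e1, e2]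
    refine h1.trans ?_
    have h2 : ∀ u0 : {u : V → ZMod 2 // ∀ x ∈ S, u ⬝ᵥ x = 0},
        Nat.card {u : Fin k → V → ZMod 2 //
            u0.1 ∉ S ∧ good k (S ⊔ Submodule.span (ZMod 2) {u0.1}) u} ≤
          2 ^ (∑ a ∈ range k, (Fintype.card V - (s + 1) - a)) := by
      intro u0
      by_cases h0 : u0.1 ∈ S
      · have : IsEmpty {u : Fin k → V → ZMod 2 //
            u0.1 ∉ S ∧ good k (S ⊔ Submodule.span (ZMod 2) {u0.1}) u} :=
          ⟨fun u => u.2.1 h0⟩
        rw [Nat.card_of_isEmpty]
        exact Nat.zero_le _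
      · have h3 : s + 1 ≤ Module.finrank (ZMod 2)
            ↥(S ⊔ Submodule.span (ZMod 2) {u0.1}) := by
          have : S < S ⊔ Submodule.span (ZMod 2) {u0.1} := by
            exact lt_of_le_of_ne le_sup_left fun h => h0
              (h.ge (Submodule.mem_sup_right (Submodule.mem_span_singleton_self _)))
          exact Submodule.finrank_lt_finrank_of_lt this
        refine le_trans ?_ ((ih (S ⊔ Submodule.span (ZMod 2) {u0.1})).trans
          (Nat.pow_le_pow_right (by norm_num) ?_))
        · exact Nat.card_le_card_of_injective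
            (fun u : {u : Fin k → V → ZMod 2 //
              u0.1 ∉ S ∧ good k (S ⊔ Submodule.span (ZMod 2) {u0.1}) u} =>
              (⟨u.1, u.2.2⟩ : {u : Fin k → V → ZMod 2 //
                good k (S ⊔ Submodule.span (ZMod 2) {u0.1}) u}))
            (fun a b h => by
              have h' := congrArg Subtype.val h
              exact Subtype.ext h')
        · refine sum_le_sum fun a _ => ?_
          omega
    refine (sum_le_sum fun u0 _ => h2 u0).trans ?_
    rw [sum_const, card_univ, smul_eq_mul, ← Nat.card_eq_fintype_card]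
    refine (Nat.mul_le_mul_right _ (card_orth_le S)).trans ?_
    rw [← pow_add]
    refine Nat.pow_le_pow_right (by norm_num) ?_
    rw [sum_range_succ', ← hs]
    have : ∀ a, Fintype.card V - (s + 1) - a = Fintype.card V - s - (a + 1) := fun a => by omega
    simp only [this, Nat.sub_zero]
    omega

theorem good_of (k : ℕ) : ∀ (S : Submodule (ZMod 2) (V → ZMod 2)) (u : Fin k → V → ZMod 2),
    (∀ g : Fin k → ZMod 2, ∑ a, g a • u a ∈ S → g = 0) → (∀ a, ∀ x ∈ S, u a ⬝ᵥ x = 0) →
    (∀ a b, a ≠ b → u a ⬝ᵥ u b = 0) → good k S u := by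
  induction k with
  | zero => intro S u _ _ _; trivial
  | succ k ih =>
    intro S u h1 h2 h3
    refine ⟨fun h0 => ?_, h2 0, ih _ _ (fun g hg => ?_) (fun a x hx => ?_) (fun a b hab => ?_)⟩
    · have h4 := h1 (Pi.single 0 1) (by
        rw [Fin.sum_univ_succ]
        simpa using h0)
      have h5 := congrFun h4 0
      simp at h5
    · obtain ⟨s, hs, t, ht, hst⟩ := Submodule.mem_sup.1 hg
      obtain ⟨c, rfl⟩ := Submodule.mem_span_singleton.1 ht
      have h4 := h1 (Fin.cons (-c) g) (by
        rw [Fin.sum_univ_succ]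
        simp only [Fin.cons_zero, Fin.cons_succ]
        have : ∑ i : Fin k, g i • u i.succ = s + c • u 0 := hst.symm
        rw [this]
        have h5 : -c • u 0 + (s + c • u 0) = s := by
          rw [neg_smul]; abel
        rw [h5]
        exact hs)
      funext a
      have h5 := congrFun h4 a.succ
      simpa using h5
    · obtain ⟨s, hs, t, ht, rfl⟩ := Submodule.mem_sup.1 hx
      obtain ⟨c, rfl⟩ := Submodule.mem_span_singleton.1 ht
      rw [dotProduct_add, dotProduct_smul]
      have e1 : Fin.tail u a ⬝ᵥ s = 0 := h2 a.succ s hs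
      have e2 : Fin.tail u a ⬝ᵥ u 0 = 0 := h3 a.succ 0 (Fin.succ_ne_zero a)
      rw [e1, e2, smul_zero, add_zero]
    · exact h3 a.succ b.succ (fun h => hab (Fin.succ_injective _ h))

/-- Independent tuples which are pairwise orthogonal and self-orthogonal. -/
def Iso {k : ℕ} (v : Fin k → V → ZMod 2) : Prop :=
  LinearIndependent (ZMod 2) v ∧ ∀ a b, v a ⬝ᵥ v b = 0

theorem eq_one_of_ne_zero : ∀ t : ZMod 2, t ≠ 0 → t = 1 := by decide

theorem elim_ind {k : ℕ} (c : V → ZMod 2) (v : Fin (k + 1) → V → ZMod 2) (hv : Iso v)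
    (μ : Fin (k + 1) → ZMod 2) (a0 : Fin (k + 1)) (hμ : μ a0 ≠ 0) (hc : ∑ a, μ a • v a = c)
    (g : Fin k → ZMod 2)
    (hg : ∑ a, g a • v (a0.succAbove a) ∈ Submodule.span (ZMod 2) {c}) : g = 0 := by
  subst hc
  obtain ⟨t, ht⟩ := Submodule.mem_span_singleton.1 hg
  rw [Fin.sum_univ_succAbove _ a0, smul_add, smul_smul, Finset.smul_sum] at ht
  have h1 : ∑ a : Fin (k + 1), (a0.insertNth (t * μ a0)
      (fun a => t * μ (a0.succAbove a) - g a) : Fin (k + 1) → ZMod 2) a • v a = 0 := by
    rw [Fin.sum_univ_succAbove _ a0]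
    simp only [Fin.insertNth_apply_same, Fin.insertNth_apply_succAbove, sub_smul,
      sum_sub_distrib]
    rw [← add_sub_assoc, sub_eq_zero, ← ht]
    congr 1
    exact sum_congr rfl fun a _ => by rw [smul_smul]
  have h2 := Fintype.linearIndependent_iff.1 hv.1 _ h1
  have h3 := h2 a0
  rw [Fin.insertNth_apply_same] at h3
  have h4 : t = 0 := by
    rcases mul_eq_zero.1 h3 with h | h
    · exact h
    · exact absurd h hμ
  funext a
  have h5 := h2 (a0.succAbove a)
  rw [Fin.insertNth_apply_succAbove, h4, zero_mul, zero_sub, neg_eq_zero] at h5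
  exact h5

theorem elim_dot {k : ℕ} (c : V → ZMod 2) (v : Fin (k + 1) → V → ZMod 2) (hv : Iso v)
    (μ : Fin (k + 1) → ZMod 2) (hc : ∑ a, μ a • v a = c) (b : Fin (k + 1)) : v b ⬝ᵥ c = 0 := by
  subst hc
  rw [dotProduct_sum]
  refine sum_eq_zero fun a _ => ?_
  rw [dotProduct_smul, hv.2, smul_zero]

theorem elim_rec {k : ℕ} (c : V → ZMod 2) (v w : Fin (k + 1) → V → ZMod 2)
    (μ : Fin (k + 1) → ZMod 2) (a0 : Fin (k + 1)) (hμ : μ a0 ≠ 0) (hv : ∑ a, μ a • v a = c)
    (hw : ∑ a, μ a • w a = c) (h : ∀ a, v (a0.succAbove a) = w (a0.succAbove a)) : v = w := by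
  funext a
  rcases Fin.eq_self_or_eq_succAbove a0 a with rfl | ⟨b, rfl⟩
  · have e5 : ∑ b : Fin k, μ (a.succAbove b) • w (a.succAbove b) =
        ∑ b : Fin k, μ (a.succAbove b) • v (a.succAbove b) :=
      sum_congr rfl fun b _ => by rw [h b]
    rw [← hv, Fin.sum_univ_succAbove _ a, Fin.sum_univ_succAbove _ a, e5] at hw
    have e6 := add_right_cancel hw
    rw [eq_one_of_ne_zero _ hμ, one_smul, one_smul] at e6
    exact e6.symm
  · exact h b

/-- Elimination of one vector `c` of the span. -/
theorem card_iso_mem_le (k : ℕ) (c : V → ZMod 2) (hc : c ≠ 0) (Q : (Fin k → V → ZMod 2) → Prop)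
    (hQ : ∀ u : Fin k → V → ZMod 2, (∀ g : Fin k → ZMod 2, ∑ a, g a • u a ∈
        Submodule.span (ZMod 2) {c} → g = 0) → (∀ a, u a ⬝ᵥ c = 0) →
      (∀ a b, u a ⬝ᵥ u b = 0) → Q u) :
    Nat.card {v : Fin (k + 1) → V → ZMod 2 // Iso v ∧
      c ∈ Submodule.span (ZMod 2) (Set.range v)} ≤
      2 ^ (k + 1) * Nat.card {u : Fin k → V → ZMod 2 // Q u} := by
  classical
  let a0 : (Fin (k + 1) → ZMod 2) → Fin (k + 1) := fun μ =>
    if h : ∃ a, μ a ≠ 0 then h.choose else 0
  have ha0 : ∀ μ : Fin (k + 1) → ZMod 2, (∃ a, μ a ≠ 0) → μ (a0 μ) ≠ 0 := by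
    intro μ h
    simp only [a0, dif_pos h]
    exact h.choose_spec
  have hμ : ∀ v : {v : Fin (k + 1) → V → ZMod 2 // Iso v ∧
      c ∈ Submodule.span (ZMod 2) (Set.range v)}, ∃ μ : Fin (k + 1) → ZMod 2,
      ∑ a, μ a • v.1 a = c := fun v => (Submodule.mem_span_range_iff_exists_fun _).1 v.2.2
  choose M hM using hμ
  have hMne : ∀ v, M v (a0 (M v)) ≠ 0 := by
    intro v
    apply ha0
    by_contra h
    push Not at h
    apply hc
    rw [← hM v]
    exact sum_eq_zero fun a _ => by rw [h a, zero_smul]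
  have hQv : ∀ v : {v : Fin (k + 1) → V → ZMod 2 // Iso v ∧
      c ∈ Submodule.span (ZMod 2) (Set.range v)}, Q (fun a => v.1 ((a0 (M v)).succAbove a)) := by
    intro v
    exact hQ _ (fun g hg => elim_ind c v.1 v.2.1 (M v) _ (hMne v) (hM v) g hg)
      (fun a => elim_dot c v.1 v.2.1 (M v) (hM v) _) (fun a b => v.2.1.2 _ _)
  have h1 : Nat.card ((Fin (k + 1) → ZMod 2) × {u : Fin k → V → ZMod 2 // Q u}) =
      2 ^ (k + 1) * Nat.card {u : Fin k → V → ZMod 2 // Q u} := by
    rw [Nat.card_prod, Nat.card_eq_fintype_card (α := Fin (k + 1) → ZMod 2), Fintype.card_fun,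
      ZMod.card, Fintype.card_fin]
  rw [← h1]
  refine Nat.card_le_card_of_injective (fun v => (M v, ⟨_, hQv v⟩)) ?_
  rintro v w h
  have e1 : M v = M w := congrArg Prod.fst h
  have e2 : (fun a => v.1 ((a0 (M v)).succAbove a)) = fun a => w.1 ((a0 (M w)).succAbove a) :=
    congrArg (fun t => t.2.1) h
  have e3 : ∀ a, v.1 ((a0 (M v)).succAbove a) = w.1 ((a0 (M v)).succAbove a) := by
    intro a
    have := congrFun e2 a
    rw [← e1] at this
    exact this
  have e4 : ∑ a, M v a • w.1 a = c := by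
    have := hM w
    rw [← e1] at this
    exact this
  exact Subtype.ext (elim_rec c v.1 w.1 (M v) (a0 (M v)) (hMne v) (hM v) e4 e3)

theorem dot_self (v : V → ZMod 2) : v ⬝ᵥ v = v ⬝ᵥ (fun _ => 1) := by
  rw [dotProduct, dotProduct]
  refine sum_congr rfl fun i _ => ?_
  generalize v i = z
  revert z
  decide

theorem card_iso_le (k : ℕ) (hk : 2 * k ≤ Fintype.card V) :
    Nat.card {v : Fin k → V → ZMod 2 // Iso v} ≤ 2 * 2 ^ ex (Fintype.card V) k := by
  classical
  rcases k with _ | k
  · have h0 : Nat.card {v : Fin 0 → V → ZMod 2 // Iso v} ≤ 1 :=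
      Finite.card_le_one_iff_subsingleton.2 ⟨fun a b => Subtype.ext (Subsingleton.elim _ _)⟩
    refine h0.trans ?_
    exact Nat.one_le_iff_ne_zero.2 (by positivity)
  · set e : V → ZMod 2 := fun _ => 1 with he
    have hV : Nonempty V := Fintype.card_pos_iff.1 (by omega)
    have he0 : e ≠ 0 := by
      intro h
      obtain ⟨i⟩ := hV
      have := congrFun h i
      simp [he] at this
    have hfe : Module.finrank (ZMod 2) ↥(Submodule.span (ZMod 2) {e}) = 1 :=
      finrank_span_singleton he0
    -- tuples whose span contains `e`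
    have h1 := card_iso_mem_le k e he0 (good k (Submodule.span (ZMod 2) {e})) (by
      intro u h1 h2 h3
      refine good_of k _ u h1 (fun a x hx => ?_) (fun a b _ => h3 a b)
      obtain ⟨c, rfl⟩ := Submodule.mem_span_singleton.1 hx
      rw [dotProduct_smul, h2, smul_zero])
    have h2 := card_good_le k (Submodule.span (ZMod 2) {e})
    rw [hfe] at h2
    have h3 : Nat.card {v : Fin (k + 1) → V → ZMod 2 // Iso v ∧
        e ∈ Submodule.span (ZMod 2) (Set.range v)} ≤ 2 ^ ex (Fintype.card V) (k + 1) := by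
      refine h1.trans ((Nat.mul_le_mul_left _ h2).trans ?_)
      rw [← pow_add]
      refine Nat.pow_le_pow_right (by norm_num) ?_
      rw [ex_succ, ex]
      omega
    -- tuples whose span does not contain `e`
    have h4 : Nat.card {v : Fin (k + 1) → V → ZMod 2 // Iso v ∧
        e ∉ Submodule.span (ZMod 2) (Set.range v)} ≤ 2 ^ ex (Fintype.card V) (k + 1) := by
      have h5 := card_good_le (k + 1) (Submodule.span (ZMod 2) {e})
      rw [hfe] at h5
      have aux : ∀ v : Fin (k + 1) → V → ZMod 2, Iso v →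
          e ∉ Submodule.span (ZMod 2) (Set.range v) →
          good (k + 1) (Submodule.span (ZMod 2) {e}) v := by
        intro v hv he1
        obtain ⟨hind, hort⟩ := hv
        refine good_of (k + 1) _ v (fun g hg => ?_) (fun a x hx => ?_) (fun a b _ => hort a b)
        · obtain ⟨t, ht⟩ := Submodule.mem_span_singleton.1 hg
          have ht0 : t = 0 := by
            by_contra hne
            have ht1 : t = 1 := eq_one_of_ne_zero t hne
            apply he1
            rw [ht1, one_smul] at ht
            exact (Submodule.mem_span_range_iff_exists_fun _).2 ⟨g, ht.symm⟩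
          rw [ht0, zero_smul] at ht
          funext a
          exact Fintype.linearIndependent_iff.1 hind g ht.symm a
        · obtain ⟨c, rfl⟩ := Submodule.mem_span_singleton.1 hx
          rw [dotProduct_smul, he, ← dot_self, hort, smul_zero]
      exact le_trans (Nat.card_le_card_of_injective
        (fun v : {v : Fin (k + 1) → V → ZMod 2 // Iso v ∧
          e ∉ Submodule.span (ZMod 2) (Set.range v)} =>
          (⟨v.1, aux v.1 v.2.1 v.2.2⟩ : {v : Fin (k + 1) → V → ZMod 2 //
            good (k + 1) (Submodule.span (ZMod 2) {e}) v}))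
        (fun a b h => by
          have h' := congrArg Subtype.val h
          exact Subtype.ext h')) h5
    have h6 : Nat.card {v : Fin (k + 1) → V → ZMod 2 // Iso v} ≤
        Nat.card {v : Fin (k + 1) → V → ZMod 2 // Iso v ∧
          e ∈ Submodule.span (ZMod 2) (Set.range v)} +
        Nat.card {v : Fin (k + 1) → V → ZMod 2 // Iso v ∧
          e ∉ Submodule.span (ZMod 2) (Set.range v)} := by
      rw [← Nat.card_sum]
      refine Nat.card_le_card_of_injective (fun v : {v : Fin (k + 1) → V → ZMod 2 // Iso v} =>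
        if h : e ∈ Submodule.span (ZMod 2) (Set.range v.1) then Sum.inl ⟨v.1, v.2, h⟩
        else Sum.inr ⟨v.1, v.2, h⟩) ?_
      intro v w h
      apply Subtype.ext
      dsimp only at h
      split_ifs at h with h1 h2
      · have h' := congrArg Subtype.val (Sum.inl.inj h)
        exact h'
      · have h' := congrArg Subtype.val (Sum.inr.inj h)
        exact h'
    omega

end

end Pool.Agent.MP2696.AA
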