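import Pool.Agent.Lib.MP_2696ff_co.AA.Bev2

/-!
# MP_2696ff_co, almost all graphs: cyclic vectors and minimal polynomials
-/

set_option autoImplicit false
set_option linter.unusedSectionVars false

namespace Pool.Agent.MP2696.AA

open Matrix Finset Polynomial

section

variable {n : ℕ}

/-- The action of a polynomial. -/
noncomputable def act (A : Matrix (Fin n) (Fin n) (ZMod 2)) (g : (ZMod 2)[X])
    (w : Fin n → ZMod 2) : Fin n → ZMod 2 := (aeval A g) *ᵥ w

theorem act_add (A : Matrix (Fin n) (Fin n) (ZMod 2)) (g h : (ZMod 2)[X]) (w : Fin n → ZMod 2) :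
    act A (g + h) w = act A g w + act A h w := by
  rw [act, map_add, add_mulVec]; rfl

theorem act_mul (A : Matrix (Fin n) (Fin n) (ZMod 2)) (g h : (ZMod 2)[X]) (w : Fin n → ZMod 2) :
    act A (g * h) w = act A g (act A h w) := by
  rw [act, map_mul, ← mulVec_mulVec]; rfl

theorem act_mul' (A : Matrix (Fin n) (Fin n) (ZMod 2)) (g h : (ZMod 2)[X]) (w : Fin n → ZMod 2) :
    act A (g * h) w = act A h (act A g w) := by
  rw [mul_comm, act_mul]

theorem act_zero (A : Matrix (Fin n) (Fin n) (ZMod 2)) (w : Fin n → ZMod 2) :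
    act A 0 w = 0 := by
  rw [act, map_zero, zero_mulVec]

theorem act_one (A : Matrix (Fin n) (Fin n) (ZMod 2)) (w : Fin n → ZMod 2) :
    act A 1 w = w := by
  rw [act, map_one, one_mulVec]

theorem act_vec_add (A : Matrix (Fin n) (Fin n) (ZMod 2)) (g : (ZMod 2)[X])
    (v w : Fin n → ZMod 2) : act A g (v + w) = act A g v + act A g w := by
  rw [act, mulVec_add]; rfl

theorem act_vec_zero (A : Matrix (Fin n) (Fin n) (ZMod 2)) (g : (ZMod 2)[X]) :
    act A g 0 = 0 := by
  rw [act, mulVec_zero]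

theorem act_X_pow (A : Matrix (Fin n) (Fin n) (ZMod 2)) (k : ℕ) (w : Fin n → ZMod 2) :
    act A (X ^ k) w = (A ^ k) *ᵥ w := by
  rw [act, map_pow, aeval_X]

theorem act_sum (A : Matrix (Fin n) (Fin n) (ZMod 2)) {ι : Type*} (s : Finset ι)
    (f : ι → (ZMod 2)[X]) (w : Fin n → ZMod 2) :
    act A (∑ i ∈ s, f i) w = ∑ i ∈ s, act A (f i) w := by
  rw [act, map_sum, sum_mulVec]; rfl

theorem act_C_mul (A : Matrix (Fin n) (Fin n) (ZMod 2)) (c : ZMod 2) (g : (ZMod 2)[X])
    (w : Fin n → ZMod 2) : act A (C c * g) w = c • act A g w := by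
  rw [act, map_mul, aeval_C, ← Algebra.smul_def, smul_mulVec]; rfl

/-- Polynomials in a symmetric matrix are symmetric. -/
theorem act_symm (A : Matrix (Fin n) (Fin n) (ZMod 2)) (hA : IsAlt A) (g : (ZMod 2)[X])
    (v w : Fin n → ZMod 2) : act A g v ⬝ᵥ w = v ⬝ᵥ act A g w := by
  have hT : Aᵀ = A := by
    ext i j
    exact hA.1 j i
  have h1 : (aeval A g)ᵀ = aeval A g := by
    induction g using Polynomial.induction_on' with
    | add p q hp hq => rw [map_add, transpose_add, hp, hq]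
    | monomial k a =>
      rw [aeval_monomial, transpose_mul, transpose_pow, hT, Matrix.algebraMap_eq_diagonal,
        diagonal_transpose]
      exact (Algebra.commutes (R := ZMod 2) a (A ^ k)).symm
  rw [act, act, dotProduct_mulVec, ← mulVec_transpose, h1]

/-- The annihilator of a vector. -/
noncomputable def annI (A : Matrix (Fin n) (Fin n) (ZMod 2)) (w : Fin n → ZMod 2) :
    Ideal (ZMod 2)[X] where
  carrier := {g | act A g w = 0}
  add_mem' := fun {g h} hg hh => by
    change act A (g + h) w = 0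
    rw [act_add, show act A g w = 0 from hg, show act A h w = 0 from hh, add_zero]
  zero_mem' := act_zero A w
  smul_mem' := fun g h hh => by
    change act A (g * h) w = 0
    rw [act_mul, show act A h w = 0 from hh, act_vec_zero]

theorem mem_annI (A : Matrix (Fin n) (Fin n) (ZMod 2)) (w : Fin n → ZMod 2) (g : (ZMod 2)[X]) :
    g ∈ annI A w ↔ act A g w = 0 := Iff.rfl

/-- The minimal polynomial of a vector. -/
noncomputable def mp (A : Matrix (Fin n) (Fin n) (ZMod 2)) (w : Fin n → ZMod 2) : (ZMod 2)[X] :=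
  Submodule.IsPrincipal.generator (annI A w)

theorem mp_dvd (A : Matrix (Fin n) (Fin n) (ZMod 2)) (w : Fin n → ZMod 2) (g : (ZMod 2)[X]) :
    mp A w ∣ g ↔ act A g w = 0 := by
  rw [← mem_annI, mp, ← Submodule.IsPrincipal.mem_iff_generator_dvd]

theorem act_mp (A : Matrix (Fin n) (Fin n) (ZMod 2)) (w : Fin n → ZMod 2) :
    act A (mp A w) w = 0 := (mp_dvd A w _).1 dvd_rfl

theorem mp_ne_zero (A : Matrix (Fin n) (Fin n) (ZMod 2)) (w : Fin n → ZMod 2) : mp A w ≠ 0 := by
  intro h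
  have h1 : mp A w ∣ A.charpoly := by
    rw [mp_dvd, act, aeval_self_charpoly, zero_mulVec]
  rw [h, zero_dvd_iff] at h1
  exact A.charpoly_monic.ne_zero h1

theorem mp_pos (A : Matrix (Fin n) (Fin n) (ZMod 2)) (w : Fin n → ZMod 2) (hw : w ≠ 0) :
    0 < (mp A w).natDegree := by
  rw [Nat.pos_iff_ne_zero]
  intro h
  apply hw
  have h1 : IsUnit (mp A w) := by
    rw [Polynomial.isUnit_iff_degree_eq_zero, degree_eq_natDegree (mp_ne_zero A w), h]
    rfl
  have h2 := (mp_dvd A w 1).1 h1.dvd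
  rwa [act_one] at h2

/-- The Krylov vectors. -/
def kry (A : Matrix (Fin n) (Fin n) (ZMod 2)) (w : Fin n → ZMod 2) (D : ℕ) :
    Fin D → Fin n → ZMod 2 := fun j => (A ^ (j : ℕ)) *ᵥ w

theorem kry_sum (A : Matrix (Fin n) (Fin n) (ZMod 2)) (w : Fin n → ZMod 2) (D : ℕ)
    (c : Fin D → ZMod 2) : ∑ j, c j • kry A w D j = act A (∑ j : Fin D, C (c j) * X ^ (j : ℕ)) w := by
  rw [act_sum]
  refine sum_congr rfl fun j _ => ?_
  rw [act_C_mul, act_X_pow]; rfl

theorem kry_ind (A : Matrix (Fin n) (Fin n) (ZMod 2)) (w : Fin n → ZMod 2) (D : ℕ)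
    (hD : D ≤ (mp A w).natDegree) : LinearIndependent (ZMod 2) (kry A w D) := by
  rw [Fintype.linearIndependent_iff]
  intro c hc
  rw [kry_sum, ← mp_dvd] at hc
  have h1 : ∑ j : Fin D, C (c j) * X ^ (j : ℕ) = (0 : (ZMod 2)[X]) := by
    refine eq_zero_of_dvd_of_degree_lt hc ?_
    refine (degree_sum_fin_lt c).trans_le ?_
    rw [degree_eq_natDegree (mp_ne_zero A w)]
    exact_mod_cast hD
  intro i
  have h2 := congrArg (fun p => coeff p i) h1
  simp only [finsetSum_coeff, coeff_C_mul, coeff_X_pow, coeff_zero] at h2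
  rw [sum_eq_single i] at h2
  · rw [if_pos rfl, mul_one] at h2
    exact h2
  · intro j _ hj
    rw [if_neg fun h => hj (Fin.ext h.symm), mul_zero]
  · intro h
    exact absurd (mem_univ _) h

/-- The images of the Krylov vectors. -/
def nxt {D : ℕ} (g : (ZMod 2)[X]) (u : Fin D → Fin n → ZMod 2) : Fin D → Fin n → ZMod 2 := fun j =>
  if h : (j : ℕ) + 1 < D then u ⟨j + 1, h⟩ else ∑ a : Fin D, g.coeff a • u a

theorem kry_nxt (A : Matrix (Fin n) (Fin n) (ZMod 2)) (w : Fin n → ZMod 2) (g : (ZMod 2)[X])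
    (hg : g ≠ 0) (h : act A g w = 0) (j : Fin g.natDegree) :
    A *ᵥ kry A w g.natDegree j = nxt g (kry A w g.natDegree) j := by
  rw [nxt]
  have h0 : A *ᵥ kry A w g.natDegree j = (A ^ ((j : ℕ) + 1)) *ᵥ w := by
    rw [kry, mulVec_mulVec, ← pow_succ']
  rw [h0]
  split_ifs with hj
  · rfl
  · have h1 : (j : ℕ) + 1 = g.natDegree := by have := j.2; omega
    rw [h1, kry_sum, ← act_X_pow]
    have h2 := pol_surj g hg
    rw [pol] at h2
    have h3 : act A (X ^ g.natDegree) w +
        act A (∑ i : Fin g.natDegree, C (g.coeff i) * X ^ (i : ℕ)) w = 0 := by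
      rw [← act_add, h2, h]
    funext i
    exact CharTwo.add_eq_zero.1 (congrFun h3 i)

theorem kry_zero (A : Matrix (Fin n) (Fin n) (ZMod 2)) (w : Fin n → ZMod 2) (D : ℕ) (hD : 0 < D) :
    kry A w D ⟨0, hD⟩ = w := by
  rw [kry, pow_zero, one_mulVec]

theorem kry_iso (A : Matrix (Fin n) (Fin n) (ZMod 2)) (hA : IsAlt A) (w : Fin n → ZMod 2) (D : ℕ)
    (hD : D ≤ (mp A w).natDegree) (h : ∀ g : (ZMod 2)[X], w ⬝ᵥ act A g w = 0) :
    Iso (kry A w D) := by
  refine ⟨kry_ind A w D hD, fun a b => ?_⟩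
  rw [kry, ← act_X_pow, kry, ← act_X_pow, act_symm A hA, ← act_mul]
  exact h _

end

end Pool.Agent.MP2696.AA
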