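import Pool.Agent.Lib.MP_2696ff_co.AA.Deg

/-!
# MP_2696ff_co, almost all graphs: minimal polynomials with small primes have bounded degree
-/

set_option autoImplicit false
set_option linter.unusedSectionVars false

namespace Pool.Agent.MP2696.AA

open Matrix Finset Polynomial

theorem pol_ne_zero (d : ℕ) (c : Fin d → ZMod 2) : pol d c ≠ 0 := by
  rw [pol]
  exact (monic_X_pow_add (degree_sum_fin_lt _)).ne_zero

/-- The product of all polynomials of degree less than `K`. -/
noncomputable def big (K : ℕ) : (ZMod 2)[X] := ∏ d ∈ range K, ∏ p ∈ pols d, p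

theorem big_ne_zero (K : ℕ) : big K ≠ 0 := by
  rw [big, prod_ne_zero_iff]
  intro d _
  rw [prod_ne_zero_iff]
  intro p hp
  rw [pols, mem_image] at hp
  obtain ⟨c, _, rfl⟩ := hp
  exact pol_ne_zero d c

theorem dvd_big (K : ℕ) (p : (ZMod 2)[X]) (hp : p ≠ 0) (hK : p.natDegree < K) : p ∣ big K :=
  (dvd_prod_of_mem (fun p : (ZMod 2)[X] => p) (mem_pols p hp)).trans
    (dvd_prod_of_mem (fun d => ∏ p ∈ pols d, p) (mem_range.2 hK))

theorem dvd_big_pow (K e : ℕ) (m : (ZMod 2)[X]) : m ≠ 0 →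
    (∀ p, Irreducible p → p ∣ m → p.natDegree < K) → (∀ p, Irreducible p → ¬ p ^ (e + 1) ∣ m) →
    m ∣ big K ^ e := by
  induction m using UniqueFactorizationMonoid.induction_on_coprime with
  | h0 => intro h; exact absurd rfl h
  | h1 hu => intro _ _ _; exact hu.dvd
  | hpr i hp =>
    rename_i p
    intro _ h1 h2
    have hi : i ≤ e := by
      by_contra hcon
      exact h2 p hp.irreducible (pow_dvd_pow p (by omega))
    rcases Nat.eq_zero_or_pos i with h | h
    · rw [h, pow_zero]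
      exact one_dvd _
    · have h3 : p ∣ big K :=
        dvd_big K p hp.ne_zero (h1 p hp.irreducible (dvd_pow_self p (by omega)))
      exact (pow_dvd_pow p hi).trans (pow_dvd_pow_of_dvd h3 e)
  | hcp hxy hx hy =>
    rename_i x y
    intro h0 h1 h2
    refine IsRelPrime.mul_dvd hxy (hx (left_ne_zero_of_mul h0) ?_ ?_)
      (hy (right_ne_zero_of_mul h0) ?_ ?_)
    · exact fun p hp hpx => h1 p hp (hpx.mul_right y)
    · exact fun p hp hpx => h2 p hp (hpx.mul_right y)
    · exact fun p hp hpx => h1 p hp (hpx.mul_left x)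
    · exact fun p hp hpx => h2 p hp (hpx.mul_left x)

/-- The bound for the degrees. -/
theorem smooth_deg {n : ℕ} (A : Matrix (Fin n) (Fin n) (ZMod 2)) (hA : IsAlt A) (K b : ℕ)
    (hb : 1 ≤ b)
    (h : ∀ p : (ZMod 2)[X], Irreducible p → p.natDegree < K → ¬ ∃ w, Cy A p b w)
    (D : (ZMod 2)[X]) (hD : ∀ p, Irreducible p → p ∣ D → p.natDegree < K)
    (w : Fin n → ZMod 2) (hw : act A D w = 0) :
    (mp A w).natDegree ≤ (big K ^ (2 * b - 1)).natDegree := by
  refine natDegree_le_of_dvd ?_ (pow_ne_zero _ (big_ne_zero K))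
  have hmD : mp A w ∣ D := (mp_dvd A w D).2 hw
  refine dvd_big_pow K (2 * b - 1) (mp A w) (mp_ne_zero A w)
    (fun p hp hpm => hD p hp (hpm.trans hmD)) (fun p hp hpm => ?_)
  rw [show 2 * b - 1 + 1 = 2 * b by omega] at hpm
  obtain ⟨g, hg⟩ := hpm
  have hpK : p.natDegree < K := hD p hp (((dvd_pow_self p (by omega)).trans
    (Dvd.intro _ hg.symm)).trans hmD)
  refine h p hp hpK ⟨act A (p ^ b) (act A g w), cy_of A hA p b hb (act A g w) ?_ ?_⟩
  · rw [← act_mul, ← hg, act_mp]
  · intro h1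
    rw [← act_mul, ← mp_dvd, hg, show 2 * b = (2 * b - 1) + 1 by omega, pow_succ, mul_assoc] at h1
    have h2 : p ^ (2 * b - 1) ≠ 0 := pow_ne_zero _ hp.ne_zero
    have hg0 : g ≠ 0 := by
      rintro rfl
      rw [mul_zero] at hg
      exact mp_ne_zero A w hg
    rw [Nat.add_sub_cancel] at h1
    have h3 : p * g ∣ g := (mul_dvd_mul_iff_left h2).1 h1
    have h4 : p * g ∣ 1 * g := by rwa [one_mul]
    have h5 := (mul_dvd_mul_iff_right hg0).1 h4
    exact hp.not_isUnit (isUnit_of_dvd_one h5)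

end Pool.Agent.MP2696.AA
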