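import Pool.Agent.Lib.MP_2696ff_co.AA.Cou

/-!
# MP_2696ff_co, almost all graphs: walk vectors and special characteristic polynomials
-/

set_option autoImplicit false
set_option linter.unusedSectionVars false

namespace Pool.Agent.MP2696.AA

open Matrix Finset Polynomial

section

variable {n : ℕ}

theorem walk_mono (hn : ((n : ℕ) : ZMod 2) = 0) (A : Matrix (Fin n) (Fin n) (ZMod 2)) (hA : IsAlt A) :
    ∀ m : ℕ, (fun _ => 1 : Fin n → ZMod 2) ⬝ᵥ act A (X ^ m) (fun _ => 1) = 0 := by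
  intro m
  induction m using Nat.strong_induction_on with
  | _ m ih =>
    rcases Nat.even_or_odd' m with ⟨l, rfl | rfl⟩
    · rcases Nat.eq_zero_or_pos l with h | h
      · subst h
        rw [mul_zero, pow_zero, act_one, dotProduct]
        simp [hn]
      · have h1 : (fun _ => 1 : Fin n → ZMod 2) ⬝ᵥ act A (X ^ (2 * l)) (fun _ => 1) =
            act A (X ^ l) (fun _ => 1) ⬝ᵥ act A (X ^ l) (fun _ => 1) := by
          rw [act_symm A hA, ← act_mul, ← pow_add, two_mul]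
        rw [h1, dot_self, dotProduct_comm]
        exact ih l (by omega)
    · have h1 : (fun _ => 1 : Fin n → ZMod 2) ⬝ᵥ act A (X ^ (2 * l + 1)) (fun _ => 1) =
          bf A (act A (X ^ l) (fun _ => 1)) (act A (X ^ l) (fun _ => 1)) := by
        rw [bf, show A *ᵥ act A (X ^ l) (fun _ => 1) = act A X (act A (X ^ l) (fun _ => 1)) by
          rw [act, act, aeval_X], act_symm A hA, ← act_mul, ← act_mul]
        congr 2
        ring
      rw [h1, hA.bf_self]

theorem walk_iso (hn : ((n : ℕ) : ZMod 2) = 0) (A : Matrix (Fin n) (Fin n) (ZMod 2)) (hA : IsAlt A)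
    (g : (ZMod 2)[X]) : (fun _ => 1 : Fin n → ZMod 2) ⬝ᵥ act A g (fun _ => 1) = 0 := by
  induction g using Polynomial.induction_on' with
  | add p q hp hq => rw [act_add, dotProduct_add, hp, hq, add_zero]
  | monomial k a =>
    rw [← C_mul_X_pow_eq_monomial, act_C_mul, dotProduct_smul, walk_mono hn A hA, smul_zero]

/-- A square root of the characteristic polynomial kills the all ones vector. -/
theorem walk_sq (A : Matrix (Fin n) (Fin n) (ZMod 2)) (hA : IsAlt A)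
    (ψ : (ZMod 2)[X]) (h : A.charpoly = ψ ^ 2) : act A ψ (fun _ => 1) = 0 := by
  have h1 : ∀ v : Fin n → ZMod 2, v ⬝ᵥ act A ψ (fun _ => 1) = 0 := by
    intro v
    rw [← act_symm A hA, ← dot_self, act_symm A hA, ← act_mul, ← sq, ← h, act,
      aeval_self_charpoly, zero_mulVec, dotProduct_zero]
  funext j
  have h2 := h1 (Pi.single j 1)
  rwa [single_dotProduct, one_mul] at h2

/-- Coefficient vectors with zeros at the even indices at least 2. -/
def spc (q : ℕ) : Finset (Fin q → ZMod 2) :=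
  univ.filter fun c : Fin q → ZMod 2 => ∀ i : Fin q, 2 ∣ (i : ℕ) → (i : ℕ) ≠ 0 → c i = 0

theorem card_spc (q : ℕ) (hq : 1 ≤ q) : (spc q).card ≤ 2 ^ (q / 2 + 1) := by
  have h1 : Fintype.card (Fin (q / 2 + 1) → ZMod 2) = 2 ^ (q / 2 + 1) := by
    rw [Fintype.card_fun, ZMod.card, Fintype.card_fin]
  rw [← h1, ← card_univ]
  refine card_le_card_of_injOn (fun c (t : Fin (q / 2 + 1)) => c ⟨2 * (t : ℕ) - 1, by
    have := t.2; omega⟩) (fun _ _ => mem_univ _) ?_
  intro c hc c' hc' h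
  rw [mem_coe, spc, mem_filter] at hc hc'
  funext i
  by_cases h2 : 2 ∣ (i : ℕ)
  · by_cases h0 : (i : ℕ) = 0
    · have h3 := congrFun h ⟨0, Nat.succ_pos _⟩
      have h4 : i = ⟨2 * 0 - 1, by omega⟩ := Fin.ext h0
      rw [h4]
      exact h3
    · rw [hc.2 i h2 h0, hc'.2 i h2 h0]
  · have hi := i.2
    have h3 := congrFun h ⟨((i : ℕ) + 1) / 2, by omega⟩
    have h4 : i = ⟨2 * (((i : ℕ) + 1) / 2) - 1, by omega⟩ := Fin.ext (by
      change (i : ℕ) = 2 * (((i : ℕ) + 1) / 2) - 1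
      omega)
    rw [h4]
    exact h3

/-- Isotropic tuples starting with the all ones vector. -/
theorem card_one_iso (k : ℕ) (hn : 0 < n) :
    Nat.card {u : Fin k → Fin n → ZMod 2 //
      Iso (Fin.cons (fun _ => 1) u : Fin (k + 1) → Fin n → ZMod 2)} ≤ 2 ^ ex n k := by
  have h1 := card_good_le (V := Fin n) k (Submodule.span (ZMod 2) {(fun _ => 1 : Fin n → ZMod 2)})
  have hne : (fun _ => 1 : Fin n → ZMod 2) ≠ 0 := by
    intro h
    exact one_ne_zero (congrFun h ⟨0, hn⟩)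
  rw [finrank_span_singleton hne, Fintype.card_fin] at h1
  refine le_trans (Nat.card_le_card_of_injective
    (fun u : {u : Fin k → Fin n → ZMod 2 //
      Iso (Fin.cons (fun _ => 1) u : Fin (k + 1) → Fin n → ZMod 2)} =>
      (⟨u.1, ?_⟩ : {u : Fin k → Fin n → ZMod 2 //
        good k (Submodule.span (ZMod 2) {(fun _ => 1 : Fin n → ZMod 2)}) u})) ?_) h1
  · obtain ⟨hi, ho⟩ := u.2
    refine good_of k _ _ (fun g hg => ?_) (fun a x hx => ?_) (fun a b _ => ?_)
    · obtain ⟨t, ht⟩ := Submodule.mem_span_singleton.1 hg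
      rw [Fintype.linearIndependent_iff] at hi
      have h2 := hi (Fin.cons t g) (by
        rw [Fin.sum_univ_succ]
        simp only [Fin.cons_zero, Fin.cons_succ]
        rw [ht]
        funext i
        exact CharTwo.add_self_eq_zero _)
      funext a
      exact h2 a.succ
    · obtain ⟨t, rfl⟩ := Submodule.mem_span_singleton.1 hx
      have h2 := ho a.succ 0
      rw [Fin.cons_succ, Fin.cons_zero] at h2
      rw [dotProduct_smul, h2, smul_zero]
    · have h2 := ho a.succ b.succ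
      rwa [Fin.cons_succ, Fin.cons_succ] at h2
  · rintro ⟨u, hu⟩ ⟨u', hu'⟩ h
    have h2 : u = u' := congrArg Subtype.val h
    exact Subtype.ext h2

/-- The walk event. -/
theorem walk_count (q : ℕ) (hq : 1 ≤ q) :
    cn (2 * q) (fun A => LinearIndependent (ZMod 2) (fun j : Fin q => (A ^ (j : ℕ)) *ᵥ 1) ∧
      ∃ ψ : (ZMod 2)[X], A.charpoly = ψ ^ 2 ∧ ∀ k, 1 ≤ k → ψ.coeff (2 * k) = 0) * 2 ^ q ≤
      2 ^ (q / 2 + 1) * 2 ^ ((2 * q).choose 2) := by
  classical
  obtain ⟨k, rfl⟩ : ∃ k, q = k + 1 := ⟨q - 1, by omega⟩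
  set n := 2 * (k + 1) with hn
  have hn0 : ((n : ℕ) : ZMod 2) = 0 := by
    rw [ZMod.natCast_eq_zero_iff]
    exact Dvd.intro _ rfl
  let e : Fin n → ZMod 2 := fun _ => 1
  let R : (ZMod 2)[X] → Matrix (Fin n) (Fin n) (ZMod 2) → (Fin k → Fin n → ZMod 2) → Prop :=
    fun g A u => Iso (Fin.cons e u : Fin (k + 1) → Fin n → ZMod 2) ∧
      ∀ j, A *ᵥ (Fin.cons e u : Fin (k + 1) → Fin n → ZMod 2) j =
        nxt g (Fin.cons e u : Fin (k + 1) → Fin n → ZMod 2) j
  have h1 : cn n (fun A => LinearIndependent (ZMod 2) (fun j : Fin (k + 1) => (A ^ (j : ℕ)) *ᵥ 1) ∧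
      ∃ ψ : (ZMod 2)[X], A.charpoly = ψ ^ 2 ∧ ∀ k, 1 ≤ k → ψ.coeff (2 * k) = 0) ≤
      ∑ g ∈ (spc (k + 1)).image (pol (k + 1)), ∑ u : Fin k → Fin n → ZMod 2,
        cn n (fun A => R g A u) := by
    refine le_trans (cn_mono ?_) (le_trans (cn_exists ((spc (k + 1)).image (pol (k + 1)))
      (fun g A => ∃ u ∈ (univ : Finset (Fin k → Fin n → ZMod 2)), R g A u))
      (sum_le_sum fun g _ => cn_exists univ _))
    rintro A hA ⟨hind, ψ, hψ, hsp⟩
    have hψ0 : ψ ≠ 0 := by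
      rintro rfl
      rw [zero_pow two_ne_zero] at hψ
      exact A.charpoly_monic.ne_zero hψ
    have hdeg : ψ.natDegree = k + 1 := by
      have h2 := congrArg natDegree hψ
      rw [A.charpoly_natDegree_eq_dim, natDegree_pow, Fintype.card_fin] at h2
      omega
    refine ⟨ψ, ?_, Fin.tail (kry A e (k + 1)), mem_univ _, ?_⟩
    · rw [mem_image]
      refine ⟨fun i => ψ.coeff i, ?_, ?_⟩
      · rw [spc, mem_filter]
        refine ⟨mem_univ _, fun i h2 h0 => ?_⟩
        obtain ⟨m, hm⟩ := h2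
        change ψ.coeff (i : ℕ) = 0
        rw [hm]
        exact hsp m (by omega)
      · have h3 := pol_surj ψ hψ0
        rw [hdeg] at h3
        exact h3
    · have h3 : (Fin.cons e (Fin.tail (kry A e (k + 1))) : Fin (k + 1) → Fin n → ZMod 2) =
          kry A e (k + 1) := by
        have h4 := Fin.cons_self_tail (kry A e (k + 1))
        rw [show kry A e (k + 1) 0 = e from kry_zero A e (k + 1) (Nat.succ_pos k)] at h4
        exact h4
      change Iso _ ∧ _
      rw [h3]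
      refine ⟨⟨hind, fun a b => ?_⟩, kry_nxt' A e ψ _ hdeg hψ0 (walk_sq A hA ψ hψ)⟩
      rw [kry, ← act_X_pow, kry, ← act_X_pow, act_symm A hA, ← act_mul]
      exact walk_iso hn0 A hA _
  have h2 : ∀ g ∈ (spc (k + 1)).image (pol (k + 1)), (∑ u : Fin k → Fin n → ZMod 2,
        cn n (fun A => R g A u)) ≤ 2 ^ ex n k * 2 ^ ((n - (k + 1)).choose 2) := by
    intro g _
    have h3 := sum_cn_le (R g) (fun u => Iso (Fin.cons e u : Fin (k + 1) → Fin n → ZMod 2)) 1
      (2 ^ ((n - (k + 1)).choose 2)) (fun u A _ h => h.1) (fun u hu => by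
        rw [mul_one]
        have h3 := card_sol_le _ (nxt g (Fin.cons e u : Fin (k + 1) → Fin n → ZMod 2)) hu.1
        rw [Fintype.card_fin] at h3
        exact le_trans (cn_mono (Q := fun A => ∀ j, A *ᵥ (Fin.cons e u : Fin (k + 1) →
          Fin n → ZMod 2) j = nxt g (Fin.cons e u : Fin (k + 1) → Fin n → ZMod 2) j)
          fun A _ h => h.2) h3)
    rw [mul_one] at h3
    exact h3.trans (Nat.mul_le_mul_right _ (card_one_iso k (by omega)))
  have h3 : ((spc (k + 1)).image (pol (k + 1))).card ≤ 2 ^ ((k + 1) / 2 + 1) :=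
    card_image_le.trans (card_spc (k + 1) (by omega))
  have h4 : 2 ^ ex n k * 2 ^ ((n - (k + 1)).choose 2) * 2 ^ (k + 1) = 2 ^ (n.choose 2) := by
    rw [← pow_add, ← pow_add]
    congr 1
    have h5 := ex_add n (k + 1) (by omega)
    rw [ex_succ] at h5
    omega
  calc _ ≤ (2 ^ ((k + 1) / 2 + 1) * (2 ^ ex n k * 2 ^ ((n - (k + 1)).choose 2))) * 2 ^ (k + 1) := by
        refine Nat.mul_le_mul_right _ (h1.trans ((sum_le_card_nsmul _ _ _ h2).trans ?_))
        rw [smul_eq_mul]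
        exact Nat.mul_le_mul_right _ h3
    _ = 2 ^ ((k + 1) / 2 + 1) *
        (2 ^ ex n k * 2 ^ ((n - (k + 1)).choose 2) * 2 ^ (k + 1)) := by ring
    _ = _ := by rw [h4]

end

/-- The walk event is rare. -/
theorem evE (ε : ℝ) (hε : 0 < ε) : ∃ n₀ : ℕ, ∀ q : ℕ, n₀ ≤ 2 * q →
    (cn (2 * q) (fun A => LinearIndependent (ZMod 2) (fun j : Fin q => (A ^ (j : ℕ)) *ᵥ 1) ∧
      ∃ ψ : (ZMod 2)[X], A.charpoly = ψ ^ 2 ∧ ∀ k, 1 ≤ k → ψ.coeff (2 * k) = 0) : ℝ) ≤
      ε * 2 ^ ((2 * q).choose 2) := by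
  have t1 : Filter.Tendsto (fun q : ℕ => 2 * (3 / 4 : ℝ) ^ q) Filter.atTop (nhds 0) := by
    have := (tendsto_pow_atTop_nhds_zero_of_lt_one (r := (3 / 4 : ℝ)) (by norm_num)
      (by norm_num)).const_mul 2
    rwa [mul_zero] at this
  obtain ⟨q0, hq0⟩ := Filter.eventually_atTop.1 (t1.eventually (gt_mem_nhds hε))
  refine ⟨2 * q0 + 2, fun q hq => ?_⟩
  have h1 := walk_count q (by omega)
  have h2 : (cn (2 * q) (fun A => LinearIndependent (ZMod 2) (fun j : Fin q =>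
      (A ^ (j : ℕ)) *ᵥ 1) ∧ ∃ ψ : (ZMod 2)[X], A.charpoly = ψ ^ 2 ∧
      ∀ k, 1 ≤ k → ψ.coeff (2 * k) = 0) : ℝ) * 2 ^ q ≤
      2 ^ (q / 2 + 1) * 2 ^ ((2 * q).choose 2) := by exact_mod_cast h1
  have hpos : (0 : ℝ) < 2 ^ q := by positivity
  rw [← mul_le_mul_iff_left₀ hpos]
  refine h2.trans ?_
  have h3 : (2 : ℝ) ^ (q / 2) ≤ (3 / 2) ^ q := by
    have h4 : (2 : ℝ) ^ (q / 2) ≤ (3 / 2) ^ (2 * (q / 2)) := by
      rw [pow_mul]
      exact pow_le_pow_left₀ (by norm_num) (by norm_num) _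
    exact h4.trans (pow_le_pow_right₀ (by norm_num) (by omega))
  have h5 : (3 / 2 : ℝ) ^ q = (3 / 4) ^ q * 2 ^ q := by
    rw [← mul_pow]; norm_num
  have h6 := hq0 q (by omega)
  calc (2 : ℝ) ^ (q / 2 + 1) * 2 ^ ((2 * q).choose 2)
      = 2 * 2 ^ (q / 2) * 2 ^ ((2 * q).choose 2) := by ring
    _ ≤ 2 * ((3 / 4) ^ q * 2 ^ q) * 2 ^ ((2 * q).choose 2) := by
        rw [← h5]
        gcongr
    _ = (2 * (3 / 4) ^ q) * (2 ^ ((2 * q).choose 2) * 2 ^ q) := by ring
    _ ≤ ε * (2 ^ ((2 * q).choose 2) * 2 ^ q) :=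
        mul_le_mul_of_nonneg_right h6.le (by positivity)
    _ = _ := by ring

end Pool.Agent.MP2696.AA
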