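import Pool.Agent.Lib.MP_2696ff_co.AA.Cost

/-!
# MP_2696ff_co, almost all graphs: isotropic tuples whose span contains a vector of weight two
-/

set_option autoImplicit false
set_option linter.unusedSectionVars false

namespace Pool.Agent.MP2696.AA

open Matrix Finset

section

variable {V : Type*} [Fintype V] [DecidableEq V]

theorem wtwo (k : ℕ) (hk : 2 * (k + 1) ≤ Fintype.card V) (p q : V) (hpq : q ≠ p) :
    Nat.card {v : Fin (k + 1) → V → ZMod 2 // Iso v ∧
      (Pi.single p 1 + Pi.single q 1 : V → ZMod 2) ∈ Submodule.span (ZMod 2) (Set.range v)} *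
      2 ^ Fintype.card V ≤ 2 ^ ex (Fintype.card V) (k + 1) * 2 ^ (k + 3) := by
  classical
  set w : V → ZMod 2 := Pi.single p 1 + Pi.single q 1 with hw
  have hwp : w p = 1 := by simp [hw, hpq.symm]
  have hwq : w q = 1 := by simp [hw, hpq]
  have hw0 : w ≠ 0 := by
    intro h
    rw [h] at hwp
    exact zero_ne_one hwp
  have hdot : ∀ u : V → ZMod 2, u ⬝ᵥ w = u p + u q := by
    intro u
    rw [hw, dotProduct_add, dotProduct_single, dotProduct_single, mul_one, mul_one]
  -- the other coordinates
  have hsum : ∀ f : V → ZMod 2, ∑ i, f i =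
      f p + (f q + ∑ i : {j : {i : V // i ≠ p} // j ≠ ⟨q, hpq⟩}, f i.1.1) := by
    intro f
    rw [Fintype.sum_eq_add_sum_subtype_ne f p,
      Fintype.sum_eq_add_sum_subtype_ne (fun i : {i : V // i ≠ p} => f i.1) ⟨q, hpq⟩]
  have hcard : Fintype.card {j : {i : V // i ≠ p} // j ≠ ⟨q, hpq⟩} = Fintype.card V - 2 := by
    rw [Fintype.card_subtype_compl, Fintype.card_subtype_eq, Fintype.card_subtype_compl,
      Fintype.card_subtype_eq]
    omega
  let Q : (Fin k → V → ZMod 2) → Prop := fun u =>
    Iso (fun a (i : {j : {i : V // i ≠ p} // j ≠ ⟨q, hpq⟩}) => u a i.1.1) ∧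
      ∀ a, u a p = u a q
  have h1 := card_iso_mem_le k w hw0 Q (by
    intro u hind hort hself
    have hpqu : ∀ a, u a p = u a q := by
      intro a
      have := hort a
      rw [hdot] at this
      exact CharTwo.add_eq_zero.1 this
    refine ⟨⟨?_, fun a b => ?_⟩, hpqu⟩
    · rw [Fintype.linearIndependent_iff]
      intro g hg
      have h2 : ∑ a, g a • u a ∈ Submodule.span (ZMod 2) {w} := by
        set s := ∑ a, g a • u a with hs
        have hsp : s p = s q := by
          rw [hs, Finset.sum_apply, Finset.sum_apply]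
          exact sum_congr rfl fun a _ => by rw [Pi.smul_apply, Pi.smul_apply, hpqu]
        have hs0 : ∀ i, i ≠ p → i ≠ q → s i = 0 := by
          intro i hip hiq
          have := congrFun hg ⟨⟨i, hip⟩, fun h => hiq (congrArg Subtype.val h)⟩
          rw [Finset.sum_apply] at this
          rw [hs, Finset.sum_apply]
          exact this
        rw [Submodule.mem_span_singleton]
        refine ⟨s p, funext fun i => ?_⟩
        rw [Pi.smul_apply, smul_eq_mul]
        by_cases hip : i = p
        · rw [hip, hwp, mul_one]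
        · by_cases hiq : i = q
          · rw [hiq, hwq, mul_one, hsp]
          · rw [hs0 i hip hiq, hw, Pi.add_apply, Pi.single_eq_of_ne hip, Pi.single_eq_of_ne hiq,
              add_zero, mul_zero]
      exact fun a => congrFun (hind g h2) a
    · have h2 := hself a b
      rw [dotProduct, hsum, hpqu a, hpqu b, ← add_assoc, CharTwo.add_self_eq_zero, zero_add] at h2
      exact h2)
  have h2 : Nat.card {u : Fin k → V → ZMod 2 // Q u} ≤
      2 ^ k * (2 * 2 ^ ex (Fintype.card V - 2) k) := by
    have h3 := card_iso_le (V := {j : {i : V // i ≠ p} // j ≠ ⟨q, hpq⟩}) k (by rw [hcard]; omega)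
    rw [hcard] at h3
    have h4 : Nat.card ((Fin k → ZMod 2) ×
        {v : Fin k → {j : {i : V // i ≠ p} // j ≠ ⟨q, hpq⟩} → ZMod 2 // Iso v}) ≤
        2 ^ k * (2 * 2 ^ ex (Fintype.card V - 2) k) := by
      rw [Nat.card_prod, Nat.card_eq_fintype_card (α := Fin k → ZMod 2), Fintype.card_fun,
        ZMod.card, Fintype.card_fin]
      exact Nat.mul_le_mul_left _ h3
    refine le_trans (Nat.card_le_card_of_injective
      (fun u : {u : Fin k → V → ZMod 2 // Q u} => ((fun a => u.1 a p,
        ⟨fun a i => u.1 a i.1.1, u.2.1⟩) : (Fin k → ZMod 2) ×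
        {v : Fin k → {j : {i : V // i ≠ p} // j ≠ ⟨q, hpq⟩} → ZMod 2 // Iso v})) ?_) h4
    rintro ⟨u, hu⟩ ⟨u', hu'⟩ h
    apply Subtype.ext
    change u = u'
    have e1 : (fun a => u a p) = fun a => u' a p := congrArg Prod.fst h
    have e2 : (fun a (i : {j : {i : V // i ≠ p} // j ≠ ⟨q, hpq⟩}) => u a i.1.1) =
      fun a i => u' a i.1.1 := congrArg (fun t => t.2.1) h
    funext a i
    by_cases hip : i = p
    · rw [hip]; exact congrFun e1 a
    · by_cases hiq : i = q
      · rw [hiq, ← hu.2, ← hu'.2]; exact congrFun e1 a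
      · exact congrFun (congrFun e2 a) ⟨⟨i, hip⟩, fun h => hiq (congrArg Subtype.val h)⟩
  calc _ ≤ (2 ^ (k + 1) * (2 ^ k * (2 * 2 ^ ex (Fintype.card V - 2) k))) * 2 ^ Fintype.card V :=
        Nat.mul_le_mul_right _ (h1.trans (Nat.mul_le_mul_left _ h2))
    _ = 2 ^ ((k + 1) + (k + (1 + ex (Fintype.card V - 2) k)) + Fintype.card V) := by
        generalize ex (Fintype.card V - 2) k = e
        generalize Fintype.card V = n
        ring
    _ ≤ 2 ^ (ex (Fintype.card V) (k + 1) + (k + 3)) := by
        refine Nat.pow_le_pow_right (by norm_num) ?_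
        rw [ex_two _ k (by omega)]
        omega
    _ = _ := by rw [pow_add]

/-- The dimension of an isotropic space. -/
theorem iso_le {k : ℕ} (v : Fin k → V → ZMod 2) (hv : Iso v) : 2 * k ≤ Fintype.card V := by
  set C := Submodule.span (ZMod 2) (Set.range v) with hC
  have h1 : Module.finrank (ZMod 2) C = k := by
    rw [hC, finrank_span_eq_card hv.1, Fintype.card_fin]
  have h2 : C ≤ orth C := by
    rw [hC, Submodule.span_le]
    rintro _ ⟨a, rfl⟩
    change v a ∈ orth _
    rw [mem_orth]
    intro c hc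
    induction hc using Submodule.span_induction with
    | mem z hz =>
      obtain ⟨b, rfl⟩ := hz
      exact hv.2 b a
    | zero => rw [zero_dotProduct]
    | add x y _ _ hx hy => rw [add_dotProduct, hx, hy, add_zero]
    | smul t x _ hx => rw [smul_dotProduct, hx, smul_zero]
  have h3 := card_orth_le C
  have h4 : Nat.card {u : V → ZMod 2 // ∀ x ∈ C, u ⬝ᵥ x = 0} = Nat.card (orth C) := by
    refine Nat.card_congr (Equiv.subtypeEquivRight fun u => ?_)
    rw [mem_orth]
    exact ⟨fun h x hx => by rw [dotProduct_comm]; exact h x hx,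
      fun h x hx => by rw [dotProduct_comm]; exact h x hx⟩
  rw [h4, Module.natCard_eq_pow_finrank (K := ZMod 2) (V := orth C), Nat.card_zmod, h1] at h3
  have h5 := (Nat.pow_le_pow_iff_right (by norm_num : 1 < 2)).1 h3
  have h6 := Submodule.finrank_mono h2
  have h7 := Submodule.finrank_le C
  rw [Module.finrank_fintype_fun_eq_card] at h7
  rw [h1] at h6 h7
  omega

end

end Pool.Agent.MP2696.AA
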